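import Pool.Agent.Lib.H77V.Defs

/-!
# Chunk A1: positions
-/

open Finset

namespace Pool.Agent.Lib.H77V

theorem pos_zero {k : ℕ} (v : Fin k → ℕ) : pos v 0 = 0 := by
  unfold pos
  refine Finset.sum_eq_zero fun j hj => ?_
  have h := (Finset.mem_filter.1 hj).2
  simp at h

theorem pos_succ {k : ℕ} (v : Fin k → ℕ) (i : Fin k) :
    pos v i.succ = pos v i.castSucc + v i := by
  unfold pos
  have h : (univ.filter (fun j : Fin k => (j : ℕ) < (i.succ : Fin (k + 1)))) =
      insert i (univ.filter (fun j : Fin k => (j : ℕ) < (i.castSucc : Fin (k + 1)))) := by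
    ext j
    simp only [Finset.mem_filter, Finset.mem_univ, true_and, Finset.mem_insert, Fin.val_succ,
      Fin.val_castSucc, Fin.ext_iff]
    omega
  rw [h, Finset.sum_insert (by simp), add_comm]

theorem pos_last {k : ℕ} (v : Fin k → ℕ) : pos v (Fin.last k) = ∑ i, v i := by
  unfold pos
  refine Finset.sum_congr ?_ fun _ _ => rfl
  ext j
  simp

/-- `pos_succ` and `1 ≤ v i` (`Fin.strictMono_iff_lt_succ`). -/
theorem pos_strictMono {k : ℕ} (v : Fin k → ℕ) (hv : ∀ i, 1 ≤ v i) : StrictMono (pos v) := by
  rw [Fin.strictMono_iff_lt_succ]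
  intro i
  rw [pos_succ]
  have := hv i
  omega

theorem pos_le_last {k : ℕ} (v : Fin k → ℕ) (i : Fin (k + 1)) :
    pos v i ≤ pos v (Fin.last k) := by
  rw [pos_last]
  unfold pos
  exact Finset.sum_le_sum_of_subset (Finset.filter_subset _ _)

/-- The vector is determined by the positions (`pos_succ`). -/
theorem pos_injective {k : ℕ} (v w : Fin k → ℕ) (h : ∀ i, pos v i = pos w i) : v = w := by
  funext i
  have h1 := h i.succ
  have h2 := h i.castSucc
  rw [pos_succ, pos_succ] at h1
  omega

/-- Differences of consecutive values of an increasing sequence of numbers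
(`pos v i = e i - e 0`; induction on `i`, `pos_succ`). -/
theorem pos_diff {k : ℕ} (e : Fin (k + 1) → ℕ) (he : StrictMono e) (i : Fin (k + 1)) :
    e 0 + pos (fun j : Fin k => e j.succ - e j.castSucc) i = e i := by
  induction i using Fin.induction with
  | zero => rw [pos_zero, add_zero]
  | succ i ih =>
    rw [pos_succ]
    have h1 : e i.castSucc < e i.succ := he (Fin.castSucc_lt_succ)
    omega

end Pool.Agent.Lib.H77V
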