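import Pool.Agent.Lib.H77V.A1

/-!
# Chunk A2: the number of the places, second moment over the vectors
-/

open Finset
open Pool.Agent.Lib.H92V (rp)

namespace Pool.Agent.Lib.H77V

private theorem A2_tuples (k : ℕ) (B : Finset (Fin k → ℕ)) (P : Finset ℕ)
    (G : (Fin k → ℕ) → Finset ℕ)
    (hG : ∀ v ∈ B, ∀ x ∈ G v, ∀ i : Fin (k + 1), x + pos v i ∈ P) :
    ∑ v ∈ B, (G v).card ≤ P.card ^ (k + 1) := by
  classical
  have h1 : P.card ^ (k + 1) = (Fintype.piFinset (fun _ : Fin (k + 1) => P)).card := by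
    rw [Fintype.card_piFinset, prod_const, card_univ, Fintype.card_fin]
  rw [h1, ← card_sigma]
  refine card_le_card_of_injOn (fun z : (Σ _ : Fin k → ℕ, ℕ) => fun i => z.2 + pos z.1 i) ?_ ?_
  · rintro ⟨v, x⟩ hz
    rw [mem_coe, mem_sigma] at hz
    rw [mem_coe, Fintype.mem_piFinset]
    exact fun i => hG v hz.1 x hz.2 i
  · rintro ⟨v, x⟩ - ⟨w, y⟩ - h
    have h0 : x + pos v 0 = y + pos w 0 := congrFun h 0
    rw [pos_zero, pos_zero, add_zero, add_zero] at h0
    have h2 : v = w := pos_injective v w fun i => by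
      have h3 : x + pos v i = y + pos w i := congrFun h i
      omega
    rw [h0, h2]

private theorem A2_sq (H : ℕ) (F : Finset ℕ) (hF : ∀ z ∈ F, 1 ≤ z ∧ z ≤ H) :
    F.card ^ 2 ≤ F.card + 2 * ∑ h ∈ Icc 1 H, (F.filter (fun x => x + h ∈ F)).card := by
  classical
  obtain ⟨U, hU⟩ : ∃ U, U = (F ×ˢ F).filter (fun z : ℕ × ℕ => z.1 < z.2) := ⟨_, rfl⟩
  obtain ⟨W, hW⟩ : ∃ W, W = (F ×ˢ F).filter (fun z : ℕ × ℕ => z.2 < z.1) := ⟨_, rfl⟩
  have h1 : U.card ≤ ∑ h ∈ Icc 1 H, (F.filter (fun x => x + h ∈ F)).card := by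
    rw [← card_sigma]
    refine card_le_card_of_injOn (fun z : ℕ × ℕ => (⟨z.2 - z.1, z.1⟩ : Σ _ : ℕ, ℕ)) ?_ ?_
    · rintro ⟨x, y⟩ hz
      rw [hU, mem_coe, mem_filter, mem_product] at hz
      obtain ⟨⟨hx, hy⟩, hlt⟩ := hz
      simp only at hx hy hlt
      have h2 := hF y hy
      rw [mem_coe, mem_sigma, mem_Icc, mem_filter]
      refine ⟨⟨by simp only; omega, by simp only; omega⟩, hx, ?_⟩
      have h3 : x + (y - x) = y := by omega
      simp only [h3]
      exact hy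
    · rintro ⟨x, y⟩ hz ⟨x', y'⟩ hz' h
      rw [hU, mem_coe, mem_filter] at hz hz'
      have h2 : y - x = y' - x' := congrArg Sigma.fst h
      have h3 : x = x' := congrArg (fun s : (Σ _ : ℕ, ℕ) => s.2) h
      have h4 := hz.2
      have h5 := hz'.2
      simp only at h4 h5
      rw [Prod.mk.injEq]
      omega
  have h2 : W.card ≤ U.card := by
    refine card_le_card_of_injOn (fun z : ℕ × ℕ => (z.2, z.1)) ?_ ?_
    · rintro ⟨x, y⟩ hz
      rw [hW, mem_coe, mem_filter, mem_product] at hz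
      rw [hU, mem_coe, mem_filter, mem_product]
      exact ⟨⟨hz.1.2, hz.1.1⟩, hz.2⟩
    · rintro ⟨x, y⟩ - ⟨x', y'⟩ - h
      rw [Prod.mk.injEq] at h ⊢
      exact ⟨h.2, h.1⟩
  have h3 : F ×ˢ F ⊆ (F.image (fun x => (x, x))) ∪ (U ∪ W) := by
    rintro ⟨x, y⟩ hz
    rw [mem_union, mem_union, mem_image, hU, hW, mem_filter, mem_filter]
    rcases lt_trichotomy x y with h | h | h
    · exact Or.inr (Or.inl ⟨hz, h⟩)
    · exact Or.inl ⟨x, (mem_product.1 hz).1, by rw [h]⟩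
    · exact Or.inr (Or.inr ⟨hz, h⟩)
  have h4 := card_le_card h3
  rw [card_product] at h4
  have h5 := card_union_le (F.image (fun x => (x, x))) (U ∪ W)
  have h6 := card_union_le U W
  have h7 : (F.image (fun x => (x, x))).card ≤ F.card := card_image_le
  rw [sq]
  omega

/-- The left side is the number of the triples `(v, x, x')` such that all `x + pos v i`, `x' + pos v i`
are in `R`. `x = x'`: the tuple `(x + pos v i)_i ∈ R^(k+1)` determines `x` (`pos_zero`) and `v`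
(`pos_injective`). `x' = x + h`, `h ∈ [1, H]` (both in `R ⊆ [1, H]`): `h` and the tuple
`(x + pos v i)_i ∈ {z ∈ R : z + h ∈ R}^(k+1)` determine `v`, `x`, `x'`; there are `rp R h ^ (k+1)` tuples.
`x = x' + h`: the same. -/
theorem sum_NR_sq_le (k H : ℕ) (R : Finset ℕ) (hR : ∀ z ∈ R, 1 ≤ z ∧ z ≤ H) :
    ∑ v ∈ box k H, NR R v ^ 2 ≤ R.card ^ (k + 1) + 2 * eK (k + 1) R H := by
  classical
  obtain ⟨F, hF⟩ : ∃ F : (Fin k → ℕ) → Finset ℕ,
      ∀ v, F v = R.filter (fun x => ∀ i : Fin (k + 1), x + pos v i ∈ R) := ⟨_, fun _ => rfl⟩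
  have hFm : ∀ v x, x ∈ F v → ∀ i : Fin (k + 1), x + pos v i ∈ R := by
    intro v x hx
    rw [hF, mem_filter] at hx
    exact hx.2
  have hFR : ∀ v x, x ∈ F v → x ∈ R := by
    intro v x hx
    rw [hF, mem_filter] at hx
    exact hx.1
  have h1 : ∀ v, NR R v ^ 2 ≤ (F v).card +
      2 * ∑ h ∈ Icc 1 H, ((F v).filter (fun x => x + h ∈ F v)).card := by
    intro v
    have h2 : NR R v = (F v).card := by rw [hF]; rfl
    rw [h2]
    exact A2_sq H (F v) fun z hz => hR z (hFR v z hz)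
  refine (sum_le_sum fun v _ => h1 v).trans ?_
  rw [sum_add_distrib, ← mul_sum, sum_comm]
  have h3 : ∑ v ∈ box k H, (F v).card ≤ R.card ^ (k + 1) :=
    A2_tuples k (box k H) R F fun v _ x hx i => hFm v x hx i
  have h4 : ∑ h ∈ Icc 1 H, ∑ v ∈ box k H, ((F v).filter (fun x => x + h ∈ F v)).card ≤
      eK (k + 1) R H := by
    unfold eK
    refine sum_le_sum fun h _ => ?_
    refine A2_tuples k (box k H) (R.filter (fun x => x + h ∈ R)) _ fun v _ x hx i => ?_
    rw [mem_filter] at hx ⊢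
    refine ⟨hFm v x hx.1 i, ?_⟩
    have h5 := hFm v (x + h) hx.2 i
    have h6 : x + pos v i + h = x + h + pos v i := by ring
    rw [h6]
    exact h5
  omega

end Pool.Agent.Lib.H77V
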