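import Pool.Agent.Lib.H77V.A1

/-!
# Chunk A3: the first `k + 1` primes give a vector
-/

open Finset

namespace Pool.Agent.Lib.H77V

/-- Let `S` be the set of the `z ∈ R` with `a + z + M t` prime, `n = |S| ≥ k + 1`, `e : Fin n ↪o ℕ` its
increasing enumeration (`S.orderEmbOfFin rfl`). Put `f i = e (Fin.castLE _ i)` for `i : Fin (k + 1)`,
`v j = f (j + 1) - f j`, `x = f 0`; `x + pos v i = f i` (`pos_diff`). If `z ∈ R`, `x < z < f k` and
`a + z + M t` is prime, then `z ∈ S`, so `z = e m` with `m < k`. -/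
theorem exists_GK (k : ℕ) (R : Finset ℕ) (a M H t : ℕ) (hR : ∀ z ∈ R, 1 ≤ z ∧ z ≤ H)
    (ht : k + 1 ≤ (R.filter (fun z => (a + z + M * t).Prime)).card) :
    ∃ v ∈ box k H, GK R a M v t := by
  classical
  obtain ⟨S, hS⟩ : ∃ S, S = R.filter (fun z => (a + z + M * t).Prime) := ⟨_, rfl⟩
  rw [← hS] at ht
  obtain ⟨f, hf⟩ : ∃ f : Fin (k + 1) → ℕ, ∀ i, f i = S.orderEmbOfFin rfl (Fin.castLE ht i) :=
    ⟨_, fun _ => rfl⟩
  have hmono : StrictMono f := by
    intro i j hij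
    rw [hf, hf]
    exact (S.orderEmbOfFin rfl).strictMono (by simpa using hij)
  have hfS : ∀ i, f i ∈ S := fun i => by
    rw [hf]
    exact S.orderEmbOfFin_mem rfl _
  have hmem : ∀ z, z ∈ S ↔ z ∈ R ∧ (a + z + M * t).Prime := fun z => by rw [hS, mem_filter]
  refine ⟨fun j : Fin k => f j.succ - f j.castSucc, ?_, f 0, ?_, ?_⟩
  · unfold box
    rw [Fintype.mem_piFinset]
    intro j
    rw [mem_Icc]
    have h1 : f j.castSucc < f j.succ := hmono (Fin.castSucc_lt_succ)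
    have h2 := hR _ ((hmem _).1 (hfS j.succ)).1
    omega
  · intro i
    rw [pos_diff f hmono i]
    exact (hmem _).1 (hfS i)
  · intro z hzR hz1 hz2 hzp
    rw [pos_diff f hmono (Fin.last k)] at hz2
    have hzS : z ∈ (S : Set ℕ) := (hmem z).2 ⟨hzR, hzp⟩
    rw [← Finset.range_orderEmbOfFin S rfl] at hzS
    obtain ⟨m, hm⟩ := hzS
    have h1 : m < Fin.castLE ht (Fin.last k) := by
      rw [← (S.orderEmbOfFin rfl).lt_iff_lt, hm, ← hf]
      exact hz2
    have h2 : (m : ℕ) < k := by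
      have h3 := Fin.lt_def.1 h1
      simpa using h3
    refine ⟨⟨m, by omega⟩, ?_⟩
    rw [pos_diff f hmono, hf, ← hm]
    rfl

end Pool.Agent.Lib.H77V
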