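import Pool.Agent.Lib.H92V.V7
import Pool.Agent.Lib.H77V.A2
import Pool.Agent.Lib.H77V.A3

/-!
# Chunk A4: many vectors, abstract form
-/

open Finset Real
open Pool.Agent.Lib.H5C
open Pool.Agent.Lib.H92V (rp)

namespace Pool.Agent.Lib.H77V

open Classical in
/-- The mass of the `t` with at least `k + 1` primes (`second_moment` with this `k`, `Cl = 0`; cf. the
first part of the proof of `H92V.v7` and `H5C.fd1_comb`). -/
theorem A4_mass (k : ℕ) (R : Finset ℕ) (a M T : ℕ) (g : ℕ → ℝ) (hg : ∀ t, 0 ≤ g t)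
    (m cL Cu u P B : ℝ) (hm : 0 < m) (hu : 0 ≤ u) (hCu : 0 < Cu) (hP : 0 ≤ P) (hB0 : 0 < B)
    (hG1 : m / 4 ≤ ∑ t ∈ Icc 1 T, g t) (hG2 : ∑ t ∈ Icc 1 T, g t ≤ 2 * m)
    (hA : ∀ h ∈ R, cL * u * m ≤ ∑ t ∈ (Icc 1 T).filter (fun t => (a + h + M * t).Prime), g t)
    (hB : ∀ h ∈ R, ∑ t ∈ (Icc 1 T).filter (fun t => (a + h + M * t).Prime), g t ≤ Cu * u * m)
    (hC : ∀ h ∈ R, ∀ h' ∈ R, h ≠ h' → ∑ t ∈ (Icc 1 T).filter (fun t =>
      (a + h + M * t).Prime ∧ (a + h' + M * t).Prime), g t ≤ Cu * u ^ 2 * m)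
    (hR1 : 4 * ((k : ℝ) + 1) ≤ R.card * (cL * u)) (hR2 : (R.card : ℝ) * u ≤ P * (k + 1))
    (hBP : 4 * Cu * (P + P ^ 2) ≤ B) :
    m / (8 * B) ≤ ∑ t ∈ (Icc 1 T).filter (fun t =>
      k + 1 ≤ (R.filter (fun z => (a + z + M * t).Prime)).card), g t := by
  set G : ℝ := ∑ t ∈ Icc 1 T, g t with hG
  have hmG : m ≤ 4 * G := by linarith
  have hG0 : 0 ≤ G := Finset.sum_nonneg fun t _ => hg t
  have hk0 : (0 : ℝ) ≤ k := Nat.cast_nonneg k
  have hs := second_moment (Icc 1 T) g (fd1_N R a M) (fun _ => 0) k B (fun t _ => hg t) hB0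
    (by
      rw [fd1_sumN, ← hG]
      have h1 : ∑ _h ∈ R, cL * u * m ≤
          ∑ h ∈ R, ∑ t ∈ (Icc 1 T).filter (fun t => (a + h + M * t).Prime), g t :=
        Finset.sum_le_sum hA
      rw [Finset.sum_const, nsmul_eq_mul] at h1
      have h3 : 4 * ((k : ℝ) + 1) * m ≤ R.card * (cL * u) * m :=
        mul_le_mul_of_nonneg_right hR1 hm.le
      have h4 : (R.card : ℝ) * (cL * u * m) = R.card * (cL * u) * m := by ring
      rw [h4] at h1
      have h5 : (2 * (k : ℝ) + 2) * G ≤ (2 * (k : ℝ) + 2) * (2 * m) :=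
        mul_le_mul_of_nonneg_left hG2 (by positivity)
      linarith)
    (by
      rw [fd1_sumN2, ← hG]
      have h1 : ∑ h ∈ R, ∑ h' ∈ R, ∑ t ∈ (Icc 1 T).filter (fun t => (a + h + M * t).Prime ∧
          (a + h' + M * t).Prime), g t ≤
          ∑ h ∈ R, ∑ h' ∈ R, ((if h = h' then Cu * u * m else 0) + Cu * u ^ 2 * m) := by
        refine Finset.sum_le_sum fun h hh => Finset.sum_le_sum fun h' hh' => ?_
        by_cases e : h = h'
        · subst e
          simp only [and_self, if_true]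
          have h2 := hB h hh
          have h3 : 0 ≤ Cu * u ^ 2 * m := by positivity
          linarith
        · rw [if_neg e, zero_add]
          exact hC h hh h' hh' e
      refine h1.trans ?_
      have h2 : ∑ h ∈ R, ∑ h' ∈ R, ((if h = h' then Cu * u * m else 0) + Cu * u ^ 2 * m) =
          Cu * m * (R.card * u) + Cu * m * (R.card * u) ^ 2 := by
        have h3 : ∀ h ∈ R, ∑ h' ∈ R, ((if h = h' then Cu * u * m else 0) + Cu * u ^ 2 * m) =
            Cu * u * m + R.card * (Cu * u ^ 2 * m) := by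
          intro h hh
          rw [Finset.sum_add_distrib, Finset.sum_const, nsmul_eq_mul, Finset.sum_ite_eq, if_pos hh]
        rw [Finset.sum_congr rfl h3, Finset.sum_const, nsmul_eq_mul]
        ring
      rw [h2]
      have h4 : 0 ≤ (R.card : ℝ) * u := by positivity
      have h5 : ((k : ℝ) + 1) ≤ ((k : ℝ) + 1) ^ 2 := by nlinarith
      have h6 : (R.card : ℝ) * u ≤ P * ((k : ℝ) + 1) ^ 2 :=
        hR2.trans (mul_le_mul_of_nonneg_left h5 hP)
      have h7 : ((R.card : ℝ) * u) ^ 2 ≤ P ^ 2 * ((k : ℝ) + 1) ^ 2 := by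
        rw [← mul_pow]
        exact pow_le_pow_left₀ h4 hR2 2
      have h8 : 0 ≤ Cu * m := by positivity
      calc Cu * m * (R.card * u) + Cu * m * (R.card * u) ^ 2
          ≤ Cu * m * (P * ((k : ℝ) + 1) ^ 2) + Cu * m * (P ^ 2 * ((k : ℝ) + 1) ^ 2) :=
            add_le_add (mul_le_mul_of_nonneg_left h6 h8) (mul_le_mul_of_nonneg_left h7 h8)
        _ = Cu * (P + P ^ 2) * ((k : ℝ) + 1) ^ 2 * m := by ring
        _ ≤ Cu * (P + P ^ 2) * ((k : ℝ) + 1) ^ 2 * (4 * G) :=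
            mul_le_mul_of_nonneg_left hmG (by positivity)
        _ = 4 * Cu * (P + P ^ 2) * (((k : ℝ) + 1) ^ 2 * G) := by ring
        _ ≤ B * (((k : ℝ) + 1) ^ 2 * G) := mul_le_mul_of_nonneg_right hBP (by positivity)
        _ = B * ((k : ℝ) + 1) ^ 2 * G := by ring)
    (by
      simp only [Nat.cast_zero, mul_zero, Finset.sum_const_zero]
      exact hG0)
  rw [← hG] at hs
  have h3 : m / (8 * B) ≤ G / (2 * B) := by
    rw [div_le_div_iff₀ (by positivity) (by positivity)]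
    nlinarith
  refine h3.trans (hs.trans (Finset.sum_le_sum_of_subset_of_nonneg ?_ fun t _ _ => hg t))
  intro t ht
  rw [Finset.mem_filter] at ht ⊢
  exact ⟨ht.1, ht.2.1⟩

/-- Sum over the vectors: Cauchy-Schwarz. If `∑_{v ∈ V} mass v ≥ m/(8B)`, `|V| = H^k`,
`mass v ≤ NR R v · Ck u^(k+1) m`, and `(∑_v NR²) H^k u^(2(k+1)) ≤ C4`, then the `v` with
`mass v ≥ m/(16 B H^k)` are at least `H^k/((16 B Ck)² C4)` many. -/
theorem A4_cs (k H : ℕ) (V : Finset (Fin k → ℕ)) (hV : V.card = H ^ k) (mass N : (Fin k → ℕ) → ℝ)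
    (hH : 0 < H) (m B Ck u C4 : ℝ) (hm : 0 < m) (hB0 : 0 < B) (hCk : 0 < Ck) (hu : 0 ≤ u)
    (hC4 : 0 < C4) (hmass : ∀ v ∈ V, 0 ≤ mass v) (hN : ∀ v ∈ V, 0 ≤ N v)
    (hsum : m / (8 * B) ≤ ∑ v ∈ V, mass v)
    (hle : ∀ v ∈ V, mass v ≤ N v * (Ck * u ^ (k + 1) * m))
    (hen : (∑ v ∈ V, N v ^ 2) * (H : ℝ) ^ k * u ^ (2 * (k + 1)) ≤ C4) :
    ∃ S : Finset (Fin k → ℕ), S ⊆ V ∧ 1 / ((16 * B * Ck) ^ 2 * C4) * (H : ℝ) ^ k ≤ (S.card : ℝ) ∧
      ∀ v ∈ S, m / (16 * B * (H : ℝ) ^ k) ≤ mass v := by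
  classical
  have hHR : (0 : ℝ) < (H : ℝ) ^ k := by positivity
  set W : ℝ := (H : ℝ) ^ k with hW
  set S : Finset (Fin k → ℕ) := V.filter (fun v => m / (16 * B * W) ≤ mass v) with hS
  have hSsum : m / (16 * B) ≤ ∑ v ∈ S, mass v := by
    have h1 := Finset.sum_filter_add_sum_filter_not V (fun v => m / (16 * B * W) ≤ mass v) mass
    have h2 : ∑ v ∈ V.filter (fun v => ¬ m / (16 * B * W) ≤ mass v), mass v ≤ m / (16 * B) := by
      calc ∑ v ∈ V.filter (fun v => ¬ m / (16 * B * W) ≤ mass v), mass v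
          ≤ ∑ _v ∈ V.filter (fun v => ¬ m / (16 * B * W) ≤ mass v), m / (16 * B * W) := by
            refine Finset.sum_le_sum fun v hv => ?_
            have := (Finset.mem_filter.mp hv).2
            exact (not_le.mp this).le
        _ ≤ ∑ _v ∈ V, m / (16 * B * W) := by
            refine Finset.sum_le_sum_of_subset_of_nonneg (Finset.filter_subset _ _) fun _ _ _ => ?_
            positivity
        _ = m / (16 * B) := by
            rw [Finset.sum_const, nsmul_eq_mul, hV, Nat.cast_pow, ← hW]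
            field_simp
    have h4 : m / (8 * B) = m / (16 * B) + m / (16 * B) := by
      field_simp
      norm_num
    rw [← hS] at h1
    linarith
  refine ⟨S, Finset.filter_subset _ _, ?_, fun v hv => (Finset.mem_filter.mp hv).2⟩
  have h1 : ∑ v ∈ S, mass v ≤ (Ck * u ^ (k + 1) * m) * ∑ v ∈ S, N v := by
    rw [Finset.mul_sum]
    refine Finset.sum_le_sum fun v hv => ?_
    rw [mul_comm (Ck * u ^ (k + 1) * m)]
    exact hle v (Finset.mem_of_mem_filter v hv)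
  have h2 : (∑ v ∈ S, N v) ^ 2 ≤ S.card * ∑ v ∈ V, N v ^ 2 := by
    have h3 := sq_sum_le_card_mul_sum_sq (s := S) (f := fun v => N v)
    refine h3.trans (mul_le_mul_of_nonneg_left ?_ (Nat.cast_nonneg _))
    exact Finset.sum_le_sum_of_subset_of_nonneg (Finset.filter_subset _ _)
      fun _ _ _ => by positivity
  set E : ℝ := ∑ v ∈ V, N v ^ 2 with hE
  have hE0 : 0 ≤ E := Finset.sum_nonneg fun _ _ => by positivity
  have h5 : (m / (16 * B)) ^ 2 ≤ (Ck * u ^ (k + 1) * m) ^ 2 * (S.card * E) := by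
    calc (m / (16 * B)) ^ 2 ≤ ((Ck * u ^ (k + 1) * m) * ∑ v ∈ S, N v) ^ 2 :=
          pow_le_pow_left₀ (by positivity) (hSsum.trans h1) 2
      _ = (Ck * u ^ (k + 1) * m) ^ 2 * (∑ v ∈ S, N v) ^ 2 := by ring
      _ ≤ _ := mul_le_mul_of_nonneg_left h2 (by positivity)
  have h6 : m ^ 2 ≤ m ^ 2 * ((16 * B * Ck) ^ 2 * u ^ (2 * (k + 1)) * (S.card * E)) := by
    have h7 : (m / (16 * B)) ^ 2 * (16 * B) ^ 2 = m ^ 2 := by field_simp
    have h8 := mul_le_mul_of_nonneg_right h5 (by positivity : (0 : ℝ) ≤ (16 * B) ^ 2)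
    rw [h7] at h8
    refine h8.trans (le_of_eq ?_)
    rw [show 2 * (k + 1) = (k + 1) * 2 by ring, pow_mul]
    ring
  have h9 : 1 ≤ (16 * B * Ck) ^ 2 * u ^ (2 * (k + 1)) * (S.card * E) := by
    have hm2 : 0 < m ^ 2 := by positivity
    by_contra hcon
    push Not at hcon
    have := mul_lt_mul_of_pos_left hcon hm2
    linarith
  have h10 : W ≤ (16 * B * Ck) ^ 2 * C4 * S.card := by
    calc W = W * 1 := by ring
      _ ≤ W * ((16 * B * Ck) ^ 2 * u ^ (2 * (k + 1)) * (S.card * E)) :=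
          mul_le_mul_of_nonneg_left h9 hHR.le
      _ = (16 * B * Ck) ^ 2 * S.card * (E * W * u ^ (2 * (k + 1))) := by ring
      _ ≤ (16 * B * Ck) ^ 2 * S.card * C4 := mul_le_mul_of_nonneg_left hen (by positivity)
      _ = (16 * B * Ck) ^ 2 * C4 * S.card := by ring
  rw [one_div, inv_mul_le_iff₀ (by positivity)]
  exact h10

theorem A4_sum_biUnion_le {ι : Type*} [DecidableEq ι] (s : Finset ι) (f : ι → Finset ℕ)
    (g : ℕ → ℝ) (hg : ∀ t, 0 ≤ g t) :
    ∑ t ∈ s.biUnion f, g t ≤ ∑ h ∈ s, ∑ t ∈ f h, g t := by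
  induction s using Finset.induction_on with
  | empty => simp
  | insert a s ha ih =>
    rw [Finset.biUnion_insert, Finset.sum_insert ha]
    have h1 := Finset.sum_union_inter (s₁ := f a) (s₂ := s.biUnion f) (f := g)
    have h2 : 0 ≤ ∑ t ∈ f a ∩ s.biUnion f, g t := Finset.sum_nonneg fun t _ => hg t
    linarith

open Classical in
/-- Every `t` with at least `k + 1` primes satisfies `GK R a M v t` for some `v ∈ box k H`
(`exists_GK`), so `∑_v mass v ≥ m/(8B)` with `mass v = ∑_{t, GK v t} g t` (`A4_mass`), and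
`mass v ≤ ∑_{x : all x + pos v i ∈ R} ∑_{all prime} g ≤ NR R v · Ck u^(k+1) m` (`hK`). `A4_cs` with
`V = box k H`, `N v = NR R v`, `sum_NR_sq_le`; `mass v ≤ E0 #{t : GK v t}`. -/
theorem a4 (k : ℕ) (R : Finset ℕ) (a M T H : ℕ) (g : ℕ → ℝ) (hg : ∀ t, 0 ≤ g t)
    (hRH : ∀ h ∈ R, 1 ≤ h ∧ h ≤ H) (hH : 0 < H)
    (m E0 cL Cu Ck u P B C4 : ℝ) (hm : 0 < m) (hu : 0 ≤ u) (hCu : 0 < Cu) (hCk : 0 < Ck)
    (hP : 0 ≤ P) (hB0 : 0 < B)
    (hG1 : m / 4 ≤ ∑ t ∈ Icc 1 T, g t) (hG2 : ∑ t ∈ Icc 1 T, g t ≤ 2 * m)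
    (hA : ∀ h ∈ R, cL * u * m ≤ ∑ t ∈ (Icc 1 T).filter (fun t => (a + h + M * t).Prime), g t)
    (hB : ∀ h ∈ R, ∑ t ∈ (Icc 1 T).filter (fun t => (a + h + M * t).Prime), g t ≤ Cu * u * m)
    (hC : ∀ h ∈ R, ∀ h' ∈ R, h ≠ h' → ∑ t ∈ (Icc 1 T).filter (fun t =>
      (a + h + M * t).Prime ∧ (a + h' + M * t).Prime), g t ≤ Cu * u ^ 2 * m)
    (hK : ∀ A : Finset ℕ, A ⊆ R → A.card = k + 1 → ∑ t ∈ (Icc 1 T).filter (fun t =>
      ∀ h ∈ A, (a + h + M * t).Prime), g t ≤ Ck * u ^ (k + 1) * m)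
    (hR1 : 4 * ((k : ℝ) + 1) ≤ R.card * (cL * u)) (hR2 : (R.card : ℝ) * u ≤ P * (k + 1))
    (hBP : 4 * Cu * (P + P ^ 2) ≤ B) (hC4 : 0 < C4)
    (hen : ((R.card : ℝ) ^ (k + 1) + 2 * eK (k + 1) R H) * (H : ℝ) ^ k * u ^ (2 * (k + 1)) ≤ C4)
    (hE : ∀ t, g t ≤ E0) :
    ∃ S : Finset (Fin k → ℕ), S ⊆ box k H ∧
      1 / ((16 * B * Ck) ^ 2 * C4) * (H : ℝ) ^ k ≤ (S.card : ℝ) ∧
      ∀ v ∈ S, m ≤ 16 * B * (H : ℝ) ^ k *
        (E0 * (((Icc 1 T).filter (fun t => GK R a M v t)).card : ℝ)) := by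
  have hHR : (0 : ℝ) < (H : ℝ) ^ k := by positivity
  obtain ⟨mass, hmass⟩ : ∃ mass : (Fin k → ℕ) → ℝ,
      mass = fun v => ∑ t ∈ (Icc 1 T).filter (fun t => GK R a M v t), g t := ⟨_, rfl⟩
  have hmass0 : ∀ v, 0 ≤ mass v := by
    intro v
    rw [hmass]
    exact Finset.sum_nonneg fun t _ => hg t
  have hcard : (box k H).card = H ^ k := by
    unfold box
    rw [Fintype.card_piFinset]
    simp
  have hsum : m / (8 * B) ≤ ∑ v ∈ box k H, mass v := by
    refine (A4_mass k R a M T g hg m cL Cu u P B hm hu hCu hP hB0 hG1 hG2 hA hB hC hR1 hR2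
      hBP).trans ?_
    have h1 : (Icc 1 T).filter (fun t =>
        k + 1 ≤ (R.filter (fun z => (a + z + M * t).Prime)).card) ⊆
        (box k H).biUnion (fun v => (Icc 1 T).filter (fun t => GK R a M v t)) := by
      intro t ht
      rw [Finset.mem_filter] at ht
      obtain ⟨v, hv, hGK⟩ := exists_GK k R a M H t hRH ht.2
      rw [Finset.mem_biUnion]
      exact ⟨v, hv, Finset.mem_filter.mpr ⟨ht.1, hGK⟩⟩
    refine (Finset.sum_le_sum_of_subset_of_nonneg h1 fun t _ _ => hg t).trans ?_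
    rw [hmass]
    exact A4_sum_biUnion_le _ _ _ hg
  have hle : ∀ v ∈ box k H, mass v ≤ (NR R v : ℝ) * (Ck * u ^ (k + 1) * m) := by
    intro v hv
    have hv1 : ∀ i, 1 ≤ v i := by
      intro i
      unfold box at hv
      exact (Finset.mem_Icc.1 (Fintype.mem_piFinset.1 hv i)).1
    have hpm := pos_strictMono v hv1
    have h1 : (Icc 1 T).filter (fun t => GK R a M v t) ⊆
        (R.filter (fun x => ∀ i : Fin (k + 1), x + pos v i ∈ R)).biUnion
          (fun x => (Icc 1 T).filter (fun t =>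
            ∀ h ∈ (univ : Finset (Fin (k + 1))).image (fun i => x + pos v i),
              (a + h + M * t).Prime)) := by
      intro t ht
      rw [Finset.mem_filter] at ht
      obtain ⟨ht1, x, hx, -⟩ := ht
      rw [Finset.mem_biUnion]
      refine ⟨x, Finset.mem_filter.mpr ⟨?_, fun i => (hx i).1⟩,
        Finset.mem_filter.mpr ⟨ht1, fun h hh => ?_⟩⟩
      · have h2 := (hx 0).1
        rwa [pos_zero, Nat.add_zero] at h2
      · obtain ⟨i, -, rfl⟩ := Finset.mem_image.1 hh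
        exact (hx i).2
    rw [hmass]
    refine (Finset.sum_le_sum_of_subset_of_nonneg h1 fun t _ _ => hg t).trans ?_
    refine (A4_sum_biUnion_le _ _ _ hg).trans ?_
    have h2 : ∀ x ∈ R.filter (fun x => ∀ i : Fin (k + 1), x + pos v i ∈ R),
        ∑ t ∈ (Icc 1 T).filter (fun t =>
            ∀ h ∈ (univ : Finset (Fin (k + 1))).image (fun i => x + pos v i),
              (a + h + M * t).Prime), g t ≤ Ck * u ^ (k + 1) * m := by
      intro x hx
      rw [Finset.mem_filter] at hx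
      refine hK _ ?_ ?_
      · intro h hh
        obtain ⟨i, -, rfl⟩ := Finset.mem_image.1 hh
        exact hx.2 i
      · rw [Finset.card_image_of_injective, Finset.card_univ, Fintype.card_fin]
        intro i j hij
        exact hpm.injective (Nat.add_left_cancel hij)
    refine (Finset.sum_le_sum h2).trans ?_
    rw [Finset.sum_const, nsmul_eq_mul]
    rfl
  have hen' : (∑ v ∈ box k H, (NR R v : ℝ) ^ 2) * (H : ℝ) ^ k * u ^ (2 * (k + 1)) ≤ C4 := by
    refine le_trans ?_ hen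
    have h1 : (∑ v ∈ box k H, (NR R v : ℝ) ^ 2) ≤
        (R.card : ℝ) ^ (k + 1) + 2 * eK (k + 1) R H := by
      have h2 := sum_NR_sq_le k H R hRH
      exact_mod_cast h2
    exact mul_le_mul_of_nonneg_right (mul_le_mul_of_nonneg_right h1 hHR.le) (by positivity)
  obtain ⟨S, hS1, hS2, hS3⟩ := A4_cs k H (box k H) hcard mass (fun v => (NR R v : ℝ)) hH m B Ck u
    C4 hm hB0 hCk hu hC4 (fun v _ => hmass0 v) (fun v _ => Nat.cast_nonneg _) hsum hle hen'
  refine ⟨S, hS1, hS2, fun v hv => ?_⟩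
  have h1 := hS3 v hv
  have h2 : mass v ≤ E0 * (((Icc 1 T).filter (fun t => GK R a M v t)).card : ℝ) := by
    rw [hmass]
    have h3 := Finset.sum_le_card_nsmul ((Icc 1 T).filter (fun t => GK R a M v t)) g E0
      (fun t _ => hE t)
    rw [nsmul_eq_mul, mul_comm] at h3
    exact h3
  rw [div_le_iff₀ (by positivity)] at h1
  calc m ≤ mass v * (16 * B * (H : ℝ) ^ k) := h1
    _ ≤ (E0 * (((Icc 1 T).filter (fun t => GK R a M v t)).card : ℝ)) * (16 * B * (H : ℝ) ^ k) :=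
        mul_le_mul_of_nonneg_right h2 (by positivity)
    _ = _ := by ring

end Pool.Agent.Lib.H77V
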