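import Pool.Agent.Lib.H92V.Defs

/-!
# H77V: definitions (see `PROOF.md`)
-/

open Finset
open Pool.Agent.Lib.H92V (rp)

namespace Pool.Agent.Lib.H77V

noncomputable section

/-- Number of the `(a, b) ∈ A × B` with `b - a = τ`. -/
def rz (A B : Finset ℕ) (τ : ℤ) : ℕ :=
  ((A ×ˢ B).filter (fun z => (z.2 : ℤ) - z.1 = τ)).card

/-- `∑_{|τ| ≤ N} rz A B τ ^ K`. -/
def mz (K N : ℕ) (A B : Finset ℕ) : ℕ := ∑ τ ∈ Icc (-(N : ℤ)) N, rz A B τ ^ K

/-- `∑_{1 ≤ h ≤ H} rp A h ^ K`. -/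
def eK (K : ℕ) (A : Finset ℕ) (H : ℕ) : ℕ := ∑ h ∈ Icc 1 H, rp A h ^ K

/-- The `x ∈ A` with `x + h ∈ A`. -/
def sh (A : Finset ℕ) (h : ℕ) : Finset ℕ := A.filter (fun x => x + h ∈ A)

/-- The `K`-tuples of elements of `A` such that any two of them (at different places) are different
and do not differ by `h`. -/
def sep (K : ℕ) (A : Finset ℕ) (h : ℕ) : Finset (Fin K → ℕ) :=
  (Fintype.piFinset (fun _ : Fin K => A)).filter
    (fun x => ∀ i j, i ≠ j → x i ≠ x j ∧ x i ≠ x j + h)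

/-- `v 0 + ... + v (i - 1)`. -/
def pos {k : ℕ} (v : Fin k → ℕ) (i : Fin (k + 1)) : ℕ :=
  ∑ j ∈ univ.filter (fun j : Fin k => (j : ℕ) < i), v j

/-- The vectors with all coordinates in `[1, H]`. -/
def box (k H : ℕ) : Finset (Fin k → ℕ) := Fintype.piFinset (fun _ : Fin k => Icc 1 H)

/-- Number of the `x` such that all `x + pos v i` are in `R`. -/
def NR {k : ℕ} (R : Finset ℕ) (v : Fin k → ℕ) : ℕ :=
  (R.filter (fun x => ∀ i : Fin (k + 1), x + pos v i ∈ R)).card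

/-- There is `x` such that all `x + pos v i` are in `R`, all numbers `a + (x + pos v i) + M t` are primes,
and no other `a + z + M t` with `z ∈ R`, `x < z < x + pos v k`, is prime. -/
def GK {k : ℕ} (R : Finset ℕ) (a M : ℕ) (v : Fin k → ℕ) (t : ℕ) : Prop :=
  ∃ x, (∀ i : Fin (k + 1), x + pos v i ∈ R ∧ (a + (x + pos v i) + M * t).Prime) ∧
    ∀ z ∈ R, x < z → z < x + pos v (Fin.last k) → (a + z + M * t).Prime →
      ∃ i : Fin (k + 1), z = x + pos v i

end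

end Pool.Agent.Lib.H77V
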