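import Pool.Agent.Lib.H92V.V8
import Pool.Agent.Lib.H77V.Defs

/-!
# Chunk A5: numbers
-/

open Finset Real
open Pool.Agent.Lib.H5C
open Pool.Agent.Lib.H56G

namespace Pool.Agent.Lib.H77V

/-- As `H92V.v8_fin` (copy its proof): `N ≤ X^(δ/8)`, `4^(δ log X) ≤ X^(2δ)`, `144 B ≤ X^δ`, total
exponent `(6 + k) δ/8 + 3 δ + 1 - ε ≤ 1`. -/
theorem a5_fin (k : ℕ) (δ ε B : ℝ) (hδ : 0 < δ) (hε : (k + 4) * δ ≤ ε) (hB : 0 < B) :
    ∃ X₀ : ℕ, ∀ X : ℕ, X₀ ≤ X →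
      144 * B * (NX δ X : ℝ) ^ (6 + k) * (4 : ℝ) ^ ⌊δ * log X⌋₊ * (X : ℝ) ^ (1 - ε) ≤ 60 * X := by
  have T0 : Filter.Tendsto (fun n : ℕ => (n : ℝ)) Filter.atTop Filter.atTop :=
    tendsto_natCast_atTop_atTop
  have E1 := T0.eventually_ge_atTop 1
  have E2 := ((tendsto_rpow_atTop hδ).comp T0).eventually_ge_atTop (144 * B)
  obtain ⟨X₀, hX₀⟩ := Filter.eventually_atTop.mp (E1.and E2)
  refine ⟨X₀, fun X hX => ?_⟩
  obtain ⟨h1, h2⟩ := hX₀ X hX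
  simp only [Function.comp_apply] at h2
  have hX0 : (0 : ℝ) < X := by linarith
  have hL : 0 ≤ log (X : ℝ) := log_nonneg h1
  have hk0 : (0 : ℝ) ≤ k := Nat.cast_nonneg k
  have hN : (NX δ X : ℝ) ≤ (X : ℝ) ^ (δ / 8) := Nat.floor_le (by positivity)
  have hN7 : (NX δ X : ℝ) ^ (6 + k) ≤ (X : ℝ) ^ ((6 + k) * (δ / 8)) := by
    calc (NX δ X : ℝ) ^ (6 + k) ≤ ((X : ℝ) ^ (δ / 8)) ^ (6 + k) := by gcongr
      _ = (X : ℝ) ^ ((6 + k) * (δ / 8)) := by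
        rw [← rpow_natCast, ← rpow_mul hX0.le]
        congr 1
        push_cast
        ring
  have h4 : (4 : ℝ) ^ ⌊δ * log X⌋₊ ≤ (X : ℝ) ^ (2 * δ) := by
    have hy : (⌊δ * log X⌋₊ : ℝ) ≤ δ * log X := Nat.floor_le (by positivity)
    have hl4 : log 4 ≤ 2 := by
      have : log (4 : ℝ) = 2 * log 2 := by
        rw [show (4 : ℝ) = 2 ^ 2 by norm_num, log_pow]
        push_cast
        ring
      rw [this]
      have := log_two_lt_d9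
      linarith
    have hl40 : 0 ≤ log (4 : ℝ) := log_nonneg (by norm_num)
    rw [← rpow_natCast, rpow_def_of_pos (by norm_num), rpow_def_of_pos hX0]
    apply exp_le_exp.mpr
    calc log 4 * (⌊δ * log X⌋₊ : ℝ) ≤ 2 * (δ * log X) := by gcongr
      _ = log X * (2 * δ) := by ring
  have h5 : (X : ℝ) ^ (1 - ε) ≤ (X : ℝ) ^ (1 - (k + 4) * δ) :=
    rpow_le_rpow_of_exponent_le h1 (by linarith)
  calc 144 * B * (NX δ X : ℝ) ^ (6 + k) * (4 : ℝ) ^ ⌊δ * log X⌋₊ * (X : ℝ) ^ (1 - ε)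
      ≤ 144 * B * (X : ℝ) ^ ((6 + k) * (δ / 8)) * (X : ℝ) ^ (2 * δ) *
          (X : ℝ) ^ (1 - (k + 4) * δ) := by
        gcongr
    _ ≤ (X : ℝ) ^ δ * (X : ℝ) ^ ((6 + k) * (δ / 8)) * (X : ℝ) ^ (2 * δ) *
          (X : ℝ) ^ (1 - (k + 4) * δ) := by
        gcongr
    _ = (X : ℝ) ^ (δ + (6 + k) * (δ / 8) + 2 * δ + (1 - (k + 4) * δ)) := by
        rw [rpow_add hX0, rpow_add hX0, rpow_add hX0]
    _ ≤ (X : ℝ) ^ (1 : ℝ) := by
        refine rpow_le_rpow_of_exponent_le h1 ?_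
        have h6 : 0 ≤ k * δ := mul_nonneg hk0 hδ.le
        nlinarith
    _ ≤ 60 * X := by rw [rpow_one]; linarith

/-- the arithmetic of the constants (as `H92V.v8_const`; `u = C3 (k + 1)/L`) -/
theorem a5_const (k : ℕ) (δ κ c1 C1 cL C3 P C4 L y r e H : ℝ) (hδ : 0 < δ) (hκ : 0 < κ)
    (hc1 : 0 < c1) (hC1 : 0 < C1) (hcL : 0 < cL) (hC3 : 0 < C3)
    (hC3' : 8 ≤ c1 * κ * δ * cL * C3) (hP : P = C1 * κ * δ * C3)
    (hC4 : C4 = C1 * (κ * δ * (C3 * (k + 1))) ^ (2 * (k + 1)))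
    (hL : 0 < L) (hy1 : δ / 2 * L ≤ y) (hy2 : y ≤ δ * L)
    (hr1 : c1 * (κ * y) ≤ r) (hr2 : r ≤ C1 * (κ * y)) (he0 : 0 ≤ e) (hH : 0 ≤ H)
    (he : e * H ^ k ≤ C1 * (κ * y) ^ (2 * (k + 1))) :
    4 * ((k : ℝ) + 1) ≤ r * (cL * (C3 * (k + 1) / L)) ∧
    r * (C3 * (k + 1) / L) ≤ P * (k + 1) ∧
    e * H ^ k * (C3 * (k + 1) / L) ^ (2 * (k + 1)) ≤ C4 := by
  have hy0 : 0 < y := lt_of_lt_of_le (by positivity) hy1
  have hk0 : (0 : ℝ) ≤ k := Nat.cast_nonneg k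
  have hk1 : (0 : ℝ) < k + 1 := by linarith
  refine ⟨?_, ?_, ?_⟩
  · have h1 : c1 * (κ * (δ / 2 * L)) ≤ r := le_trans (by gcongr) hr1
    have h2 : c1 * (κ * (δ / 2 * L)) * (cL * (C3 * (k + 1) / L)) ≤
        r * (cL * (C3 * (k + 1) / L)) := mul_le_mul_of_nonneg_right h1 (by positivity)
    have h3 : c1 * (κ * (δ / 2 * L)) * (cL * (C3 * (k + 1) / L)) =
        c1 * κ * δ * cL * C3 * ((k + 1) / 2) := by
      field_simp
    have h4 : 8 * (((k : ℝ) + 1) / 2) ≤ c1 * κ * δ * cL * C3 * ((k + 1) / 2) :=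
      mul_le_mul_of_nonneg_right hC3' (by positivity)
    linarith
  · have h1 : r ≤ C1 * (κ * (δ * L)) := hr2.trans (by gcongr)
    have h2 : r * (C3 * (k + 1) / L) ≤ C1 * (κ * (δ * L)) * (C3 * (k + 1) / L) :=
      mul_le_mul_of_nonneg_right h1 (by positivity)
    have h3 : C1 * (κ * (δ * L)) * (C3 * (k + 1) / L) = P * (k + 1) := by
      rw [hP]
      field_simp
    linarith
  · have h1 : e * H ^ k ≤ C1 * (κ * (δ * L)) ^ (2 * (k + 1)) := he.trans (by gcongr)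
    calc e * H ^ k * (C3 * (k + 1) / L) ^ (2 * (k + 1))
        ≤ C1 * (κ * (δ * L)) ^ (2 * (k + 1)) * (C3 * (k + 1) / L) ^ (2 * (k + 1)) := by gcongr
      _ = C1 * ((κ * (δ * L)) * (C3 * (k + 1) / L)) ^ (2 * (k + 1)) := by
        rw [mul_pow (κ * (δ * L)) (C3 * (k + 1) / L) (2 * (k + 1)), mul_assoc]
      _ = C4 := by
        rw [hC4]
        congr 2
        field_simp

end Pool.Agent.Lib.H77V
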