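import Pool.Agent.Lib.H77V.E2

/-!
# Chunk E3: triangle inequality for the `K`-th moments
-/

open Finset

namespace Pool.Agent.Lib.H77V

/-- Weighted power mean: with `w i > 0`, `W = ∑ w i`,
`(∑ r i)^K ≤ W^(K-1) ∑ r i ^ K / w i ^ (K-1)` (here multiplied out: `W^(-1) w i` are weights with sum
`1`, and `r i = (W^(-1) w i) (W r i / w i)`; `inner_le_nnorm_mul_nnorm` or
`Real.pow_arith_mean_le_arith_mean_pow`). -/
theorem pow_sum_le {ι : Type} (s : Finset ι) (w r : ι → ℝ) (hw : ∀ i ∈ s, 0 < w i)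
    (hr : ∀ i ∈ s, 0 ≤ r i) (k : ℕ) :
    (∑ i ∈ s, r i) ^ (k + 1) ≤ (∑ i ∈ s, w i) ^ k * ∑ i ∈ s, r i ^ (k + 1) / w i ^ k := by
  rcases s.eq_empty_or_nonempty with hs | hs
  · subst hs
    simp
  have hW : 0 < ∑ i ∈ s, w i := Finset.sum_pos hw hs
  obtain ⟨W, hWd⟩ : ∃ W, W = ∑ i ∈ s, w i := ⟨_, rfl⟩
  rw [← hWd] at hW ⊢
  have h1 := Real.pow_arith_mean_le_arith_mean_pow s (fun i => w i / W) (fun i => W * r i / w i)
    (fun i hi => div_nonneg (hw i hi).le hW.le) (by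
      rw [← Finset.sum_div, ← hWd, div_self hW.ne']) (fun i hi =>
      div_nonneg (mul_nonneg hW.le (hr i hi)) (hw i hi).le) (k + 1)
  have h2 : ∑ i ∈ s, w i / W * (W * r i / w i) = ∑ i ∈ s, r i := by
    refine Finset.sum_congr rfl fun i hi => ?_
    have h3 := (hw i hi).ne'
    field_simp
  rw [h2] at h1
  refine h1.trans (le_of_eq ?_)
  rw [Finset.mul_sum]
  refine Finset.sum_congr rfl fun i hi => ?_
  have h3 := (hw i hi).ne'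
  rw [div_pow, mul_pow, pow_succ W k, pow_succ (w i) k]
  field_simp

/-- Every pair of elements of `A ⊆ ⋃ R i` with difference `τ` is a pair in some `R i × R j`. -/
theorem rz_biUnion {ι : Type} [DecidableEq ι] (s : Finset ι) (R : ι → Finset ℕ) (A : Finset ℕ)
    (hA : A ⊆ s.biUnion R) (τ : ℤ) : rz A A τ ≤ ∑ p ∈ s ×ˢ s, rz (R p.1) (R p.2) τ := by
  unfold rz
  refine (card_le_card ?_).trans (card_biUnion_le (s := s ×ˢ s) (t := fun p =>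
    ((R p.1) ×ˢ (R p.2)).filter (fun z => (z.2 : ℤ) - z.1 = τ)))
  intro z hz
  rw [mem_filter, mem_product] at hz
  obtain ⟨i, hi, h1⟩ := mem_biUnion.1 (hA hz.1.1)
  obtain ⟨j, hj, h2⟩ := mem_biUnion.1 (hA hz.1.2)
  rw [mem_biUnion]
  refine ⟨(i, j), mem_product.2 ⟨hi, hj⟩, ?_⟩
  rw [mem_filter, mem_product]
  exact ⟨⟨h1, h2⟩, hz.2⟩

/-- `rz_biUnion`, `pow_sum_le` with the weights `w (i, j) = c i * c j`, `∑ w = C²`, `C = ∑ c i`;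
`∑_τ rz (R i) (R j) τ ^ (k+1) = mz (R i) (R j) ≤ (mz (R i) (R i) mz (R j) (R j))^(1/2) ≤ (c i c j)^(k+1)`
(`mz_cs`); so `mz A A ≤ (C²)^k ∑_{i, j} (c i c j)^(k+1)/(c i c j)^k = (C²)^k C²`. -/
theorem mz_biUnion {ι : Type} [DecidableEq ι] (s : Finset ι) (R : ι → Finset ℕ) (c : ι → ℝ)
    (k N : ℕ) (hR : ∀ i ∈ s, ∀ x ∈ R i, x ≤ N) (hc : ∀ i ∈ s, 0 < c i)
    (h : ∀ i ∈ s, (mz (k + 1) N (R i) (R i) : ℝ) ≤ c i ^ (2 * (k + 1))) (A : Finset ℕ)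
    (hA : A ⊆ s.biUnion R) : (mz (k + 1) N A A : ℝ) ≤ (∑ i ∈ s, c i) ^ (2 * (k + 1)) := by
  have hcs : ∀ p ∈ s ×ˢ s, (mz (k + 1) N (R p.1) (R p.2) : ℝ) ≤ (c p.1 * c p.2) ^ (k + 1) := by
    intro p hp
    rw [mem_product] at hp
    have h1 := mz_cs k N (R p.1) (R p.2) (hR _ hp.1) (hR _ hp.2)
    have h2 : (mz (k + 1) N (R p.1) (R p.2) : ℝ) ^ 2 ≤
        (mz (k + 1) N (R p.1) (R p.1) : ℝ) * (mz (k + 1) N (R p.2) (R p.2) : ℝ) := by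
      exact_mod_cast h1
    have h3 : (mz (k + 1) N (R p.1) (R p.2) : ℝ) ^ 2 ≤ ((c p.1 * c p.2) ^ (k + 1)) ^ 2 := by
      refine h2.trans ?_
      refine (mul_le_mul (h _ hp.1) (h _ hp.2) (Nat.cast_nonneg _) ?_).trans (le_of_eq ?_)
      · exact pow_nonneg (hc _ hp.1).le _
      · rw [← mul_pow, ← pow_mul, mul_comm 2]
    exact le_of_pow_le_pow_left₀ (by norm_num) (pow_nonneg (mul_nonneg (hc _ hp.1).le (hc _ hp.2).le) _) h3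
  have hw : ∀ p ∈ s ×ˢ s, 0 < c p.1 * c p.2 := by
    intro p hp
    rw [mem_product] at hp
    exact mul_pos (hc _ hp.1) (hc _ hp.2)
  have hW : ∑ p ∈ s ×ˢ s, c p.1 * c p.2 = (∑ i ∈ s, c i) ^ 2 := by
    rw [sum_product, ← sum_mul_sum, sq]
  have hterm : ∀ τ : ℤ, ((rz A A τ : ℕ) : ℝ) ^ (k + 1) ≤ ((∑ i ∈ s, c i) ^ 2) ^ k *
      ∑ p ∈ s ×ˢ s, ((rz (R p.1) (R p.2) τ : ℕ) : ℝ) ^ (k + 1) / (c p.1 * c p.2) ^ k := by
    intro τ
    have h1 : ((rz A A τ : ℕ) : ℝ) ≤ ∑ p ∈ s ×ˢ s, ((rz (R p.1) (R p.2) τ : ℕ) : ℝ) := by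
      exact_mod_cast rz_biUnion s R A hA τ
    have h2 := pow_sum_le (s ×ˢ s) (fun p => c p.1 * c p.2)
      (fun p => ((rz (R p.1) (R p.2) τ : ℕ) : ℝ)) hw (fun p _ => Nat.cast_nonneg _) k
    rw [hW] at h2
    exact (pow_le_pow_left₀ (Nat.cast_nonneg _) h1 _).trans h2
  have h1 : (mz (k + 1) N A A : ℝ) ≤ ((∑ i ∈ s, c i) ^ 2) ^ k *
      ∑ p ∈ s ×ˢ s, (mz (k + 1) N (R p.1) (R p.2) : ℝ) / (c p.1 * c p.2) ^ k := by
    unfold mz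
    push_cast
    refine (Finset.sum_le_sum fun τ _ => hterm τ).trans (le_of_eq ?_)
    rw [← Finset.mul_sum, Finset.sum_comm]
    congr 1
    refine Finset.sum_congr rfl fun p _ => ?_
    rw [Finset.sum_div]
  refine h1.trans ?_
  have h2 : ∑ p ∈ s ×ˢ s, (mz (k + 1) N (R p.1) (R p.2) : ℝ) / (c p.1 * c p.2) ^ k ≤
      (∑ i ∈ s, c i) ^ 2 := by
    rw [← hW]
    refine Finset.sum_le_sum fun p hp => ?_
    rw [div_le_iff₀ (pow_pos (hw p hp) _)]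
    refine (hcs p hp).trans (le_of_eq ?_)
    rw [pow_succ, mul_comm]
  have h3 : 0 ≤ ((∑ i ∈ s, c i) ^ 2) ^ k := by positivity
  refine (mul_le_mul_of_nonneg_left h2 h3).trans (le_of_eq ?_)
  rw [← pow_succ, ← pow_mul]

end Pool.Agent.Lib.H77V
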