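import Pool.Agent.Lib.H77V.E1

/-!
# Chunk E1A: `mz` and `eK`
-/

open Finset
open Pool.Agent.Lib.H92V (rp)

namespace Pool.Agent.Lib.H77V

/-- A sum over a symmetric interval. -/
private theorem E1A_sum (f : ℤ → ℕ) (H : ℕ) :
    ∑ τ ∈ Icc (-(H : ℤ)) H, f τ = f 0 + ∑ h ∈ Icc 1 H, (f (h : ℤ) + f (-(h : ℤ))) := by
  induction H with
  | zero => simp
  | succ H ih =>
    have h1 : Icc (-((H + 1 : ℕ) : ℤ)) ((H + 1 : ℕ) : ℤ) =
        insert ((H + 1 : ℕ) : ℤ) (insert (-((H + 1 : ℕ) : ℤ)) (Icc (-(H : ℤ)) H)) := by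
      ext τ
      simp only [mem_Icc, mem_insert]
      push_cast
      omega
    rw [h1, sum_insert, sum_insert, ih, Finset.sum_Icc_succ_top (by omega)]
    · ring
    · simp only [mem_Icc]
      push_cast
      omega
    · simp only [mem_Icc, mem_insert]
      push_cast
      omega

/-- Only the positive differences (`rz_nat`). -/
theorem eK_le_mz (K : ℕ) (A : Finset ℕ) (H : ℕ) : eK K A H ≤ mz K H A A := by
  unfold mz eK
  rw [E1A_sum]
  refine le_trans ?_ (Nat.le_add_left _ _)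
  refine sum_le_sum fun h _ => ?_
  rw [rz_nat]
  exact Nat.le_add_right _ _

/-- The differences `τ = 0` (`rp A 0 = |A|`), `τ > 0` and `τ < 0` (`rz_nat`, `rz_neg`). -/
theorem mz_le_eK (K : ℕ) (A : Finset ℕ) (H : ℕ) : mz K H A A ≤ A.card ^ K + 2 * eK K A H := by
  unfold mz eK
  rw [E1A_sum]
  refine Nat.add_le_add ?_ ?_
  · exact Nat.pow_le_pow_left (rz_le A A 0) K
  · rw [mul_sum]
    refine sum_le_sum fun h _ => ?_
    rw [rz_neg, rz_nat]
    omega

/-- The number of pairs of elements of `A` at positive distance. -/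
theorem sum_rp_le' (A : Finset ℕ) (H : ℕ) : ∑ h ∈ Icc 1 H, rp A h ≤ A.card ^ 2 := by
  have h1 := sum_rz_le A A ((Icc 1 H).map ⟨fun h : ℕ => (h : ℤ), Nat.cast_injective⟩)
  rw [sum_map] at h1
  rw [sq]
  refine le_trans (le_of_eq ?_) h1
  exact sum_congr rfl fun h _ => (rz_nat A h).symm

end Pool.Agent.Lib.H77V
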