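import Pool.Agent.Lib.H92V.V2
import Pool.Agent.Lib.H77V.E1A

/-!
# Chunk E4: `K`-th moments of the primes
-/

open Finset Real

namespace Pool.Agent.Lib.H77V

/-- As `H92V.en_primes` (copy its proof). `mz_le_eK` with `H = Y`, `v2_rp`:
`rp (primes ≤ Y) h ≤ 2·10^9 G h Y/(log Y)²`, and `∑_{h ≤ Y} (G h)^K ≤ 3 Y (500 log (2 K))^K`
(`Helper57.moment_le`); the diagonal is at most `Y^K ≤ Y^(K+1)/(log Y)^(2K)` as `(log Y)^(2K) ≤ Y` for
large `Y`. -/
theorem mz_primes (K : ℕ) (hK : 1 ≤ K) : ∃ C : ℝ, 0 < C ∧ ∃ Y₀ : ℕ, ∀ Y : ℕ, Y₀ ≤ Y →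
    (mz K Y ((Icc 1 Y).filter Nat.Prime) ((Icc 1 Y).filter Nat.Prime) : ℝ) ≤
      C * (Y : ℝ) ^ (K + 1) / (log Y) ^ (2 * K) := by
  obtain ⟨c, hc⟩ : ∃ c : ℝ, c = (500 * Real.log ((2 * K : ℕ) : ℝ)) ^ K := ⟨_, rfl⟩
  have hc0 : 0 ≤ c := by
    rw [hc]
    apply pow_nonneg
    apply mul_nonneg (by norm_num)
    apply Real.log_nonneg
    have : 1 ≤ 2 * K := by omega
    exact_mod_cast this
  obtain ⟨B, hB⟩ : ∃ B : ℝ, B = (2 * 10 ^ 9 : ℝ) ^ K := ⟨_, rfl⟩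
  have hB0 : 0 < B := by
    rw [hB]
    positivity
  obtain ⟨F, hF⟩ : ∃ F : ℝ, F = ((Nat.factorial (2 * K + 1) : ℕ) : ℝ) := ⟨_, rfl⟩
  have hF0 : 0 < F := by
    rw [hF]
    exact_mod_cast Nat.factorial_pos _
  refine ⟨1 + 6 * (B * c), by positivity, ⌈exp (7000 + F)⌉₊, fun Y hY => ?_⟩
  have hYe : exp (7000 + F) ≤ Y := (Nat.le_ceil _).trans (by exact_mod_cast hY)
  have hY0 : (0 : ℝ) < Y := (exp_pos _).trans_le hYe
  have hL7 : 7000 + F ≤ log (Y : ℝ) := by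
    rw [Real.le_log_iff_exp_le hY0]
    exact hYe
  obtain ⟨L, hL⟩ : ∃ L : ℝ, L = log (Y : ℝ) := ⟨_, rfl⟩
  rw [← hL] at hL7 ⊢
  have hL0 : 0 < L := by linarith
  -- the power of the logarithm
  have hL4 : L ^ (2 * K) ≤ Y := by
    have h1 := Real.pow_div_factorial_le_exp L hL0.le (2 * K + 1)
    have h2 : exp L = Y := by rw [hL, Real.exp_log hY0]
    rw [h2] at h1
    refine le_trans ?_ h1
    rw [← hF, le_div_iff₀ hF0, pow_succ]
    apply mul_le_mul_of_nonneg_left _ (by positivity)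
    linarith
  -- the moment
  have h1 := mz_le_eK K ((Icc 1 Y).filter Nat.Prime) Y
  have h2 : (mz K Y ((Icc 1 Y).filter Nat.Prime) ((Icc 1 Y).filter Nat.Prime) : ℝ) ≤
      (((Icc 1 Y).filter Nat.Prime).card : ℝ) ^ K +
        2 * (eK K ((Icc 1 Y).filter Nat.Prime) Y : ℝ) := by
    exact_mod_cast h1
  have h3 : (((Icc 1 Y).filter Nat.Prime).card : ℝ) ≤ Y := by
    have : ((Icc 1 Y).filter Nat.Prime).card ≤ Y := by
      refine (card_filter_le _ _).trans ?_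
      rw [Nat.card_Icc]
      omega
    exact_mod_cast this
  have h4 : (eK K ((Icc 1 Y).filter Nat.Prime) Y : ℝ) ≤
      3 * (B * c) * ((Y : ℝ) ^ (K + 1) / L ^ (2 * K)) := by
    unfold eK
    push_cast
    calc ∑ h ∈ Icc 1 Y, (H92V.rp ((Icc 1 Y).filter Nat.Prime) h : ℝ) ^ K
        ≤ ∑ h ∈ Icc 1 Y, (B * ((Y : ℝ) ^ K / L ^ (2 * K))) * Helper57.G h ^ K := by
          apply Finset.sum_le_sum
          intro h hh
          have h5 := H92V.v2_rp Y h (mem_Icc.1 hh).1 (by rw [← hL]; linarith)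
          rw [← hL] at h5
          calc (H92V.rp ((Icc 1 Y).filter Nat.Prime) h : ℝ) ^ K
              ≤ (2 * 10 ^ 9 * (Helper57.G h * (Y / L ^ 2))) ^ K :=
                pow_le_pow_left₀ (by positivity) h5 K
            _ = (B * ((Y : ℝ) ^ K / L ^ (2 * K))) * Helper57.G h ^ K := by
                rw [hB, pow_mul, ← div_pow, ← mul_pow, ← mul_pow]
                congr 1
                ring
      _ = (B * ((Y : ℝ) ^ K / L ^ (2 * K))) * ∑ h ∈ Icc 1 Y, Helper57.G h ^ K := by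
          rw [Finset.mul_sum]
      _ ≤ (B * ((Y : ℝ) ^ K / L ^ (2 * K))) * (3 * (Y * c)) := by
          apply mul_le_mul_of_nonneg_left _ (by positivity)
          rw [hc]
          exact Helper57.moment_le K Y hK
      _ = 3 * (B * c) * ((Y : ℝ) ^ (K + 1) / L ^ (2 * K)) := by ring
  have h5 : (Y : ℝ) ^ K ≤ (Y : ℝ) ^ (K + 1) / L ^ (2 * K) := by
    rw [le_div_iff₀ (by positivity), pow_succ]
    exact mul_le_mul_of_nonneg_left hL4 (by positivity)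
  calc (mz K Y ((Icc 1 Y).filter Nat.Prime) ((Icc 1 Y).filter Nat.Prime) : ℝ)
      ≤ (((Icc 1 Y).filter Nat.Prime).card : ℝ) ^ K +
        2 * (eK K ((Icc 1 Y).filter Nat.Prime) Y : ℝ) := h2
    _ ≤ (Y : ℝ) ^ (K + 1) / L ^ (2 * K) +
          2 * (3 * (B * c) * ((Y : ℝ) ^ (K + 1) / L ^ (2 * K))) := by
        have h7 := pow_le_pow_left₀ (by positivity) h3 K
        linarith
    _ = (1 + 6 * (B * c)) * (Y : ℝ) ^ (K + 1) / L ^ (2 * K) := by ring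

end Pool.Agent.Lib.H77V
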