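import Pool.Agent.Lib.H92V.V3
import Pool.Agent.Lib.H77V.E3
import Pool.Agent.Lib.H77V.E4

/-!
# Chunk E5: `K`-th moments of the candidates of the Erdős-Rankin sieve
-/

open Finset Real
open Pool.Agent.Lib.H5C
open Pool.Agent.Lib.H92V (v3R)

namespace Pool.Agent.Lib.H77V

/-- geometric series with ratio `3/4` -/
theorem E5_geom (n : ℕ) : ∑ b ∈ range n, (3 / 4 : ℝ) ^ b ≤ 4 := by
  rw [geom_sum_eq (by norm_num)]
  have h : (0 : ℝ) ≤ (3 / 4) ^ n := by positivity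
  have h2 : ((3 / 4 : ℝ) ^ n - 1) / (3 / 4 - 1) = 4 * (1 - (3 / 4) ^ n) := by
    rw [div_eq_iff (by norm_num)]
    ring
  rw [h2]
  linarith

/-- The class `b` (cf. `H92V.v3_class`): `p1^b q`, `q ≤ Y = H/p1^b` prime, `Y ≥ y`. By `mz_image_mul`
(`N' = Y`) and the hypothesis the moment is at most `C2 Y^(k+2)/(log Y)^(2(k+1))`, and
`Y ≤ H/2^b`, `log Y ≥ log y`, `(3/4)^(2 (k+1)) ≥ 2^(-(k+2))`. -/
theorem E5_class (k : ℕ) (C2 : ℝ) (hC2 : 0 < C2) (Y0 : ℕ) (hY : ∀ Y : ℕ, Y0 ≤ Y →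
    (mz (k + 1) Y ((Icc 1 Y).filter Nat.Prime) ((Icc 1 Y).filter Nat.Prime) : ℝ) ≤
      C2 * (Y : ℝ) ^ (k + 2) / (log Y) ^ (2 * (k + 1)))
    (H y p1 : ℕ) (hp1 : p1.Prime) (hy : Y0 ≤ y) (hl : 1 ≤ log (y : ℝ)) (b : ℕ) (R2 : Finset ℕ)
    (A : ℝ) (hA0 : 0 ≤ A)
    (hA : C2 * ((H : ℝ) ^ (k + 2) / (log y) ^ (2 * (k + 1))) ≤ A ^ (2 * (k + 1))) :
    (mz (k + 1) H (v3R H y p1 R2 (some b)) (v3R H y p1 R2 (some b)) : ℝ) ≤
      (A * (3 / 4) ^ b) ^ (2 * (k + 1)) := by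
  have hl0 : 0 < log (y : ℝ) := by linarith
  have hy1 : 1 < (y : ℝ) := by
    by_contra hcon
    push Not at hcon
    have := Real.log_nonpos (Nat.cast_nonneg y) hcon
    linarith
  have h34 : (0 : ℝ) ≤ (A * (3 / 4) ^ b) ^ (2 * (k + 1)) := by positivity
  unfold v3R
  simp only
  split_ifs with h
  · have hpb : 0 < p1 ^ b := pow_pos hp1.pos b
    have hyY : y ≤ H / p1 ^ b := by
      rw [Nat.le_div_iff_mul_le hpb, mul_comm]
      exact h
    have h0 := mz_image_mul (k + 1) H (H / p1 ^ b) (p1 ^ b) (Nat.succ_le_succ (Nat.zero_le k)) hpb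
      ((Icc 1 (H / p1 ^ b)).filter Nat.Prime) (fun x hx => by
        rw [Finset.mem_filter, Finset.mem_Icc] at hx
        exact hx.1.2)
    have h0' : (mz (k + 1) H (((Icc 1 (H / p1 ^ b)).filter Nat.Prime).image (fun q => p1 ^ b * q))
        (((Icc 1 (H / p1 ^ b)).filter Nat.Prime).image (fun q => p1 ^ b * q)) : ℝ) ≤
        (mz (k + 1) (H / p1 ^ b) ((Icc 1 (H / p1 ^ b)).filter Nat.Prime)
          ((Icc 1 (H / p1 ^ b)).filter Nat.Prime) : ℝ) := by exact_mod_cast h0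
    have h1 := hY (H / p1 ^ b) (hy.trans hyY)
    refine h0'.trans (h1.trans ?_)
    have hYy : (y : ℝ) ≤ ((H / p1 ^ b : ℕ) : ℝ) := by exact_mod_cast hyY
    have hlog : log (y : ℝ) ≤ log ((H / p1 ^ b : ℕ) : ℝ) := Real.log_le_log (by linarith) hYy
    have h2 : ((H / p1 ^ b : ℕ) : ℝ) ≤ (H : ℝ) / 2 ^ b := by
      refine Nat.cast_div_le.trans ?_
      have h3 : (2 : ℝ) ^ b ≤ ((p1 ^ b : ℕ) : ℝ) := by
        push_cast
        apply pow_le_pow_left₀ (by norm_num)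
        exact_mod_cast hp1.two_le
      exact div_le_div_of_nonneg_left (Nat.cast_nonneg _) (by positivity) h3
    have h4 : ((H / p1 ^ b : ℕ) : ℝ) ^ (k + 2) ≤ (H : ℝ) ^ (k + 2) / (2 ^ b) ^ (k + 2) := by
      rw [← div_pow]
      exact pow_le_pow_left₀ (Nat.cast_nonneg _) h2 (k + 2)
    have h5 : (H : ℝ) ^ (k + 2) / (2 ^ b) ^ (k + 2) ≤
        (H : ℝ) ^ (k + 2) * ((3 / 4) ^ b) ^ (2 * (k + 1)) := by
      rw [div_le_iff₀ (by positivity)]
      have h6 : (1 : ℝ) ≤ ((3 / 4) ^ b) ^ (2 * (k + 1)) * (2 ^ b) ^ (k + 2) := by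
        have h7 : (((3 / 4 : ℝ)) ^ b) ^ (2 * (k + 1)) * (2 ^ b) ^ (k + 2) =
            ((9 / 8) ^ (k + 1) * 2) ^ b := by
          have e1 : ((3 / 4 : ℝ) ^ b) ^ (2 * (k + 1)) = (((9 / 16 : ℝ)) ^ (k + 1)) ^ b := by
            rw [← pow_mul, ← pow_mul, show (9 / 16 : ℝ) = (3 / 4) ^ 2 by norm_num, ← pow_mul]
            congr 1
            ring
          have e2 : ((2 : ℝ) ^ b) ^ (k + 2) = ((2 : ℝ) ^ (k + 1) * 2) ^ b := by
            rw [← pow_succ, ← pow_mul, ← pow_mul, mul_comm]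
          rw [e1, e2, ← mul_pow, ← mul_assoc, ← mul_pow]
          norm_num
        rw [h7]
        apply one_le_pow₀
        have h8 : (1 : ℝ) ≤ (9 / 8) ^ (k + 1) := one_le_pow₀ (by norm_num)
        linarith
      calc (H : ℝ) ^ (k + 2) = (H : ℝ) ^ (k + 2) * 1 := by ring
        _ ≤ (H : ℝ) ^ (k + 2) * (((3 / 4) ^ b) ^ (2 * (k + 1)) * (2 ^ b) ^ (k + 2)) :=
            mul_le_mul_of_nonneg_left h6 (by positivity)
        _ = _ := by ring
    calc C2 * ((H / p1 ^ b : ℕ) : ℝ) ^ (k + 2) / (log ((H / p1 ^ b : ℕ) : ℝ)) ^ (2 * (k + 1))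
        ≤ C2 * ((H / p1 ^ b : ℕ) : ℝ) ^ (k + 2) / (log (y : ℝ)) ^ (2 * (k + 1)) := by
          apply div_le_div_of_nonneg_left (by positivity) (by positivity)
          exact pow_le_pow_left₀ hl0.le hlog (2 * (k + 1))
      _ ≤ C2 * ((H : ℝ) ^ (k + 2) * ((3 / 4) ^ b) ^ (2 * (k + 1))) /
            (log (y : ℝ)) ^ (2 * (k + 1)) := by
          apply div_le_div_of_nonneg_right _ (by positivity)
          exact mul_le_mul_of_nonneg_left (h4.trans h5) hC2.le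
      _ = (C2 * ((H : ℝ) ^ (k + 2) / (log y) ^ (2 * (k + 1)))) *
            ((3 / 4) ^ b) ^ (2 * (k + 1)) := by ring
      _ ≤ A ^ (2 * (k + 1)) * ((3 / 4) ^ b) ^ (2 * (k + 1)) :=
          mul_le_mul_of_nonneg_right hA (by positivity)
      _ = (A * (3 / 4) ^ b) ^ (2 * (k + 1)) := by rw [mul_pow]
  · have h0 : mz (k + 1) H (∅ : Finset ℕ) ∅ = 0 := by
      have := mz_le_card (k + 1) H (Nat.succ_le_succ (Nat.zero_le k)) (∅ : Finset ℕ)
      rw [card_empty, zero_pow (Nat.succ_ne_zero _)] at this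
      exact Nat.le_zero.1 this
    rw [h0, Nat.cast_zero]
    exact h34

/-- As `H92V.en_RE` (copy its proof): classes `b ≤ Nat.log 2 H` and `R2`, `mz_biUnion` with
`c b = A (3/4)^b`, `c R2 = A`, `A^(2(k+1)) = (C2 + 2^(k+2)) H^(k+2)/(log y)^(2(k+1))`;
`mz R2 ≤ |R2|^(k+2) ≤ (2 H/(log y)^4)^(k+2)` (`mz_le_card`). The sum of the `c` is at most `5 A`. -/
theorem mz_RE (k : ℕ) : ∃ C : ℝ, 0 < C ∧ ∀ κ : ℝ, 0 < κ → κ ≤ 1 → ∃ y₀ : ℕ, ∀ y : ℕ, y₀ ≤ y →
    ∀ (D : Finset ℕ) (p1 : ℕ), OKD y D p1 →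
      (mz (k + 1) (hE κ y) (RE κ y D p1) (RE κ y D p1) : ℝ) ≤
        C * (hE κ y : ℝ) ^ (k + 2) / (log y) ^ (2 * (k + 1)) := by
  classical
  obtain ⟨C2, hC2, Y0, hY⟩ := mz_primes (k + 1) (Nat.succ_le_succ (Nat.zero_le k))
  refine ⟨5 ^ (2 * (k + 1)) * (C2 + 2 ^ (k + 2)), by positivity, fun κ hκ hκ1 => ?_⟩
  obtain ⟨y1, hy1⟩ := er_sizes κ hκ hκ1
  obtain ⟨y2, hy2⟩ := re_cases κ hκ hκ1
  obtain ⟨y3, hy3⟩ := smooth_count κ hκ hκ1
  obtain ⟨y4, hy4⟩ := mult_count κ hκ hκ1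
  refine ⟨y1 + y2 + y3 + y4 + Y0, fun y hy D p1 hD => ?_⟩
  obtain ⟨hl1, -⟩ := hy1 y (by omega)
  have hcases := hy2 y (by omega) D p1 hD
  have hsm := hy3 y (by omega) p1 hD.1
  have hmu := hy4 y (by omega) D p1 hD
  have hl : 1 ≤ log (y : ℝ) := by linarith
  have hl0 : 0 < log (y : ℝ) := by linarith
  set H := hE κ y with hH
  set R2 : Finset ℕ := (Icc 1 H).filter (fun h => ∃ d ∈ D, d ∣ h) ∪
      (Icc 1 H).filter (fun h => ∀ p ∈ h.primeFactors, p ≤ zE y ∨ p = p1) with hR2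
  -- the case `H = 0`
  rcases Nat.eq_zero_or_pos H with hH0 | hHpos
  · have hRE : RE κ y D p1 = ∅ := by
      rw [Finset.eq_empty_iff_forall_notMem]
      intro h hh
      rw [RE, Finset.mem_filter] at hh
      have h1 := Finset.mem_Icc.1 hh.1
      omega
    have h0 : mz (k + 1) H (RE κ y D p1) (RE κ y D p1) = 0 := by
      rw [hRE]
      have := mz_le_card (k + 1) H (Nat.succ_le_succ (Nat.zero_le k)) (∅ : Finset ℕ)
      rw [card_empty, zero_pow (Nat.succ_ne_zero _)] at this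
      exact Nat.le_zero.1 this
    rw [h0, Nat.cast_zero]
    positivity
  have hHR : (0 : ℝ) < H := by exact_mod_cast hHpos
  have hX0 : 0 < (C2 + 2 ^ (k + 2)) * ((H : ℝ) ^ (k + 2) / (log (y : ℝ)) ^ (2 * (k + 1))) := by
    positivity
  obtain ⟨A, hA0, hA⟩ : ∃ A : ℝ, 0 < A ∧ A ^ (2 * (k + 1)) =
      (C2 + 2 ^ (k + 2)) * ((H : ℝ) ^ (k + 2) / (log (y : ℝ)) ^ (2 * (k + 1))) := by
    refine ⟨((C2 + 2 ^ (k + 2)) * ((H : ℝ) ^ (k + 2) / (log (y : ℝ)) ^ (2 * (k + 1)))) ^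
      ((1 : ℝ) / ((2 * (k + 1) : ℕ) : ℝ)), Real.rpow_pos_of_pos hX0 _, ?_⟩
    rw [← Real.rpow_natCast, ← Real.rpow_mul hX0.le, one_div, inv_mul_cancel₀, Real.rpow_one]
    exact_mod_cast (by omega : 2 * (k + 1) ≠ 0)
  have hfr : 0 ≤ (H : ℝ) ^ (k + 2) / (log (y : ℝ)) ^ (2 * (k + 1)) := by positivity
  -- the rest
  have hcardR2 : (R2.card : ℝ) ≤ 2 * (H / (log (y : ℝ)) ^ 4) := by
    have h1 := Finset.card_union_le ((Icc 1 H).filter (fun h => ∃ d ∈ D, d ∣ h))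
      ((Icc 1 H).filter (fun h => ∀ p ∈ h.primeFactors, p ≤ zE y ∨ p = p1))
    have h2 : (R2.card : ℝ) ≤ ((Icc 1 H).filter (fun h => ∃ d ∈ D, d ∣ h)).card +
      ((Icc 1 H).filter (fun h => ∀ p ∈ h.primeFactors, p ≤ zE y ∨ p = p1)).card := by
      exact_mod_cast h1
    linarith
  have hmzR2 : (mz (k + 1) H R2 R2 : ℝ) ≤ A ^ (2 * (k + 1)) := by
    have h1 : (mz (k + 1) H R2 R2 : ℝ) ≤ (R2.card : ℝ) ^ (k + 2) := by
      exact_mod_cast mz_le_card (k + 1) H (Nat.succ_le_succ (Nat.zero_le k)) R2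
    calc (mz (k + 1) H R2 R2 : ℝ) ≤ (R2.card : ℝ) ^ (k + 2) := h1
      _ ≤ (2 * (H / (log (y : ℝ)) ^ 4)) ^ (k + 2) :=
          pow_le_pow_left₀ (Nat.cast_nonneg _) hcardR2 (k + 2)
      _ = 2 ^ (k + 2) * ((H : ℝ) ^ (k + 2) / (log (y : ℝ)) ^ (4 * (k + 2))) := by
          rw [mul_pow, div_pow, ← pow_mul]
      _ ≤ 2 ^ (k + 2) * ((H : ℝ) ^ (k + 2) / (log (y : ℝ)) ^ (2 * (k + 1))) := by
          apply mul_le_mul_of_nonneg_left _ (by positivity)
          apply div_le_div_of_nonneg_left (by positivity) (by positivity)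
          exact pow_le_pow_right₀ hl (by omega)
      _ ≤ A ^ (2 * (k + 1)) := by
          rw [hA]
          nlinarith [mul_nonneg hC2.le hfr]
  -- the union
  have hsub : RE κ y D p1 ⊆ (insertNone (range (Nat.log 2 H + 1))).biUnion (v3R H y p1 R2) := by
    intro h hh
    have hIcc : h ∈ Icc 1 H := by
      rw [RE, Finset.mem_filter] at hh
      exact hh.1
    have hmem := Finset.mem_Icc.1 hIcc
    rw [Finset.mem_biUnion]
    rcases hcases h hh with ⟨b, q, hq, hyq, hbq⟩ | h1 | h1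
    · have hpb : 0 < p1 ^ b := pow_pos hD.1.pos b
      refine ⟨some b, ?_, ?_⟩
      · rw [some_mem_insertNone, Finset.mem_range, Nat.lt_succ_iff]
        apply Nat.le_log_of_pow_le (by norm_num)
        calc 2 ^ b ≤ p1 ^ b := Nat.pow_le_pow_left hD.1.two_le b
          _ ≤ p1 ^ b * q := Nat.le_mul_of_pos_right _ hq.pos
          _ ≤ H := hbq ▸ hmem.2
      · have hle : p1 ^ b * y ≤ H := by
          calc p1 ^ b * y ≤ p1 ^ b * q := Nat.mul_le_mul_left _ hyq.le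
            _ ≤ H := hbq ▸ hmem.2
        change h ∈ (if p1 ^ b * y ≤ H then
          ((Icc 1 (H / p1 ^ b)).filter Nat.Prime).image (fun q => p1 ^ b * q) else ∅)
        rw [if_pos hle, Finset.mem_image]
        refine ⟨q, ?_, hbq.symm⟩
        rw [Finset.mem_filter, Finset.mem_Icc]
        refine ⟨⟨hq.one_le, ?_⟩, hq⟩
        rw [Nat.le_div_iff_mul_le hpb, mul_comm]
        exact hbq ▸ hmem.2
    · refine ⟨none, none_mem_insertNone, ?_⟩
      change h ∈ R2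
      exact Finset.mem_union_left _ (Finset.mem_filter.2 ⟨hIcc, h1⟩)
    · refine ⟨none, none_mem_insertNone, ?_⟩
      change h ∈ R2
      exact Finset.mem_union_right _ (Finset.mem_filter.2 ⟨hIcc, h1⟩)
  have hRN : ∀ i ∈ insertNone (range (Nat.log 2 H + 1)), ∀ x ∈ v3R H y p1 R2 i, x ≤ H := by
    intro i _ x hx
    rcases i with _ | b
    · change x ∈ R2 at hx
      rw [hR2, Finset.mem_union, Finset.mem_filter, Finset.mem_filter] at hx
      rcases hx with hx | hx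
      · exact (Finset.mem_Icc.1 hx.1).2
      · exact (Finset.mem_Icc.1 hx.1).2
    · change x ∈ (if p1 ^ b * y ≤ H then
          ((Icc 1 (H / p1 ^ b)).filter Nat.Prime).image (fun q => p1 ^ b * q) else ∅) at hx
      split_ifs at hx with h
      · rw [Finset.mem_image] at hx
        obtain ⟨q, hq, rfl⟩ := hx
        rw [Finset.mem_filter, Finset.mem_Icc] at hq
        calc p1 ^ b * q ≤ p1 ^ b * (H / p1 ^ b) := Nat.mul_le_mul_left _ hq.1.2
          _ ≤ H := Nat.mul_div_le H (p1 ^ b)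
      · simp at hx
  have hmain := mz_biUnion (insertNone (range (Nat.log 2 H + 1))) (v3R H y p1 R2)
    (fun o => o.elim A (fun b => A * (3 / 4) ^ b)) k H hRN (fun i _ => by
      rcases i with _ | b
      · exact hA0
      · exact mul_pos hA0 (by positivity)) (fun i _ => by
      rcases i with _ | b
      · exact hmzR2
      · refine E5_class k C2 hC2 Y0 hY H y p1 hD.1 (by omega) hl b R2 A hA0.le ?_
        rw [hA]
        have h2 : (0 : ℝ) < 2 ^ (k + 2) := by positivity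
        nlinarith [mul_nonneg h2.le hfr]) (RE κ y D p1) hsub
  refine hmain.trans ?_
  have hsum : ∑ i ∈ insertNone (range (Nat.log 2 H + 1)),
      (fun o : Option ℕ => o.elim A (fun b => A * (3 / 4) ^ b)) i ≤ 5 * A := by
    rw [Finset.sum_insertNone]
    simp only [Option.elim_none, Option.elim_some]
    rw [← Finset.mul_sum]
    nlinarith [E5_geom (Nat.log 2 H + 1)]
  have hsum0 : 0 ≤ ∑ i ∈ insertNone (range (Nat.log 2 H + 1)),
      (fun o : Option ℕ => o.elim A (fun b => A * (3 / 4) ^ b)) i := by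
    apply Finset.sum_nonneg
    intro i _
    rcases i with _ | b
    · exact hA0.le
    · exact mul_nonneg hA0.le (by positivity)
  calc (∑ i ∈ insertNone (range (Nat.log 2 H + 1)),
      (fun o : Option ℕ => o.elim A (fun b => A * (3 / 4) ^ b)) i) ^ (2 * (k + 1))
      ≤ (5 * A) ^ (2 * (k + 1)) := pow_le_pow_left₀ hsum0 hsum (2 * (k + 1))
    _ = 5 ^ (2 * (k + 1)) * A ^ (2 * (k + 1)) := by rw [mul_pow]
    _ = 5 ^ (2 * (k + 1)) * (C2 + 2 ^ (k + 2)) * (H : ℝ) ^ (k + 2) /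
          (log y) ^ (2 * (k + 1)) := by rw [hA]; ring

end Pool.Agent.Lib.H77V
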