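import Pool.Agent.Lib.H77V.Defs

/-!
# Chunk E7: separated tuples
-/

open Finset
open Pool.Agent.Lib.H92V (rp)

namespace Pool.Agent.Lib.H77V

/-- `rp A h` is the number of elements of `sh A h`. -/
theorem card_sh (A : Finset ℕ) (h : ℕ) : (sh A h).card = rp A h := rfl

/-- the elements which may not be added -/
def e7_bad {K : ℕ} (x : Fin K → ℕ) (h : ℕ) : Finset ℕ :=
  (univ.image x ∪ univ.image (fun i => x i + h)) ∪ univ.image (fun i => x i - h)

theorem e7_bad_card {K : ℕ} (x : Fin K → ℕ) (h : ℕ) : (e7_bad x h).card ≤ 3 * K := by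
  have h1 : (univ.image x).card ≤ K := by
    have := card_image_le (s := (univ : Finset (Fin K))) (f := x)
    rwa [card_univ, Fintype.card_fin] at this
  have h2 : (univ.image (fun i => x i + h)).card ≤ K := by
    have := card_image_le (s := (univ : Finset (Fin K))) (f := fun i => x i + h)
    rwa [card_univ, Fintype.card_fin] at this
  have h3 : (univ.image (fun i => x i - h)).card ≤ K := by
    have := card_image_le (s := (univ : Finset (Fin K))) (f := fun i => x i - h)
    rwa [card_univ, Fintype.card_fin] at this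
  have h4 := card_union_le (univ.image x ∪ univ.image (fun i => x i + h)) (univ.image (fun i => x i - h))
  have h5 := card_union_le (univ.image x) (univ.image (fun i => x i + h))
  show ((univ.image x ∪ univ.image (fun i => x i + h)) ∪ univ.image (fun i => x i - h)).card ≤ 3 * K
  omega

theorem e7_not_bad {K : ℕ} {x : Fin K → ℕ} {h a : ℕ} (ha : a ∉ e7_bad x h) (i : Fin K) :
    a ≠ x i ∧ a ≠ x i + h ∧ x i ≠ a + h := by
  refine ⟨fun h1 => ha ?_, fun h1 => ha ?_, fun h1 => ha ?_⟩
  · exact mem_union_left _ (mem_union_left _ (mem_image.2 ⟨i, mem_univ _, h1.symm⟩))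
  · exact mem_union_left _ (mem_union_right _ (mem_image.2 ⟨i, mem_univ _, h1.symm⟩))
  · exact mem_union_right _ (mem_image.2 ⟨i, mem_univ _, by omega⟩)

theorem e7_cons_mem {K : ℕ} {A : Finset ℕ} {h : ℕ} {x : Fin K → ℕ} (hx : x ∈ sep K A h) {a : ℕ}
    (haA : a ∈ A) (ha : a ∉ e7_bad x h) : (Fin.cons a x : Fin (K + 1) → ℕ) ∈ sep (K + 1) A h := by
  obtain ⟨h1, h2⟩ := mem_filter.1 hx
  rw [Fintype.mem_piFinset] at h1
  refine mem_filter.2 ⟨?_, ?_⟩
  · rw [Fintype.mem_piFinset]
    intro i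
    refine Fin.cases ?_ (fun i => ?_) i
    · rw [Fin.cons_zero]
      exact haA
    · rw [Fin.cons_succ]
      exact h1 i
  · intro i j
    refine Fin.cases ?_ (fun i => ?_) i
    · refine Fin.cases ?_ (fun j => ?_) j
      · intro hij
        exact absurd rfl hij
      · intro _
        rw [Fin.cons_zero, Fin.cons_succ]
        exact ⟨(e7_not_bad ha j).1, (e7_not_bad ha j).2.1⟩
    · refine Fin.cases ?_ (fun j => ?_) j
      · intro _
        rw [Fin.cons_zero, Fin.cons_succ]
        exact ⟨(e7_not_bad ha i).1.symm, (e7_not_bad ha i).2.2⟩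
      · intro hij
        rw [Fin.cons_succ, Fin.cons_succ]
        exact h2 i j (fun h3 => hij (by rw [h3]))

/-- Induction on `K`: a separated `K`-tuple is extended (`Fin.snoc` or `Fin.cons`) by any element of `A`
outside the (at most `3 K`) numbers `x i`, `x i + h`, `x i - h`; so
`#sep (K + 1) ≥ (|A| - 3 K) #sep K`. -/
theorem sep_succ (K : ℕ) (A : Finset ℕ) (h : ℕ) :
    (A.card - 3 * K) * (sep K A h).card ≤ (sep (K + 1) A h).card := by
  classical
  have h1 : (A.card - 3 * K) * (sep K A h).card ≤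
      ((sep K A h).sigma (fun x => A \ e7_bad x h)).card := by
    rw [card_sigma, mul_comm, ← smul_eq_mul]
    refine card_nsmul_le_sum _ _ _ fun x _ => ?_
    have h2 := le_card_sdiff (e7_bad x h) A
    have h3 := e7_bad_card x h
    omega
  refine h1.trans (card_le_card_of_injOn (fun p => (Fin.cons p.2 p.1 : Fin (K + 1) → ℕ)) ?_ ?_)
  · intro p hp
    obtain ⟨h2, h3⟩ := mem_sigma.1 (mem_coe.1 hp)
    obtain ⟨h4, h5⟩ := mem_sdiff.1 h3
    exact mem_coe.2 (e7_cons_mem h2 h4 h5)
  · rintro ⟨x, a⟩ _ ⟨y, b⟩ _ hxy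
    have h2 : (Fin.cons a x : Fin (K + 1) → ℕ) = Fin.cons b y := hxy
    have h3 := Fin.cons_injective2 h2
    obtain ⟨rfl, rfl⟩ := h3
    rfl

/-- If `|A| ≥ 6 K`: `sep_succ` gives `#sep ≥ (|A| - 3 K)^K ≥ (|A|/2)^K`. Otherwise
`|A|^K ≤ (6 K)^(K-1) |A|`. -/
theorem pow_card_le_sep (K : ℕ) (hK : 1 ≤ K) (A : Finset ℕ) (h : ℕ) :
    A.card ^ K ≤ 2 ^ K * (sep K A h).card + (6 * K) ^ K * A.card := by
  by_cases hA : 6 * K ≤ A.card
  · have h1 : ∀ j, j ≤ K → (A.card - 3 * K) ^ j ≤ (sep j A h).card := by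
      intro j
      induction j with
      | zero =>
        intro _
        rw [pow_zero]
        refine card_pos.2 ⟨fun i => i.elim0, mem_filter.2 ⟨?_, fun i => i.elim0⟩⟩
        rw [Fintype.mem_piFinset]
        exact fun i => i.elim0
      | succ j ih =>
        intro hj
        have h2 := ih (by omega)
        calc (A.card - 3 * K) ^ (j + 1) = (A.card - 3 * K) ^ j * (A.card - 3 * K) := pow_succ _ _
          _ ≤ (sep j A h).card * (A.card - 3 * j) := Nat.mul_le_mul h2 (by omega)
          _ = (A.card - 3 * j) * (sep j A h).card := mul_comm _ _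
          _ ≤ (sep (j + 1) A h).card := sep_succ j A h
    calc A.card ^ K ≤ (2 * (A.card - 3 * K)) ^ K := Nat.pow_le_pow_left (by omega) K
      _ = 2 ^ K * (A.card - 3 * K) ^ K := mul_pow _ _ _
      _ ≤ 2 ^ K * (sep K A h).card := Nat.mul_le_mul_left _ (h1 K le_rfl)
      _ ≤ _ := Nat.le_add_right _ _
  · obtain ⟨k, rfl⟩ : ∃ k, K = k + 1 := ⟨K - 1, by omega⟩
    calc A.card ^ (k + 1) = A.card ^ k * A.card := pow_succ _ _
      _ ≤ (6 * (k + 1)) ^ k * A.card := Nat.mul_le_mul_right _ (Nat.pow_le_pow_left (by omega) k)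
      _ ≤ (6 * (k + 1)) ^ (k + 1) * A.card :=
        Nat.mul_le_mul_right _ (Nat.pow_le_pow_right (by omega) (by omega))
      _ ≤ _ := Nat.le_add_left _ _

end Pool.Agent.Lib.H77V
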