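import Pool.Agent.Lib.H77V.E6
import Pool.Agent.Lib.H77V.E7

/-!
# Chunk E8: mean value of the number of the separated tuples
-/

open Finset Real
open Pool.Agent.Lib.H5C
open Pool.Agent.Lib.H92V (rp)

namespace Pool.Agent.Lib.H77V

private theorem e8_mem_sep {K : ℕ} {A : Finset ℕ} {h : ℕ} {x : Fin K → ℕ} :
    x ∈ sep K A h ↔ (∀ i, x i ∈ A) ∧ ∀ i j, i ≠ j → x i ≠ x j ∧ x i ≠ x j + h := by
  unfold sep
  rw [mem_filter, Fintype.mem_piFinset]

private theorem e8_mem_sh {A : Finset ℕ} {h z : ℕ} : z ∈ sh A h ↔ z ∈ A ∧ z + h ∈ A := by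
  unfold sh
  rw [mem_filter]

/-- The numbers `x i`, `x i + h`. -/
private def e8_pts {K : ℕ} (h : ℕ) (x : Fin K → ℕ) : Finset ℕ :=
  univ.image x ∪ univ.image (fun i => x i + h)

private theorem e8_card {K : ℕ} {A : Finset ℕ} {h : ℕ} (hh : 1 ≤ h) {x : Fin K → ℕ}
    (hx : x ∈ sep K A h) : (e8_pts h x).card = 2 * K := by
  rw [e8_mem_sep] at hx
  have hinj : Function.Injective x := by
    intro i j hij
    by_contra hne
    exact (hx.2 i j hne).1 hij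
  unfold e8_pts
  rw [card_union_of_disjoint, card_image_of_injective _ hinj, card_image_of_injective, card_univ,
    Fintype.card_fin]
  · ring
  · intro i j hij
    have hij' : x i + h = x j + h := hij
    exact hinj (by omega)
  · rw [disjoint_left]
    intro z hz hz'
    rw [mem_image] at hz hz'
    obtain ⟨i, -, hi⟩ := hz
    obtain ⟨j, -, hj⟩ := hz'
    rcases eq_or_ne i j with he | hne
    · subst he
      omega
    · exact (hx.2 i j hne).2 (by omega)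

private theorem e8_sep_sh (K : ℕ) (P : Finset ℕ) (R : Finset ℕ) (h a : ℕ) :
    sep K (sh (R.filter (fun z => ∀ p ∈ P, ¬ p ∣ a + z)) h) h =
      (sep K (sh R h) h).filter (fun x => ∀ z ∈ e8_pts h x, ∀ p ∈ P, ¬ p ∣ a + z) := by
  ext x
  rw [mem_filter, e8_mem_sep, e8_mem_sep]
  simp only [e8_mem_sh, mem_filter]
  constructor
  · rintro ⟨h1, h2⟩
    refine ⟨⟨fun i => ⟨(h1 i).1.1, (h1 i).2.1⟩, h2⟩, ?_⟩
    intro z hz
    unfold e8_pts at hz
    rw [mem_union, mem_image, mem_image] at hz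
    rcases hz with ⟨i, -, hi⟩ | ⟨i, -, hi⟩
    · rw [← hi]
      exact (h1 i).1.2
    · rw [← hi]
      exact (h1 i).2.2
  · rintro ⟨⟨h1, h2⟩, h3⟩
    refine ⟨fun i => ⟨⟨(h1 i).1, h3 _ ?_⟩, ⟨(h1 i).2, h3 _ ?_⟩⟩, h2⟩
    · unfold e8_pts
      exact mem_union_left _ (mem_image_of_mem _ (mem_univ _))
    · unfold e8_pts
      exact mem_union_right _ (mem_image.mpr ⟨i, mem_univ _, rfl⟩)

private theorem e8_card_sep_le (K : ℕ) (R : Finset ℕ) (h : ℕ) :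
    (sep K (sh R h) h).card ≤ rp R h ^ K := by
  unfold sep
  refine (card_filter_le _ _).trans ?_
  rw [Fintype.card_piFinset]
  simp only [prod_const, card_univ, Fintype.card_fin]
  exact le_of_eq (by rw [card_sh])

/-- A separated tuple of elements of `sh S h`, `S` the survivors in `R`: all `x i` and `x i + h` are
survivors. These are `2 K` different numbers (`h ≥ 1`), so for a fixed tuple of elements of `sh R h` the
number of the `a` is at most `2 Q V^(2K)` (`corrK`), and the number of the tuples is at most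
`|sh R h|^K`. -/
theorem sum_sep_le (K : ℕ) (hK : 1 ≤ K) (P : Finset ℕ) (w H : ℕ) (hw : 2 ≤ w)
    (hP : ∀ p ∈ P, p.Prime ∧ w < p) (hH : 16 * (K : ℝ) ^ 3 * log H / w ≤ 1 / 2) (R : Finset ℕ)
    (hR : ∀ h ∈ R, 1 ≤ h ∧ h ≤ H) (h : ℕ) (hh : 1 ≤ h) :
    ∑ a ∈ range (∏ p ∈ P, p),
      ((sep K (sh (R.filter (fun z => ∀ p ∈ P, ¬ p ∣ a + z)) h) h).card : ℝ) ≤
      2 * (∏ p ∈ P, (p : ℝ)) * (∏ p ∈ P, (1 - 1 / (p : ℝ))) ^ (2 * K) * (rp R h : ℝ) ^ K := by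
  classical
  set Q := ∏ p ∈ P, p with hQ
  set T := sep K (sh R h) h with hT
  set V : ℝ := ∏ p ∈ P, (1 - 1 / (p : ℝ)) with hV
  have hV0 : 0 ≤ V := by
    rw [hV]
    refine prod_nonneg fun p hp => ?_
    have h1 : (1 : ℝ) ≤ p := by exact_mod_cast (hP p hp).1.one_lt.le
    have h2 : 1 / (p : ℝ) ≤ 1 := by
      rw [div_le_one (by linarith)]
      exact h1
    linarith
  have hQ0 : (0 : ℝ) ≤ ∏ p ∈ P, (p : ℝ) := prod_nonneg fun p _ => Nat.cast_nonneg _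
  have hcount : ∀ x ∈ T, (((range Q).filter
      (fun a => ∀ z ∈ e8_pts h x, ∀ p ∈ P, ¬ p ∣ a + z)).card : ℝ) ≤
      2 * ((∏ p ∈ P, (p : ℝ)) * V ^ (2 * K)) := by
    intro x hx
    have hc := e8_card hh hx
    have h1 := corrK K hK P w H hw hP hH (e8_pts h x) (by
      intro z hz
      rw [hT, e8_mem_sep] at hx
      unfold e8_pts at hz
      rw [mem_union, mem_image, mem_image] at hz
      rcases hz with ⟨i, -, hi⟩ | ⟨i, -, hi⟩
      · rw [← hi]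
        exact hR _ (e8_mem_sh.mp (hx.1 i)).1
      · rw [← hi]
        exact hR _ (e8_mem_sh.mp (hx.1 i)).2) hc.le
    rw [hc] at h1
    exact h1
  have hsum : ∑ a ∈ range Q, ((sep K (sh (R.filter (fun z => ∀ p ∈ P, ¬ p ∣ a + z)) h) h).card : ℝ)
      = ∑ x ∈ T, (((range Q).filter
        (fun a => ∀ z ∈ e8_pts h x, ∀ p ∈ P, ¬ p ∣ a + z)).card : ℝ) := by
    simp only [e8_sep_sh, ← hT, card_filter, Nat.cast_sum]
    rw [sum_comm]
  rw [hsum]
  refine (sum_le_sum hcount).trans ?_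
  rw [sum_const, nsmul_eq_mul]
  have hTc : (T.card : ℝ) ≤ (rp R h : ℝ) ^ K := by
    rw [hT]
    exact_mod_cast e8_card_sep_le K R h
  have hnn : 0 ≤ 2 * ((∏ p ∈ P, (p : ℝ)) * V ^ (2 * K)) := by positivity
  refine (mul_le_mul_of_nonneg_right hTc hnn).trans (le_of_eq ?_)
  ring

/-- Sum over `h`. -/
theorem sum_sep_le' (K : ℕ) (hK : 1 ≤ K) (P : Finset ℕ) (w H : ℕ) (hw : 2 ≤ w)
    (hP : ∀ p ∈ P, p.Prime ∧ w < p) (hH : 16 * (K : ℝ) ^ 3 * log H / w ≤ 1 / 2) (R : Finset ℕ)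
    (hR : ∀ h ∈ R, 1 ≤ h ∧ h ≤ H) :
    ∑ a ∈ range (∏ p ∈ P, p), ∑ h ∈ Icc 1 H,
      ((sep K (sh (R.filter (fun z => ∀ p ∈ P, ¬ p ∣ a + z)) h) h).card : ℝ) ≤
      (∏ p ∈ P, (p : ℝ)) * (2 * (∏ p ∈ P, (1 - 1 / (p : ℝ))) ^ (2 * K) * eK K R H) := by
  rw [sum_comm]
  have h1 : ∀ h ∈ Icc 1 H, ∑ a ∈ range (∏ p ∈ P, p),
      ((sep K (sh (R.filter (fun z => ∀ p ∈ P, ¬ p ∣ a + z)) h) h).card : ℝ) ≤
      2 * (∏ p ∈ P, (p : ℝ)) * (∏ p ∈ P, (1 - 1 / (p : ℝ))) ^ (2 * K) * (rp R h : ℝ) ^ K := by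
    intro h hh
    exact sum_sep_le K hK P w H hw hP hH R hR h (mem_Icc.mp hh).1
  refine (sum_le_sum h1).trans (le_of_eq ?_)
  rw [← mul_sum]
  have h2 : (eK K R H : ℝ) = ∑ h ∈ Icc 1 H, (rp R h : ℝ) ^ K := by
    unfold eK
    push_cast
    rfl
  rw [h2]
  ring

end Pool.Agent.Lib.H77V
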