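import Pool.Agent.Lib.H92V.V5
import Pool.Agent.Lib.H77V.E1A
import Pool.Agent.Lib.H77V.E8

/-!
# Chunk E9: a residue class with the right number of survivors and small moment
-/

open Finset Real
open Pool.Agent.Lib.H5C
open Pool.Agent.Lib.H92V (rp)

namespace Pool.Agent.Lib.H77V

/-- `pow_card_le_sep` for the sets `sh S h`, `∑_h |sh S h| ≤ |S|²` (`sum_rp_le'`). -/
theorem eK_le_sep (K : ℕ) (hK : 1 ≤ K) (S : Finset ℕ) (H : ℕ) :
    eK K S H ≤ 2 ^ K * ∑ h ∈ Icc 1 H, (sep K (sh S h) h).card + (6 * K) ^ K * S.card ^ 2 := by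
  unfold eK
  calc ∑ h ∈ Icc 1 H, rp S h ^ K
      ≤ ∑ h ∈ Icc 1 H, (2 ^ K * (sep K (sh S h) h).card + (6 * K) ^ K * rp S h) :=
        Finset.sum_le_sum fun h _ => by
          have h1 := pow_card_le_sep K hK (sh S h) h
          rwa [card_sh] at h1
    _ = 2 ^ K * ∑ h ∈ Icc 1 H, (sep K (sh S h) h).card + (6 * K) ^ K * ∑ h ∈ Icc 1 H, rp S h := by
        rw [Finset.sum_add_distrib, Finset.mul_sum, Finset.mul_sum]
    _ ≤ _ := Nat.add_le_add_left (Nat.mul_le_mul_left _ (sum_rp_le' S H)) _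

/-- As `H92V.average_en` (copy its proof): the variance part has total weight `≤ M/8`, and by
`sum_sep_le'` the `a` with `∑_h #sep > 8 B`, `B = 2 V^(2K) eK R H + V²`, are at most `M/8`
(`V² > 0` is added so that `B > 0`; the mean value is at most `M B`). -/
theorem average_sep (K : ℕ) (hK : 1 ≤ K) (P : Finset ℕ) (w H : ℕ) (hw : 2 ≤ w)
    (hP : ∀ p ∈ P, p.Prime ∧ w < p) (R : Finset ℕ) (hR : ∀ h ∈ R, 1 ≤ h ∧ h ≤ H)
    (hH : exp (4 * log H / w) ≤ 1 + 1 / 64)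
    (hHK : 16 * (K : ℝ) ^ 3 * log H / w ≤ 1 / 2)
    (hμ : 64 ≤ (∏ p ∈ P, (1 - 1 / (p : ℝ))) * R.card) :
    ∃ a < ∏ p ∈ P, p,
      (∏ p ∈ P, (1 - 1 / (p : ℝ))) * R.card / 2 ≤
        ((R.filter (fun h => ∀ p ∈ P, ¬ p ∣ a + h)).card : ℝ) ∧
      ((R.filter (fun h => ∀ p ∈ P, ¬ p ∣ a + h)).card : ℝ) ≤
        2 * ((∏ p ∈ P, (1 - 1 / (p : ℝ))) * R.card) ∧
      ∑ h ∈ Icc 1 H, ((sep K (sh (R.filter (fun z => ∀ p ∈ P, ¬ p ∣ a + z)) h) h).card : ℝ) ≤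
        8 * (2 * (∏ p ∈ P, (1 - 1 / (p : ℝ))) ^ (2 * K) * eK K R H +
          (∏ p ∈ P, (1 - 1 / (p : ℝ))) ^ 2) := by
  have hE := sum_sep_le' K hK P w H hw hP hHK R hR
  obtain ⟨Z, hZ⟩ : ∃ Z : ℕ → ℝ, ∀ a, Z a = ∑ h ∈ Icc 1 H,
    ((sep K (sh (R.filter (fun z => ∀ p ∈ P, ¬ p ∣ a + z)) h) h).card : ℝ) := ⟨_, fun _ => rfl⟩
  have hZ0 : ∀ a, 0 ≤ Z a := by
    intro a
    rw [hZ]
    exact Finset.sum_nonneg fun _ _ => Nat.cast_nonneg _
  simp only [← hZ] at hE ⊢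
  clear hZ
  simp only [er2_card]
  set V : ℝ := ∏ p ∈ P, (1 - 1 / (p : ℝ)) with hV
  set M : ℝ := ∏ p ∈ P, (p : ℝ) with hM
  have hM0 : 0 < M := Finset.prod_pos fun p hp => by exact_mod_cast (hP p hp).1.pos
  have hV0 : 0 < V := by
    apply Finset.prod_pos
    intro p hp
    have : (1 : ℝ) < p := by exact_mod_cast (hP p hp).1.one_lt
    have h2 : 1 / (p : ℝ) < 1 := by
      rw [div_lt_one (by linarith)]
      exact this
    linarith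
  have hcardM : (((range (∏ p ∈ P, p)).card : ℕ) : ℝ) = M := by
    rw [Finset.card_range]
    push_cast
    rfl
  set μ : ℝ := V * R.card with hμd
  have hμ0 : 0 < μ := by linarith
  have hR0 : (0 : ℝ) < R.card := by
    by_contra h
    have h1 : μ ≤ 0 := mul_nonpos_of_nonneg_of_nonpos hV0.le (not_lt.1 h)
    linarith
  obtain ⟨B, hB⟩ : ∃ B : ℝ, B = 2 * V ^ (2 * K) * eK K R H + V ^ 2 := ⟨_, rfl⟩
  have hB0 : 0 < B := by
    have h1 : (0 : ℝ) ≤ 2 * V ^ (2 * K) * eK K R H := by positivity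
    have h2 : (0 : ℝ) < V ^ 2 := by positivity
    rw [hB]
    linarith
  replace hE := hE.trans (mul_le_mul_of_nonneg_left (show 2 * V ^ (2 * K) * eK K R H ≤ B by
    rw [hB]
    have h2 : (0 : ℝ) < V ^ 2 := by positivity
    linarith) hM0.le)
  rw [← hB]
  -- first moment
  have hS1 : ∑ a ∈ range (∏ p ∈ P, p), ∑ h ∈ R, er2_I P a h = M * μ := by
    rw [Finset.sum_comm]
    rw [Finset.sum_congr rfl fun h _ => er2_single P (fun p hp => (hP p hp).1) h]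
    rw [Finset.sum_const, nsmul_eq_mul, hμd]
    ring
  -- second moment
  have hS2 : ∑ a ∈ range (∏ p ∈ P, p), (∑ h ∈ R, er2_I P a h) ^ 2 ≤
      M * μ ^ 2 * (1 + 1 / 64) + M * μ := by
    have e1 : ∀ a ∈ range (∏ p ∈ P, p), (∑ h ∈ R, er2_I P a h) ^ 2 =
        ∑ h ∈ R, ∑ h' ∈ R, er2_I P a h * er2_I P a h' := by
      intro a _
      rw [sq, Finset.sum_mul_sum]
    rw [Finset.sum_congr rfl e1, Finset.sum_comm]
    have e2' : ∀ h ∈ R, ∑ a ∈ range (∏ p ∈ P, p), ∑ h' ∈ R, er2_I P a h * er2_I P a h' ≤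
        (R.card : ℝ) * (M * V ^ 2 * (1 + 1 / 64)) + M * V := by
      intro h hh
      rw [Finset.sum_comm]
      calc ∑ h' ∈ R, ∑ a ∈ range (∏ p ∈ P, p), er2_I P a h * er2_I P a h'
          ≤ ∑ h' ∈ R, (M * V ^ 2 * (1 + 1 / 64) + if h = h' then M * V else 0) :=
            Finset.sum_le_sum fun h' hh' =>
              er2_pair P w H hw hP hH h h' (hR h hh) (hR h' hh')
        _ = (R.card : ℝ) * (M * V ^ 2 * (1 + 1 / 64)) + M * V := by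
            rw [Finset.sum_add_distrib, Finset.sum_const, nsmul_eq_mul, Finset.sum_ite_eq,
              if_pos hh]
    calc ∑ h ∈ R, ∑ a ∈ range (∏ p ∈ P, p), ∑ h' ∈ R, er2_I P a h * er2_I P a h'
        ≤ ∑ h ∈ R, ((R.card : ℝ) * (M * V ^ 2 * (1 + 1 / 64)) + M * V) :=
          Finset.sum_le_sum e2'
      _ = M * μ ^ 2 * (1 + 1 / 64) + M * μ := by
          rw [Finset.sum_const, nsmul_eq_mul, hμd]
          ring
  have hvar : ∑ a ∈ range (∏ p ∈ P, p), ((∑ h ∈ R, er2_I P a h) - μ) ^ 2 ≤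
      M * μ ^ 2 / 64 + M * μ := by
    have e : ∀ a ∈ range (∏ p ∈ P, p), ((∑ h ∈ R, er2_I P a h) - μ) ^ 2 =
        (∑ h ∈ R, er2_I P a h) ^ 2 - 2 * μ * (∑ h ∈ R, er2_I P a h) + μ ^ 2 := by
      intro a _
      ring
    rw [Finset.sum_congr rfl e, Finset.sum_add_distrib, Finset.sum_sub_distrib,
      ← Finset.mul_sum, hS1, Finset.sum_const, nsmul_eq_mul, hcardM]
    nlinarith [hS2]
  by_contra hcon
  push Not at hcon
  have hbad : ∀ a ∈ range (∏ p ∈ P, p),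
      (1 : ℝ) ≤ 4 / μ ^ 2 * ((∑ h ∈ R, er2_I P a h) - μ) ^ 2 +
        1 / (8 * B) * Z a := by
    intro a ha
    have hthird : 0 ≤ 1 / (8 * B) * Z a := by
      have := hZ0 a
      positivity
    have hfirst : 0 ≤ 4 / μ ^ 2 * ((∑ h ∈ R, er2_I P a h) - μ) ^ 2 := by positivity
    by_cases h1 : μ / 2 ≤ ∑ h ∈ R, er2_I P a h
    · by_cases h2 : ∑ h ∈ R, er2_I P a h ≤ 2 * μ
      · have h3 := hcon a (Finset.mem_range.1 ha) h1 h2
        have : 1 ≤ 1 / (8 * B) *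
            Z a := by
          rw [one_div, inv_mul_eq_div, one_le_div (by positivity)]
          exact h3.le
        linarith
      · push Not at h2
        have : 1 ≤ 4 / μ ^ 2 * ((∑ h ∈ R, er2_I P a h) - μ) ^ 2 := by
          rw [div_mul_eq_mul_div, one_le_div (by positivity)]
          nlinarith
        linarith
    · push Not at h1
      have : 1 ≤ 4 / μ ^ 2 * ((∑ h ∈ R, er2_I P a h) - μ) ^ 2 := by
        rw [div_mul_eq_mul_div, one_le_div (by positivity)]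
        nlinarith
      linarith
  have hsum := Finset.sum_le_sum hbad
  rw [Finset.sum_const, nsmul_eq_mul, mul_one, hcardM, Finset.sum_add_distrib,
    ← Finset.mul_sum, ← Finset.mul_sum] at hsum
  have b1 : 4 / μ ^ 2 * ∑ a ∈ range (∏ p ∈ P, p), ((∑ h ∈ R, er2_I P a h) - μ) ^ 2 ≤
      M / 8 := by
    calc 4 / μ ^ 2 * ∑ a ∈ range (∏ p ∈ P, p), ((∑ h ∈ R, er2_I P a h) - μ) ^ 2
        ≤ 4 / μ ^ 2 * (M * μ ^ 2 / 64 + M * μ) :=
          mul_le_mul_of_nonneg_left hvar (by positivity)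
      _ = M / 16 + 4 * M / μ := by
          field_simp
          ring
      _ ≤ M / 16 + M / 16 := by
          have h16 : 4 * M / μ ≤ M / 16 := by
            rw [div_le_div_iff₀ hμ0 (by norm_num)]
            nlinarith
          linarith
      _ = M / 8 := by ring
  have b2 : 1 / (8 * B) * ∑ a ∈ range (∏ p ∈ P, p),
      Z a ≤ M / 8 := by
    calc 1 / (8 * B) * ∑ a ∈ range (∏ p ∈ P, p),
          Z a
        ≤ 1 / (8 * B) * (M * B) := mul_le_mul_of_nonneg_left hE (by positivity)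
      _ = M / 8 := by
          field_simp
  linarith

/-- `average_sep` and `eK_le_sep` with `S` = survivors, `|S| ≤ 2 V |R|`. (`|R| ≥ 1` as `V |R| ≥ 64`, so
`V² ≤ (V |R|)²`.) -/
theorem average_eK (K : ℕ) (hK : 1 ≤ K) (P : Finset ℕ) (w H : ℕ) (hw : 2 ≤ w)
    (hP : ∀ p ∈ P, p.Prime ∧ w < p) (R : Finset ℕ) (hR : ∀ h ∈ R, 1 ≤ h ∧ h ≤ H)
    (hH : exp (4 * log H / w) ≤ 1 + 1 / 64)
    (hHK : 16 * (K : ℝ) ^ 3 * log H / w ≤ 1 / 2)
    (hμ : 64 ≤ (∏ p ∈ P, (1 - 1 / (p : ℝ))) * R.card) :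
    ∃ a < ∏ p ∈ P, p,
      (∏ p ∈ P, (1 - 1 / (p : ℝ))) * R.card / 2 ≤
        ((R.filter (fun h => ∀ p ∈ P, ¬ p ∣ a + h)).card : ℝ) ∧
      ((R.filter (fun h => ∀ p ∈ P, ¬ p ∣ a + h)).card : ℝ) ≤
        2 * ((∏ p ∈ P, (1 - 1 / (p : ℝ))) * R.card) ∧
      (eK K (R.filter (fun h => ∀ p ∈ P, ¬ p ∣ a + h)) H : ℝ) ≤
        2 ^ K * (16 * (∏ p ∈ P, (1 - 1 / (p : ℝ))) ^ (2 * K) * eK K R H) +
          (8 * 2 ^ K + 4 * (6 * (K : ℝ)) ^ K) *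
            ((∏ p ∈ P, (1 - 1 / (p : ℝ))) * R.card) ^ 2 := by
  obtain ⟨a, ha, h1, h2, h3⟩ := average_sep K hK P w H hw hP R hR hH hHK hμ
  refine ⟨a, ha, h1, h2, ?_⟩
  have hV0 : 0 < ∏ p ∈ P, (1 - 1 / (p : ℝ)) := by
    apply Finset.prod_pos
    intro p hp
    have : (1 : ℝ) < p := by exact_mod_cast (hP p hp).1.one_lt
    have h2 : 1 / (p : ℝ) < 1 := by
      rw [div_lt_one (by linarith)]
      exact this
    linarith
  obtain ⟨V, hV⟩ : ∃ V : ℝ, V = ∏ p ∈ P, (1 - 1 / (p : ℝ)) := ⟨_, rfl⟩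
  rw [← hV] at h1 h2 h3 hV0 hμ ⊢
  obtain ⟨S, hS⟩ : ∃ S : Finset ℕ, S = R.filter (fun h => ∀ p ∈ P, ¬ p ∣ a + h) := ⟨_, rfl⟩
  rw [← hS] at h1 h2 h3 ⊢
  have h4 : (eK K S H : ℝ) ≤ 2 ^ K * ∑ h ∈ Icc 1 H, ((sep K (sh S h) h).card : ℝ) +
      (6 * (K : ℝ)) ^ K * (S.card : ℝ) ^ 2 := by
    have := eK_le_sep K hK S H
    exact_mod_cast this
  have hR1 : (1 : ℝ) ≤ R.card := by
    have h5 : R.card ≠ 0 := by
      intro h0
      rw [h0] at hμ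
      norm_num at hμ
    exact_mod_cast Nat.one_le_iff_ne_zero.2 h5
  have h5 : V ^ 2 ≤ (V * R.card) ^ 2 := by
    apply pow_le_pow_left₀ hV0.le
    nlinarith
  have h6 : (S.card : ℝ) ^ 2 ≤ 4 * (V * R.card) ^ 2 := by
    have h7 : (S.card : ℝ) ^ 2 ≤ (2 * (V * R.card)) ^ 2 := pow_le_pow_left₀ (Nat.cast_nonneg _) h2 2
    linarith
  have h7 : (2 : ℝ) ^ K * ∑ h ∈ Icc 1 H, ((sep K (sh S h) h).card : ℝ) ≤
      2 ^ K * (16 * V ^ (2 * K) * eK K R H) + 8 * 2 ^ K * (V * R.card) ^ 2 := by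
    calc (2 : ℝ) ^ K * ∑ h ∈ Icc 1 H, ((sep K (sh S h) h).card : ℝ)
        ≤ 2 ^ K * (8 * (2 * V ^ (2 * K) * eK K R H + V ^ 2)) := by gcongr
      _ = 2 ^ K * (16 * V ^ (2 * K) * eK K R H) + 8 * 2 ^ K * V ^ 2 := by ring
      _ ≤ _ := by gcongr
  have h8 : (6 * (K : ℝ)) ^ K * (S.card : ℝ) ^ 2 ≤ 4 * (6 * (K : ℝ)) ^ K * (V * R.card) ^ 2 := by
    calc (6 * (K : ℝ)) ^ K * (S.card : ℝ) ^ 2 ≤ (6 * (K : ℝ)) ^ K * (4 * (V * R.card) ^ 2) := by gcongr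
      _ = _ := by ring
  have h9 : (8 * (2 : ℝ) ^ K + 4 * (6 * (K : ℝ)) ^ K) * (V * R.card) ^ 2 =
      8 * 2 ^ K * (V * R.card) ^ 2 + 4 * (6 * (K : ℝ)) ^ K * (V * R.card) ^ 2 := by ring
  rw [h9]
  linarith

end Pool.Agent.Lib.H77V
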