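import Pool.Agent.Lib.H92V.V6
import Pool.Agent.Lib.H77V.E5
import Pool.Agent.Lib.H77V.E9

/-!
# Chunk E10: Erdős-Rankin sieve with small moments
-/

open Finset Real
open Pool.Agent.Lib.H5C
open Pool.Agent.Lib.H92V (rp)

namespace Pool.Agent.Lib.H77V

/-- Arithmetic of the bounds (cf. `H92V.v6_arith`). `V H/l ≤ 96000 t`, so
`V^(2K) E H^(K-1) ≤ C3 (V H/l)^(2K)` with `K = k + 1`, `E ≤ C3 H^(k+2)/l^(2K)`;
`(V r)² H^k ≤ (96000 C t)² t^(2k)`; `s ≤ 2 V r`, `s^(k+1) H^k ≤ (192000 C t)^(k+1) t^(k+1)`. -/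
theorem E10_arith (k : ℕ) (V r E H l t C C3 A s e : ℝ) (hV : 0 < V) (hr : 0 ≤ r) (hH : 0 ≤ H)
    (hl : 0 < l) (ht : 0 ≤ t) (hC : 0 ≤ C) (hC3 : 0 ≤ C3) (hA : 0 < A) (hs0 : 0 ≤ s)
    (v2 : V ≤ 96000 * A) (h4 : H / l ≤ t / A) (hVr : V * r ≤ 96000 * C * t)
    (hEn : E ≤ C3 * H ^ (k + 2) / l ^ (2 * (k + 1))) (hHy : H ≤ t ^ 2)
    (hHk : H ^ k ≤ t ^ (k + 1)) (hs : s ≤ 2 * (V * r))
    (he : e ≤ 2 ^ (k + 1) * (16 * V ^ (2 * (k + 1)) * E) +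
      (8 * 2 ^ (k + 1) + 4 * (6 * ((k + 1 : ℕ) : ℝ)) ^ (k + 1)) * (V * r) ^ 2) :
    (s ^ (k + 1) + 2 * e) * H ^ k ≤
      ((192000 * C) ^ (k + 1) + 2 * (2 ^ (k + 1) * 16 * (C3 * 96000 ^ (2 * (k + 1))) +
        (8 * 2 ^ (k + 1) + 4 * (6 * ((k + 1 : ℕ) : ℝ)) ^ (k + 1)) * (96000 * C) ^ 2)) *
        t ^ (2 * (k + 1)) := by
  have hVH : V * (H / l) ≤ 96000 * t := by
    calc V * (H / l) ≤ (96000 * A) * (t / A) := by gcongr
      _ = 96000 * t := by field_simp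
  have hVH0 : 0 ≤ V * (H / l) := by positivity
  have hr0 : 0 ≤ V * r := by positivity
  have hK : 0 ≤ (8 * 2 ^ (k + 1) + 4 * (6 * ((k + 1 : ℕ) : ℝ)) ^ (k + 1)) := by positivity
  have hHk0 : 0 ≤ H ^ k := by positivity
  have T1 : V ^ (2 * (k + 1)) * E * H ^ k ≤ C3 * (96000 * t) ^ (2 * (k + 1)) := by
    calc V ^ (2 * (k + 1)) * E * H ^ k
        ≤ V ^ (2 * (k + 1)) * (C3 * H ^ (k + 2) / l ^ (2 * (k + 1))) * H ^ k := by gcongr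
      _ = C3 * (V * (H / l)) ^ (2 * (k + 1)) := by
          rw [mul_pow, div_pow, show 2 * (k + 1) = (k + 2) + k by ring, pow_add H]
          ring
      _ ≤ C3 * (96000 * t) ^ (2 * (k + 1)) := by gcongr
  have hsq : (V * r) ^ 2 ≤ (96000 * C * t) ^ 2 := pow_le_pow_left₀ hr0 hVr 2
  have T2 : (V * r) ^ 2 * H ^ k ≤ (96000 * C) ^ 2 * t ^ (2 * (k + 1)) := by
    calc (V * r) ^ 2 * H ^ k ≤ (96000 * C * t) ^ 2 * (t ^ 2) ^ k := by gcongr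
      _ = (96000 * C) ^ 2 * t ^ (2 * (k + 1)) := by
          rw [← pow_mul, show 2 * (k + 1) = 2 + 2 * k by ring, pow_add]
          ring
  have T3 : s ^ (k + 1) * H ^ k ≤ (192000 * C) ^ (k + 1) * t ^ (2 * (k + 1)) := by
    have h1 : s ≤ 192000 * C * t := by linarith
    calc s ^ (k + 1) * H ^ k ≤ (192000 * C * t) ^ (k + 1) * t ^ (k + 1) := by gcongr
      _ = (192000 * C) ^ (k + 1) * t ^ (2 * (k + 1)) := by
          rw [mul_pow, show 2 * (k + 1) = (k + 1) + (k + 1) by ring, pow_add]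
          ring
  have T4 : e * H ^ k ≤ 2 ^ (k + 1) * (16 * (C3 * (96000 * t) ^ (2 * (k + 1)))) +
      (8 * 2 ^ (k + 1) + 4 * (6 * ((k + 1 : ℕ) : ℝ)) ^ (k + 1)) *
        ((96000 * C) ^ 2 * t ^ (2 * (k + 1))) := by
    calc e * H ^ k ≤ (2 ^ (k + 1) * (16 * V ^ (2 * (k + 1)) * E) +
          (8 * 2 ^ (k + 1) + 4 * (6 * ((k + 1 : ℕ) : ℝ)) ^ (k + 1)) * (V * r) ^ 2) * H ^ k :=
          mul_le_mul_of_nonneg_right he hHk0
      _ = 2 ^ (k + 1) * (16 * (V ^ (2 * (k + 1)) * E * H ^ k)) +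
          (8 * 2 ^ (k + 1) + 4 * (6 * ((k + 1 : ℕ) : ℝ)) ^ (k + 1)) *
            ((V * r) ^ 2 * H ^ k) := by ring
      _ ≤ _ := by gcongr
  calc (s ^ (k + 1) + 2 * e) * H ^ k = s ^ (k + 1) * H ^ k + 2 * (e * H ^ k) := by ring
    _ ≤ (192000 * C) ^ (k + 1) * t ^ (2 * (k + 1)) +
        2 * (2 ^ (k + 1) * (16 * (C3 * (96000 * t) ^ (2 * (k + 1)))) +
      (8 * 2 ^ (k + 1) + 4 * (6 * ((k + 1 : ℕ) : ℝ)) ^ (k + 1)) *
        ((96000 * C) ^ 2 * t ^ (2 * (k + 1)))) := by linarith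
    _ = _ := by
        rw [mul_pow (96000 : ℝ) t]
        ring

/-- Large `y` (`hE κ y ≤ y (log y)²`, `wE y ≥ (log y)²`). -/
theorem E10_large (κ : ℝ) (hκ : 0 < κ) (hκ1 : κ ≤ 1) (k : ℕ) : ∃ y₀ : ℕ, ∀ y : ℕ, y₀ ≤ y →
    (hE κ y : ℝ) ^ k ≤ (κ * y) ^ (k + 1) ∧ (hE κ y : ℝ) ≤ (κ * y) ^ 2 ∧
      16 * (((k + 1 : ℕ) : ℝ)) ^ 3 * log (hE κ y) / wE y ≤ 1 / 2 := by
  obtain ⟨y1, hy1⟩ := er_sizes κ hκ hκ1
  have t1 : Filter.Tendsto (fun y : ℕ => log (y : ℝ)) Filter.atTop Filter.atTop :=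
    Real.tendsto_log_atTop.comp tendsto_natCast_atTop_atTop
  have t2 : ∀ (n : ℕ) (c : ℝ), 0 < c → ∀ᶠ y : ℕ in Filter.atTop, log (y : ℝ) ^ n ≤ c * y := by
    intro n c hc
    have h1 := (isLittleO_pow_log_id_atTop (n := n)).def hc
    have h2 := tendsto_natCast_atTop_atTop (R := ℝ) |>.eventually h1
    filter_upwards [h2, Filter.eventually_ge_atTop 1] with y hy hy1
    have h3 : (1 : ℝ) ≤ y := by exact_mod_cast hy1
    have h4 : 0 ≤ log (y : ℝ) := Real.log_nonneg h3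
    rw [Real.norm_of_nonneg (by positivity)] at hy
    simpa [Real.norm_of_nonneg (show (0 : ℝ) ≤ y by linarith)] using hy
  have main := (t2 (2 * k) (κ ^ (k + 1)) (by positivity)).and
    ((t2 2 (κ ^ 2) (by positivity)).and
      ((t1.eventually_ge_atTop (64 * (((k + 1 : ℕ) : ℝ)) ^ 3)).and
        (Filter.eventually_ge_atTop y1)))
  obtain ⟨y₀, hy₀⟩ := Filter.eventually_atTop.mp main
  refine ⟨y₀, fun y hy => ?_⟩
  obtain ⟨m1, m2, m3, m4⟩ := hy₀ y hy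
  obtain ⟨s1, s2, s3, s4, s5, s6, s7, s8, s9, s10, s11, s12, s13, s14, s15, s16, s17, s18⟩ :=
    hy1 y m4
  have hL0 : 0 < log (y : ℝ) := by linarith
  have hy0 : (0 : ℝ) < y := by
    by_contra h
    have h1 : (y : ℝ) = 0 := le_antisymm (not_lt.1 h) (Nat.cast_nonneg y)
    rw [h1, Real.log_zero] at hL0
    exact lt_irrefl _ hL0
  have hH2 : (hE κ y : ℝ) ≤ (κ * y) ^ 2 := by
    calc (hE κ y : ℝ) ≤ y * (log y) ^ 2 := s10
      _ ≤ y * (κ ^ 2 * y) := by gcongr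
      _ = (κ * y) ^ 2 := by ring
  refine ⟨?_, hH2, ?_⟩
  · calc (hE κ y : ℝ) ^ k ≤ (y * (log y) ^ 2) ^ k := pow_le_pow_left₀ (Nat.cast_nonneg _) s10 k
      _ = (y : ℝ) ^ k * log (y : ℝ) ^ (2 * k) := by rw [mul_pow, ← pow_mul]
      _ ≤ (y : ℝ) ^ k * (κ ^ (k + 1) * y) := by gcongr
      _ = (κ * y) ^ (k + 1) := by ring
  · have hHpos : (0 : ℝ) < hE κ y := lt_of_lt_of_le (by positivity) s13
    have h1 : log (hE κ y : ℝ) ≤ 2 * log (y : ℝ) := by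
      have h2 : (hE κ y : ℝ) ≤ (y : ℝ) ^ 2 := by
        refine hH2.trans (pow_le_pow_left₀ (by positivity) ?_ 2)
        calc κ * (y : ℝ) ≤ 1 * y := by gcongr
          _ = y := one_mul _
      calc log (hE κ y : ℝ) ≤ log ((y : ℝ) ^ 2) := Real.log_le_log hHpos h2
        _ = 2 * log (y : ℝ) := by rw [Real.log_pow]; norm_num
    have h3 : (log (y : ℝ)) ^ 2 ≤ wE y := Nat.le_ceil _
    have hw : (0 : ℝ) < wE y := lt_of_lt_of_le (by positivity) h3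
    rw [div_le_iff₀ hw]
    have h4 : (0 : ℝ) ≤ (((k + 1 : ℕ) : ℝ)) ^ 3 := by positivity
    calc 16 * (((k + 1 : ℕ) : ℝ)) ^ 3 * log (hE κ y : ℝ)
        ≤ 16 * (((k + 1 : ℕ) : ℝ)) ^ 3 * (2 * log (y : ℝ)) := by gcongr
      _ = 1 / 2 * (64 * (((k + 1 : ℕ) : ℝ)) ^ 3 * log (y : ℝ)) := by ring
      _ ≤ 1 / 2 * (log (y : ℝ) * log (y : ℝ)) := by gcongr
      _ = 1 / 2 * (log (y : ℝ)) ^ 2 := by ring
      _ ≤ 1 / 2 * wE y := by gcongr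

/-- As `H92V.er_en` (copy its proof), with `average_eK` (`K = k + 1`) in place of `average_en`,
`mz_RE` and `eK_le_mz`, `E10_arith`, `E10_large`. -/
theorem er_eK (k : ℕ) : ∃ c1 C1 : ℝ, 0 < c1 ∧ 0 < C1 ∧ ∀ κ : ℝ, 0 < κ → κ ≤ 1 → ∃ y₀ : ℕ,
    ∀ y : ℕ, y₀ ≤ y → ∀ (D : Finset ℕ) (p1 : ℕ), OKD y D p1 → ∃ a : ℕ,
      c1 * (κ * y) ≤ (SE κ y (MM y D p1) a).card ∧
      ((SE κ y (MM y D p1) a).card : ℝ) ≤ C1 * (κ * y) ∧
      (((SE κ y (MM y D p1) a).card : ℝ) ^ (k + 1) +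
        2 * eK (k + 1) (SE κ y (MM y D p1) a) (hE κ y)) * (hE κ y : ℝ) ^ k ≤
        C1 * (κ * y) ^ (2 * (k + 1)) := by
  obtain ⟨c, hc, hlow⟩ := re_lower
  obtain ⟨C, hC, hup⟩ := re_upper
  obtain ⟨C3, hC3, hen⟩ := mz_RE k
  obtain ⟨Q, hQ⟩ : ∃ Q : ℝ, Q = (192000 * C) ^ (k + 1) +
    2 * (2 ^ (k + 1) * 16 * (C3 * 96000 ^ (2 * (k + 1))) +
      (8 * 2 ^ (k + 1) + 4 * (6 * ((k + 1 : ℕ) : ℝ)) ^ (k + 1)) * (96000 * C) ^ 2) := ⟨_, rfl⟩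
  have hQ0 : 0 < Q := by rw [hQ]; positivity
  refine ⟨8 / 1000 * c, 192000 * C + Q, by positivity, by positivity, fun κ hκ hκ1 => ?_⟩
  obtain ⟨y1, hy1⟩ := er_sizes κ hκ hκ1
  obtain ⟨y2, hy2⟩ := hlow κ hκ hκ1
  obtain ⟨y3, hy3⟩ := hup κ hκ hκ1
  obtain ⟨y4, hy4⟩ := hen κ hκ hκ1
  obtain ⟨y5, hy5⟩ := er_crt κ hκ hκ1
  obtain ⟨y6, hy6⟩ := exists_nat_ge (64 / (16 / 1000 * c * κ))
  obtain ⟨y7, hy7⟩ := E10_large κ hκ hκ1 k
  refine ⟨max (max (max y1 y2) (max y3 y4)) (max (max y5 (y6 + 1)) y7), fun y hy D p1 hD => ?_⟩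
  simp only [max_le_iff] at hy
  obtain ⟨⟨⟨hya, hyb⟩, hyc, hyd⟩, ⟨hye, hyf⟩, hyg⟩ := hy
  obtain ⟨s1, s2, s3, s4, s5, s6, s7, s8, s9, s10, s11, s12, s13, s14, s15, s16, s17, s18⟩ :=
    hy1 y hya
  have hR1 := hy2 y hyb D p1 hD
  have hR2 := hy3 y hyc D p1 hD
  have hR3 := hy4 y hyd D p1 hD
  have hcrt := hy5 y hye D p1 hD
  obtain ⟨g1, g2, g3⟩ := hy7 y hyg
  have hy0 : (0 : ℝ) < y := by
    have : 0 < y := by omega
    exact_mod_cast this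
  obtain ⟨v1, v2⟩ := pz_bounds y p1 s4 s5
  have hlz : 0 < log (zE y : ℝ) := lt_of_lt_of_le (by positivity) s14
  obtain ⟨A, hA, c1, c2, c3, c4⟩ := ER7b_arith κ y (log y) (log (log y)) (log (log (log y)))
    (hE κ y) (log (wE y)) (log (zE y)) (∏ p ∈ PZ y p1, (1 - 1 / (p : ℝ))) hκ hy0 (by linarith)
    (by linarith) (by linarith) hlz s11 s12 s14 s15 s16 s17 v1 v2
  set V : ℝ := ∏ p ∈ PZ y p1, (1 - 1 / (p : ℝ)) with hV
  set R := RE κ y D p1 with hR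
  have hV0 : 0 < V := lt_of_lt_of_le (by positivity) c1
  have hVR1 : 16 / 1000 * c * (κ * y) ≤ V * R.card := by
    calc 16 / 1000 * c * (κ * y) = (16 / 500 * A) * (c * (κ * y / (2 * A))) := by
          field_simp
          ring
      _ ≤ V * (c * (hE κ y / log y)) := by gcongr
      _ ≤ V * R.card := by gcongr
  have hVR2 : V * R.card ≤ 96000 * C * (κ * y) := by
    calc V * R.card ≤ V * (C * (hE κ y / log y)) := by gcongr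
      _ ≤ (96000 * A) * (C * (κ * y / A)) := by gcongr
      _ = _ := by field_simp
  have hμ : 64 ≤ V * R.card := by
    refine le_trans ?_ hVR1
    have h1 : 64 / (16 / 1000 * c * κ) ≤ (y : ℝ) := by
      refine hy6.trans ?_
      exact_mod_cast (by omega : y6 ≤ y)
    rw [div_le_iff₀ (by positivity)] at h1
    linarith
  obtain ⟨a1, -, d1, d2, d3⟩ := average_eK (k + 1) (by omega) (PZ y p1) (wE y) (hE κ y) s4
    (fun p hp => by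
      unfold PZ at hp
      rw [mem_filter, mem_Ioc] at hp
      exact ⟨hp.2.1, hp.1.1⟩) R
    (fun h hh => by
      rw [hR] at hh
      unfold RE at hh
      rw [mem_filter, mem_Icc] at hh
      exact hh.1) s18 g3 hμ
  rw [← hV] at d1 d2 d3
  obtain ⟨a, ha⟩ := hcrt a1
  have hEn : (eK (k + 1) R (hE κ y) : ℝ) ≤
      C3 * (hE κ y : ℝ) ^ (k + 2) / (log y) ^ (2 * (k + 1)) := by
    refine le_trans ?_ hR3
    exact_mod_cast eK_le_mz (k + 1) R (hE κ y)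
  have harith := E10_arith k V R.card (eK (k + 1) R (hE κ y)) (hE κ y) (log y) (κ * y) C C3 A
    ((R.filter (fun h => ∀ p ∈ PZ y p1, ¬ p ∣ a1 + h)).card : ℝ)
    (eK (k + 1) (R.filter (fun h => ∀ p ∈ PZ y p1, ¬ p ∣ a1 + h)) (hE κ y) : ℝ) hV0
    (Nat.cast_nonneg _) (Nat.cast_nonneg _) (by linarith) (by positivity) hC.le hC3.le hA
    (Nat.cast_nonneg _) c2 c4 hVR2 hEn g2 g1 d2 d3
  rw [← hQ] at harith
  refine ⟨a, ?_, ?_, ?_⟩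
  · rw [ha]
    refine le_trans ?_ d1
    linarith
  · rw [ha]
    refine d2.trans ?_
    have : 0 ≤ Q * (κ * y) := by positivity
    linarith
  · rw [ha]
    refine harith.trans ?_
    have : 0 ≤ 192000 * C * (κ * y) ^ (2 * (k + 1)) := by positivity
    linarith

end Pool.Agent.Lib.H77V
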