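import Pool.Agent.Lib.H77V.KD

/-!
# Chunk KC2: trivial bound of the brackets
-/

open Finset
open Pool.Agent.Lib.H56G
open Pool.Agent.Lib.H5C

namespace Pool.Agent.Lib.H77V

variable {ι J : Type} [Fintype ι] [DecidableEq ι] [Fintype J] [DecidableEq J]

private theorem kc2_sum (s : Sys ι J) (z θ : ℝ) (hθ : 0 ≤ θ) (hθ1 : θ ≤ 1) (hS : 0 < SS s z)
    (D : ℝ) (κ : ι → Option J) :
    ∑ A ∈ (free κ).powerset, |gD s (tb s z θ) D κ A| ≤ 2 := by
  have h0 := tb_nonneg s z θ hθ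
  have h1 : ∀ A ∈ (free κ).powerset, |gD s (tb s z θ) D κ A| ≤
      (if A = ∅ then (1 : ℝ) else 0) + (if A ≠ ∅ then tb s z θ A else 0) := by
    intro A _
    unfold gD
    by_cases hE : A = ∅
    · rw [if_pos hE, if_pos hE, if_neg (not_not.2 hE)]
      simp
    · rw [if_neg hE, if_neg hE, if_pos hE]
      by_cases hD : s.r κ * s.rho A ≤ D
      · rw [if_pos hD, abs_neg, abs_of_nonneg (h0 A), zero_add]
      · rw [if_neg hD, abs_zero, zero_add]
        exact h0 A
  have h2 : ∑ A ∈ (free κ).powerset, (if A = ∅ then (1 : ℝ) else 0) = 1 := by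
    rw [Finset.sum_ite_eq' (free κ).powerset ∅ (fun _ => (1 : ℝ)),
      if_pos (empty_mem_powerset (free κ))]
  have h3 : ∑ A ∈ (free κ).powerset, (if A ≠ ∅ then tb s z θ A else 0) ≤ θ := by
    rw [← Finset.sum_filter]
    conv_rhs => rw [← tb_sum s z θ hS]
    refine Finset.sum_le_sum_of_subset_of_nonneg ?_ fun A _ _ => h0 A
    intro A hA
    rw [mem_filter] at hA ⊢
    exact ⟨mem_univ _, hA.2⟩
  calc ∑ A ∈ (free κ).powerset, |gD s (tb s z θ) D κ A|
      ≤ ∑ A ∈ (free κ).powerset,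
        ((if A = ∅ then (1 : ℝ) else 0) + (if A ≠ ∅ then tb s z θ A else 0)) :=
        Finset.sum_le_sum h1
    _ = ∑ A ∈ (free κ).powerset, (if A = ∅ then (1 : ℝ) else 0) +
        ∑ A ∈ (free κ).powerset, (if A ≠ ∅ then tb s z θ A else 0) :=
        Finset.sum_add_distrib
    _ ≤ 2 := by linarith

/-- `|wL| ≤ 2^n`: `∑_{A ⊆ free κ} |gD κ A| ≤ 1 + ∑_{A ≠ ∅} tb A = 1 + θ ≤ 2` (`tb_nonneg`, `tb_sum`). -/
theorem abs_wL_le (s : Sys ι J) (z θ : ℝ) (hθ : 0 ≤ θ) (hθ1 : θ ≤ 1) (hS : 0 < SS s z) (D : ℝ)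
    (js : List J) (κ : ι → Option J) : |wL s (tb s z θ) D js κ| ≤ 2 ^ js.length := by
  induction js generalizing κ with
  | nil => simp [wL]
  | cons j js ih =>
    show |∑ A ∈ (free κ).powerset, gD s (tb s z θ) D κ A * wL s (tb s z θ) D js (ins κ j A)| ≤ _
    have hp : (0 : ℝ) ≤ 2 ^ js.length := by positivity
    calc |∑ A ∈ (free κ).powerset, gD s (tb s z θ) D κ A * wL s (tb s z θ) D js (ins κ j A)|
        ≤ ∑ A ∈ (free κ).powerset,
          |gD s (tb s z θ) D κ A * wL s (tb s z θ) D js (ins κ j A)| :=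
          Finset.abs_sum_le_sum_abs _ _
      _ ≤ ∑ A ∈ (free κ).powerset, |gD s (tb s z θ) D κ A| * 2 ^ js.length := by
          refine Finset.sum_le_sum fun A _ => ?_
          rw [abs_mul]
          exact mul_le_mul_of_nonneg_left (ih (ins κ j A)) (abs_nonneg _)
      _ = (∑ A ∈ (free κ).powerset, |gD s (tb s z θ) D κ A|) * 2 ^ js.length := by
          rw [Finset.sum_mul]
      _ ≤ 2 * 2 ^ js.length :=
          mul_le_mul_of_nonneg_right (kc2_sum s z θ hθ hθ1 hS D κ) hp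
      _ = 2 ^ (j :: js).length := by
          rw [List.length_cons, pow_succ]
          ring

end Pool.Agent.Lib.H77V
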