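import Pool.Agent.Lib.H77V.KD

/-!
# Chunk KC3: the brackets of small level
-/

open Finset
open Pool.Agent.Lib.H56G
open Pool.Agent.Lib.H5C

namespace Pool.Agent.Lib.H77V

variable {ι J : Type} [Fintype ι] [DecidableEq ι] [Fintype J] [DecidableEq J]

private theorem KC3_split (s : Sys ι J) (bb : Finset ι → ℝ) (D : ℝ) (κ : ι → Option J) (f : ℝ → ℝ) (h0 : f 0 = 0)
    (h1 : f 1 = 1) :
    ∑ A ∈ (free κ).powerset, f (gD s bb D κ A) =
      1 + ∑ A ∈ (free κ).powerset.filter (fun A => A ≠ ∅ ∧ s.r κ * s.rho A ≤ D), f (- bb A) := by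
  rw [← Finset.sum_erase_add _ _ (empty_mem_powerset (free κ))]
  have he : f (gD s bb D κ ∅) = 1 := by
    unfold gD
    rw [if_pos rfl, h1]
  rw [he, add_comm]
  congr 1
  rw [Finset.sum_filter]
  rw [← Finset.sum_erase_add (free κ).powerset _ (empty_mem_powerset (free κ))]
  simp only [ne_eq, not_true_eq_false, false_and, if_false, add_zero]
  refine Finset.sum_congr rfl fun A hA => ?_
  have hE : A ≠ ∅ := Finset.ne_of_mem_erase hA
  unfold gD
  rw [if_neg hE]
  by_cases hD : s.r κ * s.rho A ≤ D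
  · simp [hE, hD]
  · simp [hE, hD, h0]

private theorem KC3_sum (s : Sys ι J) (bb : Finset ι → ℝ) (D : ℝ) (κ : ι → Option J) :
    ∑ A ∈ (free κ).powerset, gD s bb D κ A = br s bb D κ := by
  have h := KC3_split s bb D κ id rfl rfl
  simp only [id] at h
  rw [h, Finset.sum_neg_distrib]
  unfold br
  ring

private theorem KC3_abs (s : Sys ι J) (z θ : ℝ) (hθ : 0 ≤ θ) (D : ℝ) (κ : ι → Option J) :
    ∑ A ∈ (free κ).powerset, |gD s (tb s z θ) D κ A| = 2 - br s (tb s z θ) D κ := by
  have h := KC3_split s (tb s z θ) D κ (fun x => |x|) abs_zero abs_one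
  rw [h]
  have h2 : ∀ A, |-(tb s z θ A)| = tb s z θ A := fun A => by
    rw [abs_neg, abs_of_nonneg (tb_nonneg s z θ hθ A)]
  simp only [h2]
  unfold br
  ring

/-- If `r κ z^n ≤ D`, `n = |js|`: `|wL js κ - (1-θ)^n| ≤ (2^n - 1) τ`. Induction on `js`, all `κ`. Step: put
`m = ∑_{∅ ≠ A ⊆ free κ, r κ ρ A ≤ D} tb A`; then `1 - m = br κ ∈ [1-θ, 1-θ+τ]` (`br_bounds`, `br_le`, `r κ z ≤ D`);
for `A` with `tb A ≠ 0` we have `ρ A ≤ z` (`tb_rho`), so `r (ins κ j A) z^n ≤ r κ z^(n+1) ≤ D` (`r_ins`) and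
`|wL js (ins κ j A) - (1-θ)^n| ≤ (2^n - 1) τ`. Hence `wL (j :: js) κ = (1 - m)(1-θ)^n + E` with
`|E| ≤ (1 + m)(2^n - 1) τ ≤ 2 (2^n - 1) τ`, and `|(1 - m)(1-θ)^n - (1-θ)^(n+1)| ≤ τ`. -/
theorem wL_near (s : Sys ι J) (z θ : ℝ) (hθ : 0 ≤ θ) (hθ1 : θ ≤ 1) (hz : 1 ≤ z)
    (hS : 0 < SS s z) (D τ : ℝ) (hτ0 : 0 ≤ τ)
    (hτ : ∀ κ : ι → Option J, s.r κ ≤ D →
      ∑ i ∈ supp κ, ∑ A ∈ univ.filter (fun A : Finset ι => i ∈ A), tb s z θ A ≤ τ)
    (js : List J) (κ : ι → Option J) (hr : s.r κ * z ^ js.length ≤ D) :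
    |wL s (tb s z θ) D js κ - (1 - θ) ^ js.length| ≤ (2 ^ js.length - 1) * τ := by
  induction js generalizing κ with
  | nil => simp [wL]
  | cons j js ih =>
    rw [List.length_cons] at hr ⊢
    have hr1 : 1 ≤ s.r κ := one_le_rho s (supp κ)
    have hr0 : 0 ≤ s.r κ := by linarith
    have hzn : 1 ≤ z ^ js.length := one_le_pow₀ hz
    have hz0 : 0 ≤ z := by linarith
    have hrz : s.r κ * z ≤ D := by
      refine le_trans ?_ hr
      rw [pow_succ, ← mul_assoc]
      exact mul_le_mul_of_nonneg_right (le_mul_of_one_le_right hr0 hzn) hz0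
    have hrD : s.r κ ≤ D := (le_mul_of_one_le_right hr0 hz).trans hrz
    have hb := br_bounds s z θ hθ hS D κ
    have hb2 := br_le s z θ hθ hS D κ hrz
    have hb3 := hτ κ hrD
    have h2n : (1 : ℝ) ≤ 2 ^ js.length := one_le_pow₀ (by norm_num)
    have hBn : 0 ≤ (2 ^ js.length - 1) * τ := mul_nonneg (by linarith) hτ0
    have hterm : ∀ A ∈ (free κ).powerset, |gD s (tb s z θ) D κ A *
        (wL s (tb s z θ) D js (ins κ j A) - (1 - θ) ^ js.length)| ≤
        |gD s (tb s z θ) D κ A| * ((2 ^ js.length - 1) * τ) := by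
      intro A hA
      rw [mem_powerset] at hA
      rw [abs_mul]
      by_cases hg : gD s (tb s z θ) D κ A = 0
      · rw [hg, abs_zero, zero_mul, zero_mul]
      · refine mul_le_mul_of_nonneg_left ?_ (abs_nonneg _)
        have hrho : s.rho A ≤ z := by
          by_cases hE : A = ∅
          · subst hE
            have : s.rho ∅ = 1 := by simp [Sys.rho]
            rw [this]
            exact hz
          · unfold gD at hg
            rw [if_neg hE] at hg
            apply tb_rho s z θ A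
            intro h0
            apply hg
            rw [h0]
            simp
        apply ih
        rw [r_ins s κ j A hA]
        refine le_trans ?_ hr
        rw [pow_succ, mul_assoc, mul_comm (z ^ js.length) z]
        refine mul_le_mul_of_nonneg_left ?_ hr0
        exact mul_le_mul_of_nonneg_right hrho (by positivity)
    have hsum : |∑ A ∈ (free κ).powerset, gD s (tb s z θ) D κ A *
        (wL s (tb s z θ) D js (ins κ j A) - (1 - θ) ^ js.length)| ≤
        2 * ((2 ^ js.length - 1) * τ) := by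
      refine (Finset.abs_sum_le_sum_abs _ _).trans ((Finset.sum_le_sum hterm).trans ?_)
      rw [← Finset.sum_mul, KC3_abs s z θ hθ D κ]
      exact mul_le_mul_of_nonneg_right (by linarith) hBn
    have heq : wL s (tb s z θ) D (j :: js) κ - (1 - θ) ^ (js.length + 1) =
        ∑ A ∈ (free κ).powerset, gD s (tb s z θ) D κ A *
          (wL s (tb s z θ) D js (ins κ j A) - (1 - θ) ^ js.length) +
        (br s (tb s z θ) D κ - (1 - θ)) * (1 - θ) ^ js.length := by
      have h1 : ∑ A ∈ (free κ).powerset, gD s (tb s z θ) D κ A *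
          (wL s (tb s z θ) D js (ins κ j A) - (1 - θ) ^ js.length) =
          wL s (tb s z θ) D (j :: js) κ - br s (tb s z θ) D κ * (1 - θ) ^ js.length := by
        simp only [mul_sub]
        rw [Finset.sum_sub_distrib, ← Finset.sum_mul, KC3_sum]
        rfl
      rw [h1, pow_succ]
      ring
    have hq0 : 0 ≤ (1 - θ) ^ js.length := pow_nonneg (by linarith) _
    have hq1 : (1 - θ) ^ js.length ≤ 1 := pow_le_one₀ (by linarith) (by linarith)
    have hlast : |(br s (tb s z θ) D κ - (1 - θ)) * (1 - θ) ^ js.length| ≤ τ := by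
      rw [abs_mul, abs_of_nonneg hq0, abs_of_nonneg (by linarith)]
      calc (br s (tb s z θ) D κ - (1 - θ)) * (1 - θ) ^ js.length ≤ τ * 1 :=
            mul_le_mul (by linarith) hq1 hq0 hτ0
        _ = τ := mul_one τ
    rw [heq]
    refine (abs_add_le _ _).trans ?_
    rw [pow_succ]
    linarith

end Pool.Agent.Lib.H77V
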