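import Pool.Agent.Lib.H77V.KC1
import Pool.Agent.Lib.H77V.KC2
import Pool.Agent.Lib.H77V.KC3

/-!
# Chunk KC4: sum of the squares of the coefficients
-/

open Finset
open Pool.Agent.Lib.H56G
open Pool.Agent.Lib.H5C

namespace Pool.Agent.Lib.H77V

variable {ι J : Type} [Fintype ι] [DecidableEq ι] [Fintype J] [DecidableEq J]

/-- As `sum_cp_cr_sq` (`TH4.lean`), with `crL_cc`, `abs_wL_le`, `wL_near`: the terms with `r κ z^n ≤ D` are at
most `((1-θ)^n + 2^n τ)² wt κ`, those with `r κ ≤ D < r κ z^n` at most `4^n wt κ`, the others are `0`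
(`cc_sq_mul_ph`). -/
theorem sum_crL_sq (s : Sys ι J) (z θ : ℝ) (hθ : 0 ≤ θ) (hθ1 : θ ≤ 1) (hz : 1 ≤ z)
    (hS : 0 < SS s z) (D τ ε : ℝ) (hτ0 : 0 ≤ τ)
    (hτ : ∀ κ : ι → Option J, s.r κ ≤ D →
      ∑ i ∈ supp κ, ∑ A ∈ univ.filter (fun A : Finset ι => i ∈ A), tb s z θ A ≤ τ)
    (js : List J) (hnd : js.Nodup)
    (hε : ∑ κ ∈ univ.filter (fun κ : ι → Option J => D < s.r κ * z ^ js.length),
      wt s (tb s z θ) κ ≤ ε * ZZ s (tb s z θ)) :
    ∑ κ, (crL js (cc s (tb s z θ) D) κ) ^ 2 * s.ph κ ≤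
      (((1 - θ) ^ js.length + 2 ^ js.length * τ) ^ 2 + 4 ^ js.length * ε) *
        ZZ s (tb s z θ) := by
  set n := js.length with hn
  set T := (1 - θ) ^ n + 2 ^ n * τ with hT
  have hT0 : 0 ≤ T := by
    have h1 : 0 ≤ (1 - θ) ^ n := pow_nonneg (sub_nonneg.mpr hθ1) n
    positivity
  have hph : ∀ κ : ι → Option J, 0 ≤ s.ph κ := fun κ =>
    zero_le_one.trans (one_le_phi s (supp κ))
  have h4n : (0 : ℝ) ≤ 4 ^ n := by positivity
  have hterm : ∀ κ ∈ (univ : Finset (ι → Option J)),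
      (crL js (cc s (tb s z θ) D) κ) ^ 2 * s.ph κ ≤
      T ^ 2 * wt s (tb s z θ) κ +
        if D < s.r κ * z ^ n then 4 ^ n * wt s (tb s z θ) κ else 0 := by
    intro κ _
    have hw := wt_nonneg s (tb s z θ) κ
    have hT2 : 0 ≤ T ^ 2 * wt s (tb s z θ) κ := by positivity
    have h4w : 0 ≤ 4 ^ n * wt s (tb s z θ) κ := mul_nonneg h4n hw
    have hif : 0 ≤ (if D < s.r κ * z ^ n then 4 ^ n * wt s (tb s z θ) κ else 0) := by
      split_ifs
      · exact h4w
      · exact le_refl 0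
    rw [crL_cc s (tb s z θ) D js hnd κ]
    by_cases hall : ∀ j ∈ js, κ ∈ noJ j
    · rw [if_pos hall]
      rcases lt_or_ge D (s.r κ) with hr | hr
      · have h2 : cc s (tb s z θ) D κ = 0 := by
          unfold cc
          rw [if_neg (not_le.2 hr)]
        rw [h2, zero_mul]
        have h3 : (0 : ℝ) ^ 2 * s.ph κ = 0 := by ring
        rw [h3]
        linarith
      · have h5 := cc_sq_mul_ph s (tb s z θ) D κ hr
        have h6 : (cc s (tb s z θ) D κ * wL s (tb s z θ) D js κ) ^ 2 * s.ph κ =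
            (wL s (tb s z θ) D js κ) ^ 2 * ((cc s (tb s z θ) D κ) ^ 2 * s.ph κ) := by ring
        rw [h6, h5]
        rcases lt_or_ge D (s.r κ * z ^ n) with hz2 | hz2
        · rw [if_pos hz2]
          have h7 := abs_wL_le s z θ hθ hθ1 hS D js κ
          have h8 : (wL s (tb s z θ) D js κ) ^ 2 ≤ 4 ^ n := by
            have h9 : (wL s (tb s z θ) D js κ) ^ 2 ≤ (2 ^ n) ^ 2 := by
              rw [← sq_abs]
              exact pow_le_pow_left₀ (abs_nonneg _) h7 2
            have h10 : ((2 : ℝ) ^ n) ^ 2 = 4 ^ n := by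
              rw [← pow_mul, mul_comm, pow_mul]
              norm_num
            rw [h10] at h9
            exact h9
          have h11 := mul_le_mul_of_nonneg_right h8 hw
          linarith
        · rw [if_neg (not_lt.2 hz2), add_zero]
          have h7 := wL_near s z θ hθ hθ1 hz hS D τ hτ0 hτ js κ hz2
          have h8 : |wL s (tb s z θ) D js κ| ≤ T := by
            have h9 : |wL s (tb s z θ) D js κ| ≤
                |wL s (tb s z θ) D js κ - (1 - θ) ^ js.length| + |(1 - θ) ^ js.length| := by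
              have h12 := abs_add_le (wL s (tb s z θ) D js κ - (1 - θ) ^ js.length)
                ((1 - θ) ^ js.length)
              rwa [sub_add_cancel] at h12
            have h10 : |(1 - θ) ^ js.length| = (1 - θ) ^ js.length :=
              abs_of_nonneg (pow_nonneg (sub_nonneg.mpr hθ1) _)
            rw [h10] at h9
            have h13 : (2 ^ js.length - 1) * τ ≤ 2 ^ js.length * τ := by nlinarith
            rw [hT, hn]
            linarith
          have h14 : (wL s (tb s z θ) D js κ) ^ 2 ≤ T ^ 2 := by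
            rw [← sq_abs]
            exact pow_le_pow_left₀ (abs_nonneg _) h8 2
          exact mul_le_mul_of_nonneg_right h14 hw
    · rw [if_neg hall]
      have h3 : (0 : ℝ) ^ 2 * s.ph κ = 0 := by ring
      rw [h3]
      linarith
  calc ∑ κ, (crL js (cc s (tb s z θ) D) κ) ^ 2 * s.ph κ
      ≤ ∑ κ, (T ^ 2 * wt s (tb s z θ) κ +
          if D < s.r κ * z ^ n then 4 ^ n * wt s (tb s z θ) κ else 0) :=
        Finset.sum_le_sum hterm
    _ = T ^ 2 * ZZ s (tb s z θ) +
        4 ^ n * ∑ κ ∈ univ.filter (fun κ : ι → Option J => D < s.r κ * z ^ n),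
          wt s (tb s z θ) κ := by
        rw [Finset.sum_add_distrib, ← Finset.mul_sum, ← Finset.sum_filter, ← Finset.mul_sum]
        rfl
    _ ≤ T ^ 2 * ZZ s (tb s z θ) + 4 ^ n * (ε * ZZ s (tb s z θ)) :=
        add_le_add (le_refl _) (mul_le_mul_of_nonneg_left hε h4n)
    _ = (T ^ 2 + 4 ^ n * ε) * ZZ s (tb s z θ) := by ring

end Pool.Agent.Lib.H77V
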