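import Pool.Agent.Lib.H77V.KD

/-!
# Chunk KN2: numbers for `K` forms: `ps` against `ph`
-/

open Finset Real
open Pool.Agent.Lib.H5C

namespace Pool.Agent.Lib.H77V

/-- `log N ≤ δ log X/8 ≤ log X`, `R + 1 ≤ 2 log X`, `W ≥ (log X)^16`: the exponent is at most
`4 (K+1) (log X)^(-14) ≤ 1/4` for large `X`, and `exp (1/4) ≤ 3/2` (see `par_core`, `H5C/PAR.lean`). -/
theorem par_K2 (K : ℕ) (hK : 1 ≤ K) (δ : ℝ) (hδ : 0 < δ) (hδK : δ * K ≤ 1 / 100) :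
    ∃ X₀ : ℕ, ∀ X : ℕ, X₀ ≤ X → ∀ R : ℕ, (R : ℝ) ≤ log X →
    exp (2 * (R + 1) * ((K + 1) * log (NX δ X)) / WX X) ≤ 3 / 2 := by
  refine ⟨⌈exp 2⌉₊, ?_⟩
  intro X hX R hR
  have hXe : exp 2 ≤ (X : ℝ) := (Nat.le_ceil _).trans (by exact_mod_cast hX)
  have hX0 : (0 : ℝ) < X := (exp_pos 2).trans_le hXe
  set L := log (X : ℝ) with hL
  have hL2 : 2 ≤ L := by
    have := log_le_log (exp_pos 2) hXe
    rwa [log_exp] at this
  have hW1 : L ^ 16 ≤ (WX X : ℝ) := by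
    unfold WX
    rw [← hL]
    exact Nat.le_ceil _
  have hWpos : (0 : ℝ) < WX X := lt_of_lt_of_le (by positivity) hW1
  have hK1 : (1 : ℝ) ≤ K := by exact_mod_cast hK
  have hN0 : 0 ≤ log (NX δ X : ℝ) := log_natCast_nonneg _
  have hN1 : log (NX δ X : ℝ) ≤ δ / 8 * L := by
    have hle : (NX δ X : ℝ) ≤ (X : ℝ) ^ (δ / 8) := by
      unfold NX
      exact Nat.floor_le (by positivity)
    rcases Nat.eq_zero_or_pos (NX δ X) with h0 | h0
    · rw [h0]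
      simp only [Nat.cast_zero, log_zero]
      positivity
    · have hp : (0 : ℝ) < (NX δ X : ℝ) := by exact_mod_cast h0
      have h1 := log_le_log hp hle
      rwa [log_rpow hX0] at h1
  have hKN : ((K : ℝ) + 1) * log (NX δ X : ℝ) ≤ L / 400 := by
    have h1 : ((K : ℝ) + 1) * log (NX δ X : ℝ) ≤ (2 * K) * (δ / 8 * L) :=
      mul_le_mul (by linarith) hN1 hN0 (by linarith)
    have h2 : (2 * (K : ℝ)) * (δ / 8 * L) = (δ * K) * (L / 4) := by ring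
    have h3 : (δ * K) * (L / 4) ≤ 1 / 100 * (L / 4) :=
      mul_le_mul_of_nonneg_right hδK (by linarith)
    linarith
  have hKN0 : 0 ≤ ((K : ℝ) + 1) * log (NX δ X : ℝ) := by positivity
  have hR0 : (0 : ℝ) ≤ R := Nat.cast_nonneg _
  have hexp : 2 * ((R : ℝ) + 1) * (((K : ℝ) + 1) * log (NX δ X : ℝ)) / (WX X : ℝ) ≤ 1 / 4 := by
    rw [div_le_iff₀ hWpos]
    have h1 : 2 * ((R : ℝ) + 1) * (((K : ℝ) + 1) * log (NX δ X : ℝ)) ≤
        (4 * L) * (L / 400) :=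
      mul_le_mul (by linarith) hKN hKN0 (by linarith)
    have h2 : L ^ 2 ≤ L ^ 16 := pow_le_pow_right₀ (by linarith) (by norm_num)
    nlinarith [sq_nonneg L]
  have h14 : exp (1 / 4 : ℝ) ≤ 3 / 2 := by
    have h1 : 1 - 1 / 4 ≤ exp (-(1 / 4 : ℝ)) := by
      have := add_one_le_exp (-(1 / 4 : ℝ))
      linarith
    have h2 : exp (1 / 4 : ℝ) * exp (-(1 / 4 : ℝ)) = 1 := by
      rw [← exp_add]; simp
    have h3 := exp_pos (1 / 4 : ℝ)
    nlinarith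
  exact (exp_le_exp.mpr hexp).trans h14

end Pool.Agent.Lib.H77V
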