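import Pool.Agent.Lib.H77V.KD

/-!
# Chunk KN3: numbers for `K` forms: the tail
-/

open Finset Real
open Pool.Agent.Lib.H5C

namespace Pool.Agent.Lib.H77V

theorem KN3_core (K : ℕ) (hK : 1 ≤ K) (X : ℕ) (δ L l2 l3 : ℝ) (hδ : 0 < δ) (hX : 0 < (X : ℝ))
    (hL : log X = L) (h2 : log L = l2) (h3 : log l2 = l3) (D1 : 1 ≤ L) (D2 : 1 ≤ l2)
    (D3 : (K : ℝ) + 1 ≤ l3) (D4 : 128 * l3 ≤ δ * L)
    (R : ℕ) (hR : (R : ℝ) ≤ δ / (40000 * 128 * exp K) * L) (S : ℝ) (hS : 1 / 40000 ≤ S) :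
    (zX δ X ^ K / NX δ X) ^ ((K : ℝ) / log (zX δ X)) *
      (1 + exp K / (S * log (zX δ X))) ^ R ≤ l2⁻¹ ^ (K + 1) := by
  have hKr : (1 : ℝ) ≤ K := by exact_mod_cast hK
  have hL0 : 0 < L := by linarith
  have hl2pos : 0 < l2 := by linarith
  have hl3pos : 0 < l3 := by linarith
  have hexp3 : exp l3 = l2 := by rw [← h3, exp_log hl2pos]
  have hxe : ∀ y : ℝ, (X : ℝ) ^ y = exp (L * y) := fun y => by rw [rpow_def_of_pos hX, hL]
  have hSpos : 0 < S := by linarith
  have hlz : log (zX δ X) = δ * L / (128 * l3) := by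
    unfold zX; rw [log_exp, hL, h2, h3]
  have hlz1 : 1 ≤ log (zX δ X) := by
    rw [hlz, le_div_iff₀ (by positivity)]
    linarith
  have hlzpos : 0 < log (zX δ X) := by linarith
  have hzpos : 0 < zX δ X := exp_pos _
  have hX8 : (X : ℝ) ^ (δ / 8) = exp (δ * L / 8) := by rw [hxe]; congr 1; ring
  have hN2 : exp (δ * L / 8) - 1 < (NX δ X : ℝ) := by
    unfold NX; rw [hX8]; exact Nat.sub_one_lt_floor _
  have he8 : (2 : ℝ) ≤ exp (δ * L / 8) := by
    have := add_one_le_exp (δ * L / 8)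
    linarith
  have hN3 : exp (δ * L / 8) / 2 ≤ (NX δ X : ℝ) := by linarith
  have hN0 : (0 : ℝ) < NX δ X := by linarith
  have hlog2 : log 2 ≤ 1 := by
    have := log_two_lt_d9; linarith
  have hlN2 : δ * L / 8 - 1 ≤ log (NX δ X) := by
    have h5 := log_le_log (by positivity) hN3
    rw [log_div (exp_pos _).ne' (by norm_num), log_exp] at h5
    linarith
  have hlz16 : 16 * l3 * log (zX δ X) = δ * L / 8 := by
    rw [hlz]
    field_simp
    ring
  -- the first factor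
  have h5 : (zX δ X ^ K / NX δ X) ^ ((K : ℝ) / log (zX δ X)) ≤
      exp (K * (K + 1) - 16 * K * l3) := by
    rw [rpow_def_of_pos (by positivity)]
    apply exp_le_exp.mpr
    rw [log_div (by positivity) hN0.ne', ← mul_div_assoc, div_le_iff₀ hlzpos, log_pow]
    have h6 : (K : ℝ) * log (zX δ X) - log (NX δ X) ≤ (K + 1 - 16 * l3) * log (zX δ X) := by
      have h7 : ((K : ℝ) + 1 - 16 * l3) * log (zX δ X) =
          K * log (zX δ X) + log (zX δ X) - 16 * l3 * log (zX δ X) := by ring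
      rw [h7, hlz16]
      linarith
    calc ((K : ℝ) * log (zX δ X) - log (NX δ X)) * K
        ≤ ((K + 1 - 16 * l3) * log (zX δ X)) * K := by gcongr
      _ = (K * (K + 1) - 16 * K * l3) * log (zX δ X) := by ring
  -- the second factor
  have h9 : (1 + exp K / (S * log (zX δ X))) ^ R ≤ exp l3 := by
    have h10 : 1 + exp K / (S * log (zX δ X)) ≤ exp (exp K / (S * log (zX δ X))) := by
      have := add_one_le_exp (exp (K : ℝ) / (S * log (zX δ X)))
      linarith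
    have h10' : 0 ≤ 1 + exp (K : ℝ) / (S * log (zX δ X)) := by positivity
    calc (1 + exp K / (S * log (zX δ X))) ^ R ≤ (exp (exp K / (S * log (zX δ X)))) ^ R := by
          gcongr
      _ = exp (R * (exp K / (S * log (zX δ X)))) := by rw [← exp_nat_mul]
      _ ≤ exp l3 := by
        apply exp_le_exp.mpr
        rw [mul_div_assoc', div_le_iff₀ (by positivity), hlz]
        have h11 : l3 * (1 / 40000 * (δ * L / (128 * l3))) ≤
            l3 * (S * (δ * L / (128 * l3))) := by gcongr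
        refine le_trans ?_ h11
        have h12 : l3 * (1 / 40000 * (δ * L / (128 * l3))) =
            (δ / (40000 * 128 * exp K) * L) * exp K := by
          have := exp_pos (K : ℝ)
          field_simp
        rw [h12]
        gcongr
  have hfin : exp (-((K : ℝ) + 1) * l3) = l2⁻¹ ^ (K + 1) := by
    have : -((K : ℝ) + 1) * l3 = -(((K + 1 : ℕ) : ℝ) * l3) := by push_cast; ring
    rw [this, exp_neg, exp_nat_mul, hexp3, inv_pow]
  rw [← hfin]
  calc (zX δ X ^ K / NX δ X) ^ ((K : ℝ) / log (zX δ X)) *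
      (1 + exp K / (S * log (zX δ X))) ^ R
      ≤ exp (K * (K + 1) - 16 * K * l3) * exp l3 := by
        apply mul_le_mul h5 h9 _ (exp_pos _).le
        positivity
    _ = exp (K * (K + 1) - 16 * K * l3 + l3) := by rw [← exp_add]
    _ ≤ exp (-((K : ℝ) + 1) * l3) := by
      apply exp_le_exp.mpr
      have h13 : (K : ℝ) * (K + 1) ≤ K * l3 := by gcongr
      have h14 : l3 ≤ K * l3 := le_mul_of_one_le_left hl3pos.le hKr
      linarith

/-- See the part `ε` of `par_core` (`H5C/PAR.lean`). `L = log X`, `l2 = log L`, `l3 = log l2`,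
`log z = δ L/(128 l3)`, `log N ≥ δ L/8 - 1`. `(z^K/N)^(K/log z) = exp (K (K - log N/log z)) ≤
exp (K (K+1) - 16 K l3)`, as `16 l3 log z = δ L/8` and `log z ≥ 1`. `(1 + e^K/(S log z))^R ≤
exp (R e^K/(S log z)) ≤ exp l3` if `R ≤ c0 L` with `c0 = δ/(40000 · 128 · e^K)`. The product is at most
`exp (K (K+1) - 15 K l3) ≤ exp (-(K+1) l3)` for `l3` large. -/
theorem par_K3 (K : ℕ) (hK : 1 ≤ K) (δ : ℝ) (hδ : 0 < δ) (hδK : δ * K ≤ 1 / 100) :
    ∃ c0 : ℝ, 0 < c0 ∧ ∃ X₀ : ℕ, ∀ X : ℕ, X₀ ≤ X → ∀ R : ℕ, (R : ℝ) ≤ c0 * log X →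
    ∀ S : ℝ, 1 / 40000 ≤ S →
    (zX δ X ^ K / NX δ X) ^ ((K : ℝ) / log (zX δ X)) *
      (1 + exp K / (S * log (zX δ X))) ^ R ≤ (log (log X))⁻¹ ^ (K + 1) := by
  refine ⟨δ / (40000 * 128 * exp K), by positivity, ?_⟩
  have T0 : Filter.Tendsto (fun n : ℕ => (n : ℝ)) Filter.atTop Filter.atTop :=
    tendsto_natCast_atTop_atTop
  have T1 : Filter.Tendsto (fun n : ℕ => log (n : ℝ)) Filter.atTop Filter.atTop :=
    tendsto_log_atTop.comp T0
  have T2 : Filter.Tendsto (fun n : ℕ => log (log (n : ℝ))) Filter.atTop Filter.atTop :=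
    tendsto_log_atTop.comp T1
  have T3 : Filter.Tendsto (fun n : ℕ => log (log (log (n : ℝ)))) Filter.atTop Filter.atTop :=
    tendsto_log_atTop.comp T2
  have hlo : ∀ c : ℝ, 0 < c → ∀ᶠ y : ℝ in Filter.atTop, log y ≤ c * y := by
    intro c hc
    filter_upwards [isLittleO_log_id_atTop.def hc, Filter.eventually_ge_atTop 1] with y hy hy1
    simp only [id_eq, norm_eq_abs] at hy
    rw [abs_of_nonneg (log_nonneg hy1), abs_of_nonneg (by linarith)] at hy
    exact hy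
  have E1 : ∀ᶠ n : ℕ in Filter.atTop, (1 : ℝ) ≤ log (n : ℝ) := T1.eventually_ge_atTop _
  have E2 : ∀ᶠ n : ℕ in Filter.atTop, (1 : ℝ) ≤ log (log (n : ℝ)) :=
    T2.eventually_ge_atTop _
  have E3 : ∀ᶠ n : ℕ in Filter.atTop, (K : ℝ) + 1 ≤ log (log (log (n : ℝ))) :=
    T3.eventually_ge_atTop _
  have E4 : ∀ᶠ n : ℕ in Filter.atTop, log (log (n : ℝ)) ≤ (δ / 128) * log (n : ℝ) :=
    T1.eventually (hlo (δ / 128) (by positivity))
  have E6 : ∀ᶠ n : ℕ in Filter.atTop, 0 < (n : ℝ) := T0.eventually_gt_atTop _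
  obtain ⟨X₀, hX₀⟩ := Filter.eventually_atTop.mp ((E1.and (E2.and E3)).and (E4.and E6))
  refine ⟨X₀, fun X hX R hR S hS => ?_⟩
  obtain ⟨⟨h1, h2, h3⟩, h4, h6⟩ := hX₀ X hX
  have h5 : log (log (log (X : ℝ))) ≤ log (log (X : ℝ)) := by
    have := log_le_sub_one_of_pos (show 0 < log (log (X : ℝ)) by linarith)
    linarith
  refine KN3_core K hK X δ (log X) (log (log X)) (log (log (log X))) hδ h6 rfl rfl rfl h1 h2 h3
    ?_ R hR S hS
  have h7 : δ / 128 * log (X : ℝ) = δ * log (X : ℝ) / 128 := by ring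
  rw [h7] at h4
  linarith

end Pool.Agent.Lib.H77V
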