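import Pool.Agent.Lib.H77V.KT1

/-!
# Chunk KT2: the tail with a free exponent
-/

open Finset
open Pool.Agent.Lib.H56G
open Pool.Agent.Lib.H5C

namespace Pool.Agent.Lib.H77V

variable {ι J : Type} [Fintype ι] [DecidableEq ι] [Fintype J] [DecidableEq J]

/-- As `tail_le` (`TH1b.lean`) with `z^n` in place of `z²` and `σ = a/log z` (`cher`, `bw_moment_a`). -/
theorem tail_a (s : Sys ι J) (z θ D ε a : ℝ) (n : ℕ) (ha : 0 ≤ a) (hθ : 0 ≤ θ) (hθ1 : θ ≤ 1)
    (hz : 1 < z) (hD : 0 < D) (hS : 0 < SS s z)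
    (hε : (z ^ n / D) ^ (a / Real.log z) *
      (1 + Real.exp a / (SS s z * Real.log z)) ^ (Fintype.card J) ≤ ε) :
    ∑ κ ∈ univ.filter (fun κ : ι → Option J => D < s.r κ * z ^ n), wt s (tb s z θ) κ
      ≤ ε * ZZ s (tb s z θ) := by
  have hlz : 0 < Real.log z := Real.log_pos hz
  have hσ : 0 ≤ a / Real.log z := div_nonneg ha hlz.le
  have hz0' : 0 < z := by linarith
  have h1 := cher s (tb s z θ) (a / Real.log z) (z ^ n) D hσ (by positivity) hD
  refine h1.trans ?_
  have hpow : ∀ A : Finset ι, 0 ≤ (s.rho A) ^ (a / Real.log z) - 1 := fun A => by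
    have h2 := Real.one_le_rpow (one_le_rho s A) hσ
    linarith
  have hm : ∑ A ∈ univ.filter (fun A : Finset ι => A ≠ ∅),
      vv s (tb s z θ) A * ((s.rho A) ^ (a / Real.log z) - 1) ≤
        Real.exp a / (SS s z * Real.log z) := by
    refine le_trans (Finset.sum_le_sum fun A hA => ?_) (bw_moment_a s z a ha hz hS)
    rw [Finset.mem_filter] at hA
    rw [th1b_vv s z θ A hA.2, th1b_vv_bw s z A hA.2]
    have hph : 0 < s.phi A := lt_of_lt_of_le zero_lt_one (one_le_phi s A)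
    have hθ2 : θ ^ 2 ≤ 1 := by nlinarith
    have h0 : 0 ≤ (bw s z A) ^ 2 * s.phi A := by positivity
    exact mul_le_mul_of_nonneg_right (mul_le_of_le_one_left h0 hθ2) (hpow A)
  have hm0 : 0 ≤ ∑ A ∈ univ.filter (fun A : Finset ι => A ≠ ∅),
      vv s (tb s z θ) A * ((s.rho A) ^ (a / Real.log z) - 1) := by
    apply Finset.sum_nonneg
    intro A _
    apply mul_nonneg _ (hpow A)
    unfold vv
    have := one_le_phi s A
    positivity
  have hZ : 0 ≤ ZZ s (tb s z θ) := by
    have := one_le_ZZ s (tb s z θ)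
    linarith
  have hz0 : 0 ≤ (z ^ n / D) ^ (a / Real.log z) := by positivity
  apply mul_le_mul_of_nonneg_right _ hZ
  refine le_trans ?_ hε
  apply mul_le_mul_of_nonneg_left _ hz0
  apply pow_le_pow_left₀ (by linarith)
  linarith

end Pool.Agent.Lib.H77V
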