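import Pool.Agent.Lib.H77V.KN1

/-!
# Chunk KU1: lower bound of V
-/

open Finset
open Pool.Agent.Lib.H56G
open Pool.Agent.Lib.H5C

namespace Pool.Agent.Lib.H77V

variable {ι J : Type} [Fintype ι] [DecidableEq ι] [Fintype J] [DecidableEq J]

/-- As `vv_low` (`TH5a.lean`): `VV_ge`, `card_supp_le` (`|supp κ| ≤ 2 log (N^K)`), `vlow`, `par_num`, `par_K1`. -/
theorem vv_low_K (K : ℕ) (hK : 1 ≤ K) (δ : ℝ) (hδ : 0 < δ) (hδK : δ * K ≤ 1 / 100) :
    ∃ X₀ : ℕ, ∀ X : ℕ, X₀ ≤ X →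
    ∀ {ι J : Type} [Fintype ι] [DecidableEq ι] [Fintype J] [DecidableEq J] (s : Sys ι J),
    IsSieve s δ X → ∀ κ : ι → Option J, s.r κ ≤ (NX δ X : ℝ) ^ K →
    Real.log (NX δ X) / (1000 * Real.log (WX X)) ≤ s.VV (NX δ X) κ := by
  have hK' : (1 : ℝ) ≤ K := by exact_mod_cast hK
  have hδ1 : δ ≤ 1 / 100 := by
    have : δ * 1 ≤ δ * K := mul_le_mul_of_nonneg_left hK' hδ.le
    linarith
  obtain ⟨c0, hc0, X₀, hpar⟩ := par_num δ hδ hδ1
  obtain ⟨X₁, hpar1⟩ := par_K1 K hK δ hδ hδK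
  refine ⟨max (max X₀ X₁) 1, fun X hX => ?_⟩
  intro ι J _ _ _ _ s hs κ hκ
  have hX0 : X₀ ≤ X := ((le_max_left _ _).trans (le_max_left _ _)).trans hX
  have hX01 : X₁ ≤ X := ((le_max_right _ _).trans (le_max_left _ _)).trans hX
  have hX1 : 1 ≤ X := (le_max_right _ _).trans hX
  have hR : ((0 : ℕ) : ℝ) ≤ c0 * Real.log X := by
    have : 0 ≤ Real.log X := Real.log_natCast_nonneg X
    push_cast
    positivity
  obtain ⟨hW2, -, hWN, -, -, -, -, -, hV1, -, hNW, -⟩ := hpar X hX0 0 hR _ le_rfl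
  obtain ⟨hNK, -⟩ := hpar1 X hX01
  obtain ⟨hpr, hprN, hall⟩ := hs
  have hN1 : (1 : ℝ) ≤ NX δ X := by exact_mod_cast (by omega : 1 ≤ NX δ X)
  have hW1 : 1 ≤ WX X := by omega
  have hWpos : (0 : ℝ) < WX X := by exact_mod_cast (by omega : 0 < WX X)
  have hlogN : 0 ≤ Real.log (NX δ X) := Real.log_nonneg hN1
  have hlogW : 0 < Real.log (WX X) := Real.log_pos (by exact_mod_cast (by omega : 1 < WX X))
  have h1 := VV_ge s (WX X) hW1 hpr (NX δ X) κ
  have h2 := card_supp_le s κ _ hκ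
  have h3 := vlow s (WX X) (NX δ X) hW2 hpr hall (NX δ X) hN1 le_rfl
  set V := ∑ A ∈ univ.filter (fun A : Finset ι => s.rho A ≤ (NX δ X : ℝ)), 1 / s.phi A with hV
  have h4 : ((supp κ).card : ℝ) / WX X ≤ 1 / 2 := by
    refine le_trans ?_ hNK
    rw [Real.log_pow] at h2
    gcongr
  have h5 : Real.log (NX δ X) / (500 * Real.log (WX X)) ≤ V := by
    rw [div_le_iff₀ (by positivity)]
    linarith
  have h6 : 0 ≤ Real.log (NX δ X) / (500 * Real.log (WX X)) := by positivity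
  have h7 : (1 / 2 : ℝ) * V ≤ (1 - ((supp κ).card : ℝ) / WX X) * V :=
    mul_le_mul_of_nonneg_right (by linarith) (by linarith)
  have h8 : Real.log (NX δ X) / (1000 * Real.log (WX X)) =
      1 / 2 * (Real.log (NX δ X) / (500 * Real.log (WX X))) := by
    field_simp
    ring
  rw [h8]
  linarith

end Pool.Agent.Lib.H77V
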