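import Pool.Agent.Lib.H77V.KB2
import Pool.Agent.Lib.H77V.KC4
import Pool.Agent.Lib.H77V.KT2
import Pool.Agent.Lib.H77V.KN2
import Pool.Agent.Lib.H77V.KN3
import Pool.Agent.Lib.H77V.KU1

/-!
# Chunk KU2: the upper bound for K forms
-/

open Finset
open Pool.Agent.Lib.H56G
open Pool.Agent.Lib.H5C

namespace Pool.Agent.Lib.H77V

variable {ι J : Type} [Fintype ι] [DecidableEq ι] [Fintype J] [DecidableEq J]

/-- **Upper bound for `K` forms.** As the part `two forms` of `upp` (`TH5b.lean`), for the list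
`js = A.toList` (`length = K`, `Nodup`): `multi_maj_B` with `c = cc s (tb s z θ) N`, `D1 = D2 = N`, `B = 2^K`
(`crL_cc`, `abs_wL_le`, `abs_cc_le_one`), `V0 = log N/(1000 log W)` (`vv_low_K`, `par_num`), `K0 = exp (..) ≤ 3/2`
(`ps_le`, `par_K2`), `sum_crL_sq` with `τ = (log X)^(-8)` (`tb_through`, `card_supp_le`, `par_num`) and
`ε = (loglog X)^(-(K+1))` (`tail_a` with `n = K`, `a = K`); `(1-θ)^2 ≥ 1/loglog X` gives
`((1-θ)^K + 2^K τ)² + 4^K ε ≤ (4 + 4^K) (1-θ)^(2K)`; the error `X^(1/4)` is at most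
`(1/log X)^K X^(1/2) ≤ (loglog X/log X (1-θ)^2)^K Y ZZ`. -/
theorem uppK (K : ℕ) (hK : 1 ≤ K) (δ : ℝ) (hδ : 0 < δ) (hδK : δ * K ≤ 1 / 100) :
    ∃ c0 C : ℝ, 0 < c0 ∧ 0 < C ∧ ∃ X₀ : ℕ, ∀ X : ℕ, X₀ ≤ X →
    ∀ {ι J : Type} [Fintype ι] [DecidableEq ι] [Fintype J] [DecidableEq J] (s : Sys ι J),
    IsSieve s δ X → (Fintype.card J : ℝ) ≤ c0 * Real.log X →
    ∀ θ : ℝ, 0 ≤ θ → θ ≤ 1 → 1 / Real.log (Real.log X) ≤ (1 - θ) ^ 2 →
    ∀ Y : ℕ, (X : ℝ) ^ (1 / 2 : ℝ) ≤ Y → ∀ A : Finset J, A.card = K →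
      ∑ t ∈ (Icc 1 Y).filter (fun t => ∀ j ∈ A, ∀ i, ¬ s.pr i ∣ s.b j + s.M * t),
        (∑ κ, cc s (tb s (zX δ X) θ) (NX δ X) κ * s.U κ t) ^ 2 ≤
      C * (Real.log (Real.log X) / Real.log X * (1 - θ) ^ 2) ^ K * Y *
        ZZ s (tb s (zX δ X) θ) := by
  have hK1 : (1 : ℝ) ≤ K := by exact_mod_cast hK
  have hδ1 : δ ≤ 1 / 100 := le_trans (le_mul_of_one_le_right hδ.le hK1) hδK
  obtain ⟨c0, hc0, X1, hpar⟩ := par_num δ hδ hδ1
  obtain ⟨X2, hlarge⟩ := th5b_large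
  obtain ⟨c3, hc3, X3, hp3⟩ := par_K3 K hK δ hδ hδK
  obtain ⟨X4, hvv⟩ := vv_low_K K hK δ hδ hδK
  obtain ⟨X5, hp1⟩ := par_K1 K hK δ hδ hδK
  obtain ⟨X6, hp2⟩ := par_K2 K hK δ hδ hδK
  refine ⟨min (min c0 c3) 1, (300000 / δ) ^ K * (4 + 4 ^ K) + 1, by positivity, by positivity,
    X1 + X2 + X3 + X4 + X5 + X6, fun X hX => ?_⟩
  intro ι J _ _ _ _ s hs hJc θ hθ hθ1 hq Y hY A hA
  obtain ⟨hXr, hl, hlL, hE⟩ := hlarge X (by omega)
  have hLpos0 : 0 < Real.log X := by linarith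
  have hJ1 : (Fintype.card J : ℝ) ≤ c0 * Real.log X :=
    hJc.trans (mul_le_mul_of_nonneg_right ((min_le_left _ _).trans (min_le_left _ _)) hLpos0.le)
  have hJ3 : (Fintype.card J : ℝ) ≤ c3 * Real.log X :=
    hJc.trans (mul_le_mul_of_nonneg_right ((min_le_left _ _).trans (min_le_right _ _)) hLpos0.le)
  have hJ6 : (Fintype.card J : ℝ) ≤ Real.log X := by
    refine hJc.trans ?_
    have h1 := mul_le_mul_of_nonneg_right (min_le_right (min c0 c3) 1) hLpos0.le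
    rwa [one_mul] at h1
  have hs' := hs
  obtain ⟨hpr, hprN, hall⟩ := hs
  obtain ⟨hW2, hRW, hWN, hz1, hz2, hWz, -⟩ := hpar X (by omega) (Fintype.card J) hJ1 _ le_rfl
  have hz0 : 0 < zX δ X := by linarith
  have hzN : zX δ X ≤ NX δ X := (le_self_pow₀ hz1.le (by norm_num)).trans hz2
  have hS := slow s (WX X) (NX δ X) hW2 hpr hall (zX δ X) hzN hz0 hWz
  obtain ⟨-, -, -, -, -, -, hS0, -, hV1, hV2, -, -, -, -, -, hτ, -⟩ :=
    hpar X (by omega) (Fintype.card J) hJ1 _ hS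
  obtain ⟨-, hE2, hτK, hEK, hNX1, -⟩ := hp1 X (by omega)
  have hK2 := hp2 X (by omega) (Fintype.card J) hJ6
  have hεK := hp3 X (by omega) (Fintype.card J) hJ3 (SS s (zX δ X)) hS0
  set L := Real.log X with hL
  set l := Real.log L with hldef
  set W := WX X with hWdef
  set N : ℝ := (NX δ X : ℝ) with hNdef
  set z := zX δ X with hzdef
  have hSpos : 0 < SS s z := by linarith
  have hlpos : 0 < l := by linarith
  have hLpos : 0 < L := hLpos0
  have hL1 : 1 ≤ L := by linarith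
  have hW1 : 1 ≤ W := by omega
  have hWpos : (0 : ℝ) < W := by exact_mod_cast (by omega : 0 < W)
  have hN1 : 1 ≤ N := by
    rw [hNdef]
    exact_mod_cast hNX1
  have hN0 : 0 < N := by linarith
  have hlogN : 0 ≤ Real.log N := Real.log_nonneg hN1
  set V0 := Real.log N / (1000 * Real.log W) with hV0
  set K0 := Real.exp (2 * ((Fintype.card J : ℝ) + 1) * (((K : ℝ) + 1) * Real.log N) / W) with hK0def
  have hK00 : 0 ≤ K0 := (Real.exp_pos _).le
  -- the list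
  set js := A.toList with hjs
  have hlen : js.length = K := by rw [hjs, Finset.length_toList, hA]
  have hnd : js.Nodup := Finset.nodup_toList A
  have hne : js ≠ [] := by
    intro h
    rw [h] at hlen
    simp at hlen
    omega
  have hKps : ∀ κ : ι → Option J, s.r κ ≤ N * N ^ js.length → s.ps κ ≤ K0 * s.ph κ := by
    intro κ hκ
    have h1 := ps_le s W hW1 hpr κ _ hκ
    refine h1.trans (le_of_eq ?_)
    rw [hK0def, hlen]
    congr 2
    rw [Real.log_mul (by positivity) (by positivity), Real.log_pow]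
    ring
  have hVV : ∀ κ : ι → Option J, s.r κ ≤ N * N ^ (js.length - 1) → V0 ≤ s.VV N κ := by
    intro κ hκ
    refine hvv X (by omega) s hs' κ ?_
    rw [hlen] at hκ
    have h1 : N * N ^ (K - 1) = N ^ K := by
      rw [← pow_succ']
      congr 1
      omega
    rw [h1] at hκ
    exact hκ
  -- ε and τ
  set ε := l⁻¹ ^ (K + 1) with hεdef
  set τ := L⁻¹ ^ 8 with hτdef
  set q := (1 - θ) ^ 2 with hqdef
  have hθ' : 0 ≤ 1 - θ := by linarith
  have hθ'1 : 1 - θ ≤ 1 := by linarith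
  have hq1 : q ≤ 1 - θ := by
    rw [hqdef, sq]
    exact mul_le_of_le_one_left hθ' (by linarith only [hθ])
  have hq00 : 0 ≤ q := sq_nonneg _
  have hτ0 : 0 ≤ τ := by positivity
  have hε0 : 0 ≤ ε := by positivity
  have hlinv : 0 < l⁻¹ := inv_pos.mpr hlpos
  have hlinv1 : l⁻¹ ≤ 1 := inv_le_one_of_one_le₀ (by linarith)
  have hq0 : l⁻¹ ≤ q := by rw [← one_div]; exact hq
  have hqK : l⁻¹ ^ K ≤ q ^ K := pow_le_pow_left₀ hlinv.le hq0 K
  have hεq : ε ≤ q ^ K := by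
    refine le_trans ?_ hqK
    exact pow_le_pow_of_le_one hlinv.le hlinv1 (by omega)
  have hτq : 2 ^ K * τ ≤ (1 - θ) ^ K := by
    refine hτK.trans (hqK.trans ?_)
    exact pow_le_pow_left₀ hq00 hq1 K
  have hτ' : ∀ κ : ι → Option J, s.r κ ≤ N →
      ∑ i ∈ supp κ, ∑ A ∈ univ.filter (fun A : Finset ι => i ∈ A), tb s z θ A ≤ τ := by
    intro κ hκ
    have h1 : ∑ i ∈ supp κ, ∑ A ∈ univ.filter (fun A : Finset ι => i ∈ A), tb s z θ A ≤
        ∑ _i ∈ supp κ, (2 / SS s z + 1) / W :=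
      Finset.sum_le_sum fun i _ => tb_through s W hW1 hpr z θ hθ hθ1 hSpos i
    rw [Finset.sum_const, nsmul_eq_mul] at h1
    have h2 := card_supp_le s κ N hκ
    have h3 : 0 ≤ (2 / SS s z + 1) / (W : ℝ) := by positivity
    exact (h1.trans (mul_le_mul_of_nonneg_right h2 h3)).trans hτ
  have htail : ∑ κ ∈ univ.filter (fun κ : ι → Option J => N < s.r κ * z ^ js.length),
      wt s (tb s z θ) κ ≤ ε * ZZ s (tb s z θ) := by
    rw [hlen]
    exact tail_a s z θ N ε K K (by positivity) hθ hθ1 hz1 hN0 hSpos hεK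
  set c := cc s (tb s z θ) N with hcdef
  set Z := ZZ s (tb s z θ) with hZdef
  have hZ1 : 1 ≤ Z := one_le_ZZ s (tb s z θ)
  have htb0 := tb_nonneg s z θ hθ
  have htb1 := tb_le_one s z θ hθ hθ1 hSpos
  have hc : ∀ κ : ι → Option J, c κ ≠ 0 → s.r κ ≤ N := by
    intro κ h
    by_contra h'
    exact h (if_neg h')
  have hc1 : ∀ κ : ι → Option J, |c κ| ≤ 1 := abs_cc_le_one s (tb s z θ) htb0 htb1 N
  have hcp : ∀ κ : ι → Option J, |crL js c κ| ≤ 2 ^ K := by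
    intro κ
    rw [hcdef, crL_cc s (tb s z θ) N js hnd κ]
    split_ifs
    · rw [abs_mul]
      have h1 := abs_wL_le s z θ hθ hθ1 hSpos N js κ
      rw [hlen] at h1
      calc |cc s (tb s z θ) N κ| * |wL s (tb s z θ) N js κ| ≤ 1 * 2 ^ K :=
            mul_le_mul (hc1 κ) h1 (abs_nonneg _) zero_le_one
        _ = 2 ^ K := one_mul _
    · rw [abs_zero]
      positivity
  have hmaj := multi_maj_B s W hW1 hpr hRW N V0 K0 hN1 hV1 hK00 Y js hnd hne c N (2 ^ K) hN1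
    (by positivity) hc hcp hVV hKps
  have hsum := sum_crL_sq s z θ hθ hθ1 hz1.le hSpos N τ ε hτ0 hτ' js hnd htail
  rw [hlen] at hmaj hsum
  have hsum2 : ∑ κ, (crL js c κ) ^ 2 * s.ph κ ≤ (4 + 4 ^ K) * q ^ K * Z := by
    refine hsum.trans (mul_le_mul_of_nonneg_right ?_ (by linarith))
    have h1 : ((1 - θ) ^ K + 2 ^ K * τ) ^ 2 ≤ (2 * (1 - θ) ^ K) ^ 2 := by
      refine pow_le_pow_left₀ (by positivity) ?_ 2
      linarith
    have h2 : (2 * (1 - θ) ^ K) ^ 2 = 4 * q ^ K := by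
      rw [hqdef, mul_pow, ← pow_mul, ← pow_mul, mul_comm K 2]
      norm_num
    have h3 : 4 ^ K * ε ≤ 4 ^ K * q ^ K := mul_le_mul_of_nonneg_left hεq (by positivity)
    calc ((1 - θ) ^ K + 2 ^ K * τ) ^ 2 + 4 ^ K * ε ≤ 4 * q ^ K + 4 ^ K * q ^ K := by linarith
      _ = (4 + 4 ^ K) * q ^ K := by ring
  -- K0 / V0
  have hKV : K0 / V0 ≤ 300000 / δ * (l / L) := by
    have hV0pos : 0 < V0 := by linarith
    rw [div_le_iff₀ hV0pos]
    have h1 : 300000 / δ * (l / L) * (δ / 200000 * (L / l)) = 3 / 2 := by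
      field_simp
      norm_num
    have h2 : 300000 / δ * (l / L) * (δ / 200000 * (L / l)) ≤ 300000 / δ * (l / L) * V0 :=
      mul_le_mul_of_nonneg_left hV2 (by positivity)
    linarith
  have hKV0 : 0 ≤ K0 / V0 := div_nonneg hK00 (by linarith)
  have hlL0 : 0 ≤ l / L := by positivity
  have hY0 : (0 : ℝ) ≤ Y := Nat.cast_nonneg Y
  have hKVK : (K0 / V0) ^ K ≤ (300000 / δ) ^ K * (l / L) ^ K := by
    rw [← mul_pow]
    exact pow_le_pow_left₀ hKV0 hKV K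
  -- the error
  set E := (X : ℝ) ^ (1 / 4 : ℝ) with hEdef
  have hE0 : 0 ≤ E := by positivity
  have herr : (2 ^ K) ^ 2 * (18 * (N * N ^ K) ^ 8) ≤ E := by
    have h1 : ((2 : ℝ) ^ K) ^ 2 = 4 ^ K := by
      rw [← pow_mul, mul_comm K 2, pow_mul]
      norm_num
    rw [h1]
    exact hE2
  have hmain : E ≤ (l / L * q) ^ K * Y * Z := by
    have h1 : 1 / L ≤ l / L * q := by
      calc 1 / L = l / L * l⁻¹ := by field_simp
        _ ≤ l / L * q := mul_le_mul_of_nonneg_left hq0 hlL0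
    have h2 : (1 / L) ^ K ≤ (l / L * q) ^ K := pow_le_pow_left₀ (by positivity) h1 K
    have h3 : E ≤ (1 / L) ^ K * Y := by
      rw [one_div, inv_pow, inv_mul_eq_div, le_div_iff₀ (by positivity)]
      exact hEK.trans hY
    calc E ≤ (1 / L) ^ K * Y := h3
      _ ≤ (l / L * q) ^ K * Y := mul_le_mul_of_nonneg_right h2 hY0
      _ ≤ (l / L * q) ^ K * Y * Z := le_mul_of_one_le_right (by positivity) hZ1
  have hfil : (Icc 1 Y).filter (fun t => ∀ j ∈ A, ∀ i, ¬ s.pr i ∣ s.b j + s.M * t) =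
      (Icc 1 Y).filter (fun t => ∀ j ∈ js, ∀ i, ¬ s.pr i ∣ s.b j + s.M * t) := by
    refine Finset.filter_congr fun t _ => ?_
    rw [hjs]
    simp only [Finset.mem_toList]
  rw [hfil]
  have hph0 : ∀ κ : ι → Option J, 0 ≤ s.ph κ := fun κ =>
    le_trans zero_le_one (one_le_phi s (supp κ))
  have h5 : (Y : ℝ) * (K0 / V0) ^ K * ∑ κ, (crL js c κ) ^ 2 * s.ph κ ≤
      Y * ((300000 / δ) ^ K * (l / L) ^ K) * ((4 + 4 ^ K) * q ^ K * Z) := by
    have h1 : 0 ≤ ∑ κ, (crL js c κ) ^ 2 * s.ph κ :=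
      Finset.sum_nonneg fun κ _ => mul_nonneg (sq_nonneg _) (hph0 κ)
    have h2 : (Y : ℝ) * (K0 / V0) ^ K ≤ Y * ((300000 / δ) ^ K * (l / L) ^ K) :=
      mul_le_mul_of_nonneg_left hKVK hY0
    exact mul_le_mul h2 hsum2 h1 (by positivity)
  calc _ ≤ Y * (K0 / V0) ^ K * ∑ κ, (crL js c κ) ^ 2 * s.ph κ +
        (2 ^ K) ^ 2 * (18 * (N * N ^ K) ^ 8) := hmaj
    _ ≤ Y * ((300000 / δ) ^ K * (l / L) ^ K) * ((4 + 4 ^ K) * q ^ K * Z) +
        (l / L * q) ^ K * Y * Z := by linarith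
    _ = _ := by
      rw [mul_pow (l / L) q K]
      ring

end Pool.Agent.Lib.H77V
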