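import Pool.Agent.Lib.H92V.V9
import Pool.Agent.Lib.H77V.A1

/-!
# Chunk A7: one `t` gives consecutive primes with the gaps `v`
-/

open Finset Real
open Pool.Agent.Lib.H5C
open Pool.Agent.Lib.H56G

namespace Pool.Agent.Lib.H77V

/-- Cf. `H92V.v9_one` (its `key`: a prime `r` with `a + M t < r ≤ a + M t + hE κ y` is
`a + z + M t`, `z ∈ SE`). Put `q i = a + (x + pos v i) + M t`, an increasing sequence of primes, and
`n` = number of the primes `< q 0`. By induction on `i` the `n + i`-th prime is `q i`: the next prime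
after `q i` is at most `q (i + 1)`, so it is `a + z + M t` with `z ∈ SE` and `x < z ≤ x + pos v k`, and if
`z < x + pos v k` then `z` is one of the positions; a position strictly between two consecutive ones does
not exist (`pos_strictMono`). -/
theorem a7_one (k : ℕ) (κ : ℝ) (y M a : ℕ) (v : Fin k → ℕ) (hya : y < a) (hv : ∀ i, 1 ≤ v i)
    (hM : ∀ p : ℕ, p.Prime → p ∣ M → p ≤ y) (t : ℕ) (ht : GK (SE κ y M a) a M v t) :
    ∃ n : ℕ, a + M * t < Nat.nth Nat.Prime n ∧
      Nat.nth Nat.Prime (n + k) ≤ a + M * t + hE κ y ∧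
      ∀ i : Fin k, Nat.nth Nat.Prime (n + i + 1) = Nat.nth Nat.Prime (n + i) + v i := by
  classical
  have hinf : (Set.ofPred Nat.Prime).Infinite := Nat.infinite_setOfPred_prime
  have hmono := Nat.nth_strictMono hinf
  obtain ⟨x, hx, hno⟩ := ht
  have hSE : ∀ z ∈ SE κ y M a, 1 ≤ z ∧ z ≤ hE κ y := by
    intro z hz
    unfold SE at hz
    rw [Finset.mem_filter, Finset.mem_Icc] at hz
    exact hz.1
  have key : ∀ r : ℕ, r.Prime → a + M * t < r → r ≤ a + M * t + hE κ y →
      ∃ z ∈ SE κ y M a, a + z + M * t = r := by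
    intro r hr h1 h2
    refine ⟨r - (a + M * t), ?_, by omega⟩
    unfold SE
    rw [Finset.mem_filter, Finset.mem_Icc]
    refine ⟨⟨by omega, by omega⟩, ?_⟩
    have h3 : a + (r - (a + M * t)) + M * t = r := by omega
    by_contra hc
    obtain ⟨l, hl, hla, hlM⟩ := Nat.Prime.not_coprime_iff_dvd.1 hc
    have h4 : l ∣ r := by
      rw [← h3]
      exact dvd_add hla (hlM.trans (dvd_mul_right _ _))
    have h5 : l = r := ((Nat.prime_dvd_prime_iff_eq hl hr).1 h4)
    have h6 := hM l hl hlM
    omega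
  have hpm := pos_strictMono v hv
  have hstep : ∀ i : ℕ, ∀ hi : i < k + 1,
      Nat.nth Nat.Prime (Nat.count Nat.Prime (a + (x + pos v 0) + M * t) + i) =
        a + (x + pos v ⟨i, hi⟩) + M * t := by
    intro i
    induction i with
    | zero =>
      intro hi
      exact Nat.nth_count (hx 0).2
    | succ i ih =>
      intro hi
      have hi' : i < k + 1 := by omega
      have h1 := ih hi'
      have hp := (hx ⟨i, hi'⟩).2
      have hq := (hx ⟨i + 1, hi⟩).2
      have hlt : pos v ⟨i, hi'⟩ < pos v ⟨i + 1, hi⟩ := hpm (by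
        rw [Fin.lt_def]
        exact Nat.lt_succ_self i)
      have hc0 : Nat.count Nat.Prime (a + (x + pos v ⟨i, hi'⟩) + M * t) =
          Nat.count Nat.Prime (a + (x + pos v 0) + M * t) + i := by
        rw [← h1]
        exact Nat.count_nth_of_infinite hinf _
      have hc1 : Nat.count Nat.Prime (a + (x + pos v ⟨i, hi'⟩) + M * t + 1) =
          Nat.count Nat.Prime (a + (x + pos v ⟨i, hi'⟩) + M * t) + 1 := by
        rw [Nat.count_succ, if_pos hp]
      have hc2 : Nat.count Nat.Prime (a + (x + pos v ⟨i + 1, hi⟩) + M * t + 1) =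
          Nat.count Nat.Prime (a + (x + pos v ⟨i + 1, hi⟩) + M * t) + 1 := by
        rw [Nat.count_succ, if_pos hq]
      have hc3 : Nat.count Nat.Prime (a + (x + pos v ⟨i, hi'⟩) + M * t + 1) ≤
          Nat.count Nat.Prime (a + (x + pos v ⟨i + 1, hi⟩) + M * t) :=
        Nat.count_monotone _ (by omega)
      have hle : Nat.nth Nat.Prime (Nat.count Nat.Prime (a + (x + pos v 0) + M * t) + (i + 1)) <
          a + (x + pos v ⟨i + 1, hi⟩) + M * t + 1 := by
        apply Nat.nth_lt_of_lt_count
        omega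
      have hlt' : a + (x + pos v ⟨i, hi'⟩) + M * t <
          Nat.nth Nat.Prime (Nat.count Nat.Prime (a + (x + pos v 0) + M * t) + (i + 1)) := by
        rw [← h1]
        exact hmono (by omega)
      by_contra hne
      have hr : (Nat.nth Nat.Prime
          (Nat.count Nat.Prime (a + (x + pos v 0) + M * t) + (i + 1))).Prime :=
        Nat.nth_mem_of_infinite hinf _
      have hb1 := (hSE _ (hx ⟨i, hi'⟩).1).1
      have hb2 := (hSE _ (hx ⟨i + 1, hi⟩).1).2
      obtain ⟨z, hz, hzr⟩ := key _ hr (by omega) (by omega)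
      have hlast := pos_le_last v ⟨i + 1, hi⟩
      obtain ⟨j, hj⟩ := hno z hz (by omega) (by omega) (by rw [hzr]; exact hr)
      have h2 : pos v ⟨i, hi'⟩ < pos v j := by omega
      have h3 : pos v j < pos v ⟨i + 1, hi⟩ := by omega
      have h4 := hpm.lt_iff_lt.1 h2
      have h5 := hpm.lt_iff_lt.1 h3
      rw [Fin.lt_def] at h4 h5
      have h6 : i < (j : ℕ) := h4
      have h7 : (j : ℕ) < i + 1 := h5
      omega
  refine ⟨Nat.count Nat.Prime (a + (x + pos v 0) + M * t), ?_, ?_, ?_⟩
  · have h1 := hstep 0 (Nat.succ_pos k)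
    rw [Nat.add_zero] at h1
    rw [h1]
    have h2 := (hSE _ (hx 0).1).1
    have h3 : pos v ⟨0, Nat.succ_pos k⟩ = pos v 0 := rfl
    omega
  · rw [hstep k (Nat.lt_succ_self k)]
    have h2 := (hSE _ (hx (Fin.last k)).1).2
    have h3 : pos v ⟨k, Nat.lt_succ_self k⟩ = pos v (Fin.last k) := rfl
    omega
  · intro i
    have h1 := hstep i (by omega)
    have h2 := hstep (i + 1) (by omega)
    rw [h1, Nat.add_assoc, h2]
    have h3 := pos_succ v i
    have h4 : pos v ⟨(i : ℕ), by omega⟩ = pos v i.castSucc := rfl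
    have h5 : pos v ⟨(i : ℕ) + 1, by omega⟩ = pos v i.succ := rfl
    omega

end Pool.Agent.Lib.H77V
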