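import Pool.Agent.Lib.H77V.A7

/-!
# Chunk A8: different `t` give different `n`
-/

open Finset Real
open Pool.Agent.Lib.H5C
open Pool.Agent.Lib.H56G

namespace Pool.Agent.Lib.H77V

open Classical in
/-- As `H92V.v9_count` (copy its proof, `n + k` in place of `n + 1`), with `a7_one`. -/
theorem a8_count (k : ℕ) (κ x : ℝ) (y M a T : ℕ) (v : Fin k → ℕ) (hya : y < a)
    (hv : ∀ i, 1 ≤ v i) (hM : ∀ p : ℕ, p.Prime → p ∣ M → p ≤ y) (hHM : hE κ y < M)
    (hx : ((a + M * T + hE κ y : ℕ) : ℝ) ≤ x) :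
    (((Icc 1 T).filter (fun t => GK (SE κ y M a) a M v t)).card : ℝ) ≤
      (Set.ncard {n : ℕ | (Nat.nth Nat.Prime (n + k) : ℝ) ≤ x ∧
        ∀ i : Fin k, Nat.nth Nat.Prime (n + i + 1) = Nat.nth Nat.Prime (n + i) + v i} : ℝ) := by
  have hmono := Nat.nth_strictMono Nat.infinite_setOfPred_prime
  set S := {n : ℕ | (Nat.nth Nat.Prime (n + k) : ℝ) ≤ x ∧
        ∀ i : Fin k, Nat.nth Nat.Prime (n + i + 1) = Nat.nth Nat.Prime (n + i) + v i} with hS
  set A := (Icc 1 T).filter (fun t => GK (SE κ y M a) a M v t) with hA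
  have hfin : S.Finite := by
    refine (Set.finite_Iic ⌊x⌋₊).subset ?_
    rintro n ⟨hn, -⟩
    have h1 : n + k ≤ Nat.nth Nat.Prime (n + k) := hmono.le_apply
    have h2 : ((n : ℕ) : ℝ) ≤ x := by
      have h3 : ((n + k : ℕ) : ℝ) ≤ (Nat.nth Nat.Prime (n + k) : ℝ) := by exact_mod_cast h1
      have h4 : (n : ℝ) ≤ ((n + k : ℕ) : ℝ) := by exact_mod_cast Nat.le_add_right n k
      linarith
    exact Nat.le_floor h2
  have hex : ∀ t ∈ A, ∃ n : ℕ, a + M * t < Nat.nth Nat.Prime n ∧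
      Nat.nth Nat.Prime (n + k) ≤ a + M * t + hE κ y ∧
      ∀ i : Fin k, Nat.nth Nat.Prime (n + i + 1) = Nat.nth Nat.Prime (n + i) + v i :=
    fun t ht => a7_one k κ y M a v hya hv hM t (Finset.mem_filter.1 ht).2
  choose! nn hnn using hex
  have h1 : A.image nn ⊆ hfin.toFinset := by
    intro n hn
    obtain ⟨t, ht, rfl⟩ := Finset.mem_image.1 hn
    rw [Set.Finite.mem_toFinset]
    obtain ⟨-, h2, h3⟩ := hnn t ht
    refine ⟨?_, h3⟩
    have htT : t ≤ T := (Finset.mem_Icc.1 (Finset.mem_filter.1 ht).1).2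
    have h4 : Nat.nth Nat.Prime (nn t + k) ≤ a + M * T + hE κ y := by
      have h5 : M * t ≤ M * T := Nat.mul_le_mul_left _ htT
      omega
    have h5 : (Nat.nth Nat.Prime (nn t + k) : ℝ) ≤ ((a + M * T + hE κ y : ℕ) : ℝ) := by
      exact_mod_cast h4
    linarith
  have h2 : Set.InjOn nn (A : Set ℕ) := by
    have key : ∀ t ∈ A, ∀ t' ∈ A, t < t' → nn t ≠ nn t' := by
      intro t ht t' ht' htt heq
      obtain ⟨-, h3, -⟩ := hnn t ht
      obtain ⟨h4, -, -⟩ := hnn t' ht'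
      have h5 : Nat.nth Nat.Prime (nn t) ≤ Nat.nth Nat.Prime (nn t + k) :=
        hmono.monotone (Nat.le_add_right _ _)
      have h6 : M * (t + 1) ≤ M * t' := Nat.mul_le_mul_left _ htt
      rw [Nat.mul_add, Nat.mul_one] at h6
      rw [← heq] at h4
      omega
    intro t ht t' ht' heq
    rcases lt_trichotomy t t' with h | h | h
    · exact absurd heq (key t ht t' ht' h)
    · exact h
    · exact absurd heq.symm (key t' ht' t ht h)
  have h3 := Finset.card_le_card h1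
  rw [Finset.card_image_of_injOn h2, ← Set.ncard_eq_toFinset_card S hfin] at h3
  exact_mod_cast h3

/-- If some `t` satisfies `GK`, the sum of the coordinates is at most `hE κ y` (`pos_last`). -/
theorem a8_sum (k : ℕ) (κ : ℝ) (y M a t : ℕ) (v : Fin k → ℕ) (ht : GK (SE κ y M a) a M v t) :
    ∑ i, v i ≤ hE κ y := by
  obtain ⟨x, hx, -⟩ := ht
  have h1 := (hx (Fin.last k)).1
  rw [pos_last] at h1
  unfold SE at h1
  rw [Finset.mem_filter, Finset.mem_Icc] at h1
  have h2 := h1.1.2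
  omega

end Pool.Agent.Lib.H77V
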