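import Pool.Agent.Lib.H77V.A6
import Pool.Agent.Lib.H77V.A8

/-!
# Chunk A9: the number of the gap vectors
-/

open Finset Real
open Pool.Agent.Lib.H5C
open Pool.Agent.Lib.H56G
open Pool.Agent.Lib.H92V (hE_le_ff)

namespace Pool.Agent.Lib.H77V

/-- As `H92V.gap_values` (`H92V/V9.lean`, copy its proof): `good_vk` with `ε/2`, `ff_le_hE`,
`hE_le_ff`, `mm_ge`, `fd2_ev`; `X = ⌊x/70⌋`. Every `v ∈ S` is in the set: `a8_sum` (the set of the `t` is
not empty, as `X^(1-ε/2) > 0`), `a8_count`. The set of the vectors is finite (`v i ≤ ff x`).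
`c ff x^k ≤ c (hE/c')^k`. -/
theorem gap_vectors (k : ℕ) (hk : 1 ≤ k) (ε0 : ℝ) (hε0 : 0 < ε0) : ∃ c : ℝ, 0 < c ∧
    ∀ᶠ x : ℝ in Filter.atTop, c * Pool.Agent.Lib.H56G.ff x ^ k ≤
      (Set.ncard {h : Fin k → ℕ | ((∑ i, h i : ℕ) : ℝ) ≤ Pool.Agent.Lib.H56G.ff x ∧
        x ^ (1 - ε0) ≤ (Set.ncard {n : ℕ | (Nat.nth Nat.Prime (n + k) : ℝ) ≤ x ∧
        ∀ i : Fin k, Nat.nth Nat.Prime (n + i + 1) = Nat.nth Nat.Prime (n + i) + h i} : ℝ)} :
          ℝ) := by
  classical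
  set ε := min ε0 1 with hεd
  have hε : 0 < ε := lt_min hε0 one_pos
  have hε1 : ε ≤ 1 := min_le_right _ _
  obtain ⟨δ, κ, c, hδ, hδ1, hκ, hκ1, hc, X₀, hX⟩ := good_vk k hk (ε / 2) (by positivity)
  obtain ⟨c', hc', X₁, hff⟩ := ff_le_hE κ δ hκ hδ (by linarith)
  obtain ⟨X₂, hup⟩ := hE_le_ff κ δ hκ hκ1 hδ hδ1
  obtain ⟨y₀, hy₀⟩ := mm_ge
  obtain ⟨x₀, hx₀⟩ := fd2_ev δ ε hδ hε (max (max X₀ X₁) X₂) y₀
  refine ⟨c * c' ^ k, by positivity, ?_⟩
  filter_upwards [Filter.eventually_ge_atTop x₀] with x hx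
  obtain ⟨e1, e2, e3, e4, e5, e6, e7⟩ := hx₀ x hx
  set X := ⌊x / 70⌋₊ with hXd
  have hx0 : 0 < x := by linarith
  have hXx : (X : ℝ) ≤ x / 70 := Nat.floor_le (by positivity)
  have hX0 : (0 : ℝ) < X := lt_of_lt_of_le (by positivity) e7
  have hX1 : (1 : ℝ) ≤ X := by
    have h1 : 0 < X := by exact_mod_cast hX0
    exact_mod_cast h1
  obtain ⟨D, p1, a, T, hD, ha1, ha2, hMT, S, hS1, hS2, hS3⟩ :=
    hX X (le_trans (le_max_left _ _) (le_trans (le_max_left _ _) e1))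
  set y := ⌊δ * log (X : ℝ)⌋₊ with hyd
  set M := MM y D p1 with hMd
  have hHM : hE κ y < M := hy₀ y e2 D p1 hD κ hκ hκ1
  have hMX : (M : ℝ) ≤ X := by
    have h1 : (M : ℝ) ≤ (4 : ℝ) ^ y := by exact_mod_cast mm_le y D p1
    have hlX : 0 ≤ log (X : ℝ) := Real.log_nonneg hX1
    have h2 : (y : ℝ) ≤ δ * log X := Nat.floor_le (by positivity)
    have h3 : (4 : ℝ) ^ y = exp (y * log 4) := by
      rw [Real.exp_nat_mul, Real.exp_log (by norm_num)]
    have h4 : log 4 ≤ 2 := by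
      have h5 : (4 : ℝ) = 2 ^ 2 := by norm_num
      rw [h5, Real.log_pow]
      have := Real.log_two_lt_d9
      push_cast
      linarith
    have h5 : (y : ℝ) * log 4 ≤ log X := by
      have h6 : 0 ≤ log (4 : ℝ) := Real.log_nonneg (by norm_num)
      calc (y : ℝ) * log 4 ≤ (δ * log X) * 2 := mul_le_mul h2 h4 h6 (by positivity)
        _ = (2 * δ) * log X := by ring
        _ ≤ 1 * log X := mul_le_mul_of_nonneg_right (by linarith) hlX
        _ = log X := one_mul _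
    calc (M : ℝ) ≤ (4 : ℝ) ^ y := h1
      _ = exp (y * log 4) := h3
      _ ≤ exp (log X) := Real.exp_le_exp.2 h5
      _ = X := Real.exp_log hX0
  have hsize : ((a + M * T + hE κ y : ℕ) : ℝ) ≤ x := by
    have h1 : ((M * T : ℕ) : ℝ) ≤ ((61 * X : ℕ) : ℝ) := Nat.cast_le.2 hMT
    have h2 : ((hE κ y : ℕ) : ℝ) ≤ M := Nat.cast_le.2 hHM.le
    push_cast at h1 ⊢
    linarith
  have hpow : x ^ (1 - ε0) ≤ (X : ℝ) ^ (1 - ε / 2) := by
    have h1 : x ^ (1 - ε0) ≤ x ^ (1 - ε) :=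
      Real.rpow_le_rpow_of_exponent_le (by linarith) (by linarith [min_le_left ε0 1])
    have h2 : x ^ (1 - ε) * 140 ≤ x ^ (1 - ε / 2) := by
      have h3 : x ^ (1 - ε / 2) = x ^ (1 - ε) * x ^ (ε / 2) := by
        rw [← Real.rpow_add hx0]
        congr 1
        ring
      rw [h3]
      exact mul_le_mul_of_nonneg_left e5 (Real.rpow_nonneg hx0.le _)
    have h3 : (x / 140) ^ (1 - ε / 2) ≤ (X : ℝ) ^ (1 - ε / 2) :=
      Real.rpow_le_rpow (by positivity) e7 (by linarith)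
    have h4 : x ^ (1 - ε / 2) / 140 ≤ (x / 140) ^ (1 - ε / 2) := by
      rw [Real.div_rpow hx0.le (by norm_num)]
      refine div_le_div_of_nonneg_left (Real.rpow_nonneg hx0.le _) (by positivity) ?_
      calc (140 : ℝ) ^ (1 - ε / 2) ≤ (140 : ℝ) ^ (1 : ℝ) :=
            Real.rpow_le_rpow_of_exponent_le (by norm_num) (by linarith)
        _ = 140 := Real.rpow_one _
    linarith
  -- the set of the vectors
  set O := {h : Fin k → ℕ | ((∑ i, h i : ℕ) : ℝ) ≤ Pool.Agent.Lib.H56G.ff x ∧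
        x ^ (1 - ε0) ≤ (Set.ncard {n : ℕ | (Nat.nth Nat.Prime (n + k) : ℝ) ≤ x ∧
        ∀ i : Fin k, Nat.nth Nat.Prime (n + i + 1) = Nat.nth Nat.Prime (n + i) + h i} : ℝ)}
    with hO
  have hOfin : O.Finite := by
    refine (Set.Finite.subset (Finset.finite_toSet
      (Fintype.piFinset (fun _ : Fin k => Iic ⌊Pool.Agent.Lib.H56G.ff x⌋₊))) ?_)
    intro h hh
    rw [Finset.mem_coe, Fintype.mem_piFinset]
    intro i
    rw [Finset.mem_Iic]
    apply Nat.le_floor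
    refine le_trans ?_ hh.1
    exact_mod_cast Finset.single_le_sum (f := h) (fun _ _ => Nat.zero_le _) (Finset.mem_univ i)
  have hx3 : x ≤ 100 * (X : ℝ) + 100 := by
    have := Nat.lt_floor_add_one (x / 70)
    rw [← hXd] at this
    linarith
  have hup' := hup X (le_trans (le_max_right _ _) e1) x (by linarith) hx3
  have hSO : (S : Set (Fin k → ℕ)) ⊆ O := by
    intro h hh
    have hhS : h ∈ S := hh
    have hhB := hS1 hhS
    unfold box at hhB
    rw [Fintype.mem_piFinset] at hhB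
    have hh1 : ∀ i, 1 ≤ h i := fun i => (Finset.mem_Icc.1 (hhB i)).1
    have hcount := a8_count k κ x y M a T h (by exact_mod_cast ha1) hh1
      (fun p hp hpM => mm_prime y D p1 p hp hpM) hHM hsize
    refine ⟨?_, hpow.trans ((hS3 h hhS).trans hcount)⟩
    have hpos : (0 : ℝ) < (((Icc 1 T).filter (fun t => GK (SE κ y M a) a M h t)).card : ℝ) :=
      lt_of_lt_of_le (Real.rpow_pos_of_pos hX0 _) (hS3 h hhS)
    have hne : ((Icc 1 T).filter (fun t => GK (SE κ y M a) a M h t)).Nonempty := by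
      rw [← Finset.card_pos]
      exact_mod_cast hpos
    obtain ⟨t, ht⟩ := hne
    have hsum := a8_sum k κ y M a t h (Finset.mem_filter.1 ht).2
    have hh2 : ((∑ i, h i : ℕ) : ℝ) ≤ (hE κ y : ℝ) := by exact_mod_cast hsum
    exact hh2.trans hup'
  have hcard : (S.card : ℝ) ≤ (Set.ncard O : ℝ) := by
    rw [← Set.ncard_coe_finset]
    exact_mod_cast Set.ncard_le_ncard hSO hOfin
  have h3 := hff X (le_trans (le_max_right _ _) (le_trans (le_max_left _ _) e1)) x (by linarith)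
    hx3
  calc c * c' ^ k * ff x ^ k = c * (c' * ff x) ^ k := by ring
    _ ≤ c * (hE κ y : ℝ) ^ k := by
        refine mul_le_mul_of_nonneg_left ?_ hc.le
        exact pow_le_pow_left₀ (mul_nonneg hc'.le e4) h3 k
    _ ≤ (S.card : ℝ) := hS2
    _ ≤ (Set.ncard O : ℝ) := hcard

end Pool.Agent.Lib.H77V
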