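import Pool.Agent.Lib.H77V.Defs

/-!
# Chunk E1: basic facts on `rz`, `mz`
-/

open Finset
open Pool.Agent.Lib.H92V (rp)

namespace Pool.Agent.Lib.H77V

/-- `b` is determined by `a`. -/
theorem rz_le (A B : Finset ℕ) (τ : ℤ) : rz A B τ ≤ A.card := by
  unfold rz
  refine Finset.card_le_card_of_injOn Prod.fst ?_ ?_
  · intro z hz
    rw [Finset.mem_coe, Finset.mem_filter, Finset.mem_product] at hz
    exact hz.1.1
  · intro z hz z' hz' h
    rw [Finset.mem_coe, Finset.mem_filter, Finset.mem_product] at hz hz'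
    have h1 := hz.2
    have h2 := hz'.2
    refine Prod.ext h ?_
    rw [h] at h1
    omega

/-- The pairs with different differences are different. -/
theorem sum_rz_le (A B : Finset ℕ) (T : Finset ℤ) : ∑ τ ∈ T, rz A B τ ≤ A.card * B.card := by
  classical
  unfold rz
  calc ∑ τ ∈ T, ((A ×ˢ B).filter (fun z => (z.2 : ℤ) - z.1 = τ)).card
      = ∑ τ ∈ T, ∑ z ∈ A ×ˢ B, if (z.2 : ℤ) - z.1 = τ then 1 else 0 := by
        refine Finset.sum_congr rfl fun τ _ => ?_
        rw [Finset.card_filter]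
    _ = ∑ z ∈ A ×ˢ B, ∑ τ ∈ T, if (z.2 : ℤ) - z.1 = τ then 1 else 0 := Finset.sum_comm
    _ ≤ ∑ _z ∈ A ×ˢ B, 1 := by
        refine Finset.sum_le_sum fun z _ => ?_
        rw [Finset.sum_ite_eq]
        split_ifs <;> simp
    _ = A.card * B.card := by
        rw [Finset.sum_const, smul_eq_mul, mul_one, Finset.card_product]

theorem rz_mono {A A' B B' : Finset ℕ} (hA : A ⊆ A') (hB : B ⊆ B') (τ : ℤ) :
    rz A B τ ≤ rz A' B' τ := by
  unfold rz
  exact Finset.card_le_card (Finset.filter_subset_filter _ (Finset.product_subset_product hA hB))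

theorem rz_nat (A : Finset ℕ) (h : ℕ) : rz A A h = rp A h := by
  unfold rz rp
  refine Finset.card_bij' (fun z _ => z.1) (fun x _ => (x, x + h)) ?_ ?_ ?_ ?_
  · intro z hz
    rw [Finset.mem_filter, Finset.mem_product] at hz
    rw [Finset.mem_filter]
    refine ⟨hz.1.1, ?_⟩
    have h1 : z.1 + h = z.2 := by
      have := hz.2
      omega
    rw [h1]
    exact hz.1.2
  · intro x hx
    rw [Finset.mem_filter] at hx
    rw [Finset.mem_filter, Finset.mem_product]
    refine ⟨hx, ?_⟩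
    push_cast
    ring
  · intro z hz
    rw [Finset.mem_filter, Finset.mem_product] at hz
    refine Prod.ext rfl ?_
    have := hz.2
    change z.1 + h = z.2
    omega
  · intro x _
    rfl

theorem rz_neg (A : Finset ℕ) (τ : ℤ) : rz A A (-τ) = rz A A τ := by
  unfold rz
  refine Finset.card_bij' (fun z _ => (z.2, z.1)) (fun z _ => (z.2, z.1)) ?_ ?_ ?_ ?_
  · intro z hz
    rw [Finset.mem_filter, Finset.mem_product] at hz ⊢
    refine ⟨⟨hz.1.2, hz.1.1⟩, ?_⟩
    have := hz.2
    change (z.1 : ℤ) - z.2 = τ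
    omega
  · intro z hz
    rw [Finset.mem_filter, Finset.mem_product] at hz ⊢
    refine ⟨⟨hz.1.2, hz.1.1⟩, ?_⟩
    have := hz.2
    change (z.1 : ℤ) - z.2 = -τ
    omega
  · intro z _
    rfl
  · intro z _
    rfl

/-- `rz ≤ |A|` and `sum_rz_le`. -/
theorem mz_le_card (K N : ℕ) (hK : 1 ≤ K) (A : Finset ℕ) : mz K N A A ≤ A.card ^ (K + 1) := by
  unfold mz
  obtain ⟨L, rfl⟩ : ∃ L, K = L + 1 := ⟨K - 1, by omega⟩
  calc ∑ τ ∈ Icc (-(N : ℤ)) N, rz A A τ ^ (L + 1)
      ≤ ∑ τ ∈ Icc (-(N : ℤ)) N, A.card ^ L * rz A A τ := by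
        refine Finset.sum_le_sum fun τ _ => ?_
        rw [pow_succ]
        exact Nat.mul_le_mul_right _ (Nat.pow_le_pow_left (rz_le A A τ) L)
    _ = A.card ^ L * ∑ τ ∈ Icc (-(N : ℤ)) N, rz A A τ := by rw [Finset.mul_sum]
    _ ≤ A.card ^ L * (A.card * A.card) := Nat.mul_le_mul_left _ (sum_rz_le A A _)
    _ = A.card ^ (L + 1 + 1) := by ring

/-- Dilation: a difference of two elements of `m A` is `m τ`, `|τ| ≤ N'`; for different `τ`
these are different. -/
theorem mz_image_mul (K N N' m : ℕ) (hK : 1 ≤ K) (hm : 0 < m) (A : Finset ℕ)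
    (hA : ∀ x ∈ A, x ≤ N') :
    mz K N (A.image (fun q => m * q)) (A.image (fun q => m * q)) ≤ mz K N' A A := by
  classical
  unfold mz
  have hm' : (m : ℤ) ≠ 0 := by exact_mod_cast hm.ne'
  set B := A.image (fun q => m * q) with hB
  have hinj : Function.Injective (fun τ : ℤ => (m : ℤ) * τ) := mul_right_injective₀ hm'
  have key : ∀ τ : ℤ, rz B B (m * τ) ≤ rz A A τ := by
    intro τ
    unfold rz
    have hsub : (B ×ˢ B).filter (fun z => (z.2 : ℤ) - z.1 = m * τ) ⊆
        ((A ×ˢ A).filter (fun z => (z.2 : ℤ) - z.1 = τ)).image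
          (fun z => (m * z.1, m * z.2)) := by
      intro z hz
      rw [Finset.mem_filter, Finset.mem_product] at hz
      obtain ⟨⟨h1, h2⟩, h3⟩ := hz
      rw [hB, Finset.mem_image] at h1 h2
      obtain ⟨a, ha, ha'⟩ := h1
      obtain ⟨b, hb, hb'⟩ := h2
      rw [Finset.mem_image]
      refine ⟨(a, b), ?_, ?_⟩
      · rw [Finset.mem_filter, Finset.mem_product]
        refine ⟨⟨ha, hb⟩, ?_⟩
        apply hinj
        change (m : ℤ) * ((b : ℤ) - a) = m * τ
        rw [← h3, ← ha', ← hb']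
        push_cast
        ring
      · exact Prod.ext ha' hb'
    exact (Finset.card_le_card hsub).trans Finset.card_image_le
  calc ∑ τ ∈ Icc (-(N : ℤ)) N, rz B B τ ^ K
      ≤ ∑ τ ∈ (Icc (-(N' : ℤ)) N').image (fun τ : ℤ => (m : ℤ) * τ), rz B B τ ^ K := by
        refine Finset.sum_le_sum_of_ne_zero fun τ _ hτ => ?_
        have h1 : rz B B τ ≠ 0 := by
          intro h0
          apply hτ
          rw [h0]
          exact zero_pow (by omega)
        unfold rz at h1
        obtain ⟨z, hz⟩ := Finset.card_ne_zero.1 h1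
        rw [Finset.mem_filter, Finset.mem_product] at hz
        obtain ⟨⟨h2, h3⟩, h4⟩ := hz
        rw [hB, Finset.mem_image] at h2 h3
        obtain ⟨a, ha, ha'⟩ := h2
        obtain ⟨b, hb, hb'⟩ := h3
        have ha1 := hA a ha
        have hb1 := hA b hb
        rw [Finset.mem_image]
        refine ⟨(b : ℤ) - a, ?_, ?_⟩
        · rw [Finset.mem_Icc]
          constructor <;> omega
        · rw [← h4, ← ha', ← hb']
          push_cast
          ring
    _ = ∑ τ ∈ Icc (-(N' : ℤ)) N', rz B B (m * τ) ^ K :=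
        Finset.sum_image fun x _ y _ h => hinj h
    _ ≤ ∑ τ ∈ Icc (-(N' : ℤ)) N', rz A A τ ^ K :=
        Finset.sum_le_sum fun τ _ => Nat.pow_le_pow_left (key τ) K

end Pool.Agent.Lib.H77V
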