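import Pool.Agent.Lib.H92V.V1
import Pool.Agent.Lib.H77V.E1

/-!
# Chunk E2: Cauchy-Schwarz for the `K`-th moments
-/

open Finset

namespace Pool.Agent.Lib.H77V

/-- `rz A B τ ^ (k + 1)` = number of the pairs of tuples `(x, y) ∈ A^(k+1) × B^(k+1)` with
`y i - x i = τ` for all `i`, so `mz (k + 1) N A B` = number of the pairs of tuples such that
`y i - x i` does not depend on `i` (the differences have absolute value at most `N`), that is, such that
`x` and `y` have the same difference vector `φ x = fun i => (x i : ℤ) - x 0`.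
(Put `φ = E2_df`; one direction: `y i - x i = y 0 - x 0` for all `i` iff `φ x = φ y`.) -/
theorem mz_eq_card (k N : ℕ) (A B : Finset ℕ) (hA : ∀ x ∈ A, x ≤ N) (hB : ∀ x ∈ B, x ≤ N) :
    mz (k + 1) N A B =
      (((Fintype.piFinset (fun _ : Fin (k + 1) => A)) ×ˢ
        (Fintype.piFinset (fun _ : Fin (k + 1) => B))).filter
        (fun z => (fun i => (z.1 i : ℤ) - z.1 0) = (fun i => (z.2 i : ℤ) - z.2 0))).card := by
  unfold mz
  rw [card_eq_sum_card_fiberwise (f := fun z : (Fin (k + 1) → ℕ) × (Fin (k + 1) → ℕ) =>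
    (z.2 0 : ℤ) - z.1 0) (t := Icc (-(N : ℤ)) N)]
  · apply sum_congr rfl
    intro τ _
    have h1 : rz A B τ ^ (k + 1) = (Fintype.piFinset (fun _ : Fin (k + 1) =>
        (A ×ˢ B).filter (fun z => (z.2 : ℤ) - z.1 = τ))).card := by
      rw [Fintype.card_piFinset_const]
      rfl
    rw [h1]
    refine card_nbij' (fun w => (fun i => (w i).1, fun i => (w i).2))
      (fun z => fun i => (z.1 i, z.2 i)) ?_ ?_ ?_ ?_
    · intro w hw
      rw [mem_coe, Fintype.mem_piFinset] at hw
      simp only [mem_filter, mem_product] at hw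
      rw [mem_coe, mem_filter, mem_filter, mem_product, Fintype.mem_piFinset, Fintype.mem_piFinset]
      refine ⟨⟨⟨fun i => (hw i).1.1, fun i => (hw i).1.2⟩, ?_⟩, (hw 0).2⟩
      funext i
      have h2 := (hw i).2
      have h3 := (hw 0).2
      show ((w i).1 : ℤ) - (w 0).1 = (w i).2 - (w 0).2
      omega
    · intro z hz
      rw [mem_coe, mem_filter, mem_filter, mem_product, Fintype.mem_piFinset,
        Fintype.mem_piFinset] at hz
      obtain ⟨⟨⟨hz1, hz2⟩, hz3⟩, hz4⟩ := hz
      rw [mem_coe, Fintype.mem_piFinset]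
      intro i
      rw [mem_filter, mem_product]
      refine ⟨⟨hz1 i, hz2 i⟩, ?_⟩
      have h5 := congrFun hz3 i
      beta_reduce at h5 hz4 ⊢
      omega
    · intro w _
      rfl
    · intro z _
      rfl
  · intro z hz
    rw [mem_coe, mem_filter, mem_product, Fintype.mem_piFinset, Fintype.mem_piFinset] at hz
    have h1 := hA _ (hz.1.1 0)
    have h2 := hB _ (hz.1.2 0)
    rw [mem_coe, mem_Icc]
    beta_reduce
    constructor <;> omega

/-- `mz_eq_card` and `V1_card_fiber` (`H92V/V1.lean`): with `c_A(d)` = number of the tuples in `A^(k+1)`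
with difference vector `d`, `mz A B = ∑_d c_A(d) c_B(d)`; Cauchy-Schwarz (`sum_mul_sq_le_sq_mul_sq`), cf.
`V1_cs`. -/
theorem mz_cs (k N : ℕ) (A B : Finset ℕ) (hA : ∀ x ∈ A, x ≤ N) (hB : ∀ x ∈ B, x ≤ N) :
    mz (k + 1) N A B ^ 2 ≤ mz (k + 1) N A A * mz (k + 1) N B B := by
  classical
  rw [mz_eq_card k N A B hA hB, mz_eq_card k N A A hA hA, mz_eq_card k N B B hB hB]
  set φ : (Fin (k + 1) → ℕ) → (Fin (k + 1) → ℤ) := fun x i => (x i : ℤ) - x 0 with hφ
  set PA := Fintype.piFinset (fun _ : Fin (k + 1) => A)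
  set PB := Fintype.piFinset (fun _ : Fin (k + 1) => B)
  set K : Finset (Fin (k + 1) → ℤ) := PA.image φ ∪ PB.image φ with hK
  have hK1 : ∀ u ∈ PA, φ u ∈ K := fun u hu => mem_union_left _ (mem_image_of_mem _ hu)
  have hK2 : ∀ u ∈ PB, φ u ∈ K := fun u hu => mem_union_right _ (mem_image_of_mem _ hu)
  have key : ∀ s t : Finset (Fin (k + 1) → ℕ), (∀ u ∈ s, φ u ∈ K) →
      ((s ×ˢ t).filter (fun z => (fun i => (z.1 i : ℤ) - z.1 0) = (fun i => (z.2 i : ℤ) - z.2 0))).card =
      ∑ d ∈ K, (s.filter (fun x => φ x = d)).card * (t.filter (fun y => φ y = d)).card := by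
    intro s t hs
    rw [← H92V.V1_card_fiber s t φ φ K hs]
  rw [key PA PB hK1, key PA PA hK1, key PB PB hK2]
  simp only [← pow_two]
  exact sum_mul_sq_le_sq_mul_sq K _ _

end Pool.Agent.Lib.H77V
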