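import Pool.Agent.Lib.H92V.V4A

/-!
# Chunk E6: correlations of `m ≤ 2 K` numbers
-/

open Finset Real
open Pool.Agent.Lib.H5C

namespace Pool.Agent.Lib.H77V

/-- As `H92V.corr_local` (copy its proof) with `m` in place of `4`. -/
theorem corrK_local (p : ℕ) (hp : p.Prime) (X : Finset ℕ) (hX0 : X.Nonempty) (m : ℕ)
    (hc : X.card ≤ m + 1) (d : ℕ) (hd : ∀ x ∈ X, ∀ y ∈ X, x < y → (y - x) ∣ d) :
    (((range p).filter (fun a => ∀ x ∈ X, ¬ p ∣ a + x)).card : ℝ) ≤
      (p : ℝ) * (1 - 1 / (p : ℝ)) ^ X.card *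
        (if p ∣ d then ((1 - 1 / (p : ℝ))⁻¹) ^ m else 1) := by
  classical
  have hp2 : (2 : ℝ) ≤ p := by exact_mod_cast hp.two_le
  have hp0 : (0 : ℝ) < p := by linarith
  have hx1 : 1 / (p : ℝ) ≤ 1 / 2 := one_div_le_one_div_of_le (by norm_num) hp2
  have hx2 : 0 < 1 / (p : ℝ) := by positivity
  have hx : 0 < 1 - 1 / (p : ℝ) := by linarith
  have hinv1 : 1 ≤ (1 - 1 / (p : ℝ))⁻¹ := by
    rw [one_le_inv₀ hx]
    linarith
  have hne : (p : ℝ) ≠ 0 := hp0.ne'
  by_cases hinj : ∀ x ∈ X, ∀ y ∈ X, x % p = y % p → x = y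
  · have h1 := H92V.corr_inj p hp X hinj
    have h2 : (((range p).filter (fun a => ∀ x ∈ X, ¬ p ∣ a + x)).card : ℝ) + X.card ≤ p := by
      exact_mod_cast h1
    have h3 : 1 + (X.card : ℝ) * (-(1 / (p : ℝ))) ≤ (1 + -(1 / (p : ℝ))) ^ X.card :=
      one_add_mul_le_pow (by linarith) _
    have h4 : (p : ℝ) - X.card ≤ (p : ℝ) * (1 - 1 / (p : ℝ)) ^ X.card := by
      have h5 : (p : ℝ) * (1 + (X.card : ℝ) * (-(1 / (p : ℝ)))) = p - X.card := by
        field_simp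
        ring
      rw [← h5, show (1 - 1 / (p : ℝ)) = 1 + -(1 / (p : ℝ)) by ring]
      exact mul_le_mul_of_nonneg_left h3 hp0.le
    have h6 : 0 ≤ (p : ℝ) * (1 - 1 / (p : ℝ)) ^ X.card := by positivity
    have h7 : (1 : ℝ) ≤ (if p ∣ d then ((1 - 1 / (p : ℝ))⁻¹) ^ m else 1) := by
      split_ifs
      · exact one_le_pow₀ hinv1
      · exact le_refl _
    calc (((range p).filter (fun a => ∀ x ∈ X, ¬ p ∣ a + x)).card : ℝ)
        ≤ (p : ℝ) * (1 - 1 / (p : ℝ)) ^ X.card := by linarith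
      _ ≤ _ := le_mul_of_one_le_right h6 h7
  · push Not at hinj
    obtain ⟨x, hxX, y, hyX, hxy, hne'⟩ := hinj
    have hpd : p ∣ d := by
      rcases lt_or_gt_of_ne hne' with h | h
      · refine dvd_trans ?_ (hd x hxX y hyX h)
        exact (Nat.modEq_iff_dvd' h.le).1 hxy
      · refine dvd_trans ?_ (hd y hyX x hxX h)
        exact (Nat.modEq_iff_dvd' h.le).1 hxy.symm
    rw [if_pos hpd]
    have h1 : ((range p).filter (fun a => ∀ x ∈ X, ¬ p ∣ a + x)).card ≤ p - 1 := by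
      rw [← er1_card_one p hp x]
      apply card_le_card
      intro a ha
      rw [mem_filter] at ha ⊢
      exact ⟨ha.1, ha.2 x hxX⟩
    have h2 : (((range p).filter (fun a => ∀ x ∈ X, ¬ p ∣ a + x)).card : ℝ) ≤ (p : ℝ) - 1 := by
      have h3 : (((range p).filter (fun a => ∀ x ∈ X, ¬ p ∣ a + x)).card : ℝ) ≤
        ((p - 1 : ℕ) : ℝ) := by exact_mod_cast h1
      rw [Nat.cast_sub hp.one_le] at h3
      simpa using h3
    refine h2.trans ?_
    have h4 : (p : ℝ) - 1 = p * (1 - 1 / (p : ℝ)) := by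
      field_simp
    rw [h4, mul_assoc]
    apply mul_le_mul_of_nonneg_left _ hp0.le
    have hm1 : 1 ≤ X.card := hX0.card_pos
    have h5 : (1 - 1 / (p : ℝ)) ^ X.card * ((1 - 1 / (p : ℝ))⁻¹) ^ m =
        (1 - 1 / (p : ℝ)) * (((1 - 1 / (p : ℝ))⁻¹) ^ (m + 1 - X.card)) := by
      have hx' := hx.ne'
      have h6 : (1 - 1 / (p : ℝ)) ^ X.card * ((1 - 1 / (p : ℝ))⁻¹) ^ (X.card) = 1 := by
        rw [← mul_pow, mul_inv_cancel₀ hx', one_pow]
      have h7 : ((1 - 1 / (p : ℝ))⁻¹) ^ m = (1 - 1 / (p : ℝ)) * ((1 - 1 / (p : ℝ))⁻¹) ^ (m + 1) := by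
        rw [pow_succ]
        rw [mul_comm _ ((1 - 1 / (p : ℝ))⁻¹), ← mul_assoc, mul_inv_cancel₀ hx', one_mul]
      have h8 : ((1 - 1 / (p : ℝ))⁻¹) ^ (m + 1) =
          ((1 - 1 / (p : ℝ))⁻¹) ^ (X.card) * ((1 - 1 / (p : ℝ))⁻¹) ^ (m + 1 - X.card) := by
        rw [← pow_add]
        congr 1
        omega
      rw [h7, h8]
      calc (1 - 1 / (p : ℝ)) ^ X.card * ((1 - 1 / (p : ℝ)) *
            (((1 - 1 / (p : ℝ))⁻¹) ^ (X.card) * ((1 - 1 / (p : ℝ))⁻¹) ^ (m + 1 - X.card)))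
          = ((1 - 1 / (p : ℝ)) ^ X.card * ((1 - 1 / (p : ℝ))⁻¹) ^ (X.card)) *
            ((1 - 1 / (p : ℝ)) * ((1 - 1 / (p : ℝ))⁻¹) ^ (m + 1 - X.card)) := by ring
        _ = _ := by rw [h6, one_mul]
    rw [h5]
    exact le_mul_of_one_le_right hx.le (one_le_pow₀ hinv1)

/-- As `H92V.corr` (copy its proof) with `|X| ≤ 2 K`: `d` = product of the at most `2 K^2` differences
(`d ≤ H^(2 K^2)`; pairs `x < x'`: at most `|X|²/2`), exponent `m = 2 K - 1`, so the factor is at most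
`exp (4 · 2 K² log H/w)^(2 K) = exp (16 K³ log H/w) ≤ exp (1/2) ≤ 2`. -/
theorem corrK (K : ℕ) (hK : 1 ≤ K) (P : Finset ℕ) (w H : ℕ) (hw : 2 ≤ w)
    (hP : ∀ p ∈ P, p.Prime ∧ w < p) (hH : 16 * (K : ℝ) ^ 3 * log H / w ≤ 1 / 2) (X : Finset ℕ)
    (hX : ∀ x ∈ X, 1 ≤ x ∧ x ≤ H) (hc : X.card ≤ 2 * K) :
    (((range (∏ p ∈ P, p)).filter (fun a => ∀ x ∈ X, ∀ p ∈ P, ¬ p ∣ a + x)).card : ℝ) ≤
      2 * ((∏ p ∈ P, (p : ℝ)) * (∏ p ∈ P, (1 - 1 / (p : ℝ))) ^ X.card) := by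
  classical
  have hPp : 0 ≤ ∏ p ∈ P, (p : ℝ) := prod_nonneg fun p _ => Nat.cast_nonneg _
  rcases X.eq_empty_or_nonempty with hX0 | hX0
  · subst hX0
    simp only [notMem_empty, IsEmpty.forall_iff, implies_true, filter_true, card_range, card_empty,
      pow_zero, mul_one]
    push_cast
    linarith
  set T := (X ×ˢ X).filter (fun x => x.1 < x.2) with hT
  set d := ∏ x ∈ T, (x.2 - x.1) with hdd
  have hTm : ∀ x ∈ T, x.1 ∈ X ∧ x.2 ∈ X ∧ x.1 < x.2 := by
    intro x hx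
    rw [hT, mem_filter, mem_product] at hx
    exact ⟨hx.1.1, hx.1.2, hx.2⟩
  have hT6 : T.card ≤ 2 * K ^ 2 := by
    have h1 : T.card + T.card ≤ X.offDiag.card := by
      have h2 : (T.image Prod.swap).card = T.card := card_image_of_injective _ Prod.swap_injective
      have h3 : Disjoint T (T.image Prod.swap) := by
        rw [disjoint_left]
        intro x hx hx'
        rw [mem_image] at hx'
        obtain ⟨z, hz, rfl⟩ := hx'
        have h4 := (hTm z hz).2.2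
        have h5 := (hTm _ hx).2.2
        simp only [Prod.fst_swap, Prod.snd_swap] at h5
        omega
      calc T.card + T.card = (T ∪ T.image Prod.swap).card := by
            rw [card_union_of_disjoint h3, h2]
        _ ≤ X.offDiag.card := by
            apply card_le_card
            intro x hx
            rw [mem_offDiag]
            rcases mem_union.1 hx with h | h
            · obtain ⟨h6, h7, h8⟩ := hTm x h
              exact ⟨h6, h7, h8.ne⟩
            · rw [mem_image] at h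
              obtain ⟨z, hz, rfl⟩ := h
              obtain ⟨h6, h7, h8⟩ := hTm z hz
              exact ⟨h7, h6, h8.ne'⟩
    rw [offDiag_card] at h1
    have h2 : X.card * X.card - X.card ≤ 4 * K ^ 2 := by
      calc X.card * X.card - X.card ≤ X.card * X.card := Nat.sub_le _ _
        _ ≤ (2 * K) * (2 * K) := Nat.mul_le_mul hc hc
        _ = 4 * K ^ 2 := by ring
    omega
  have hd1 : 1 ≤ d := by
    apply Nat.one_le_iff_ne_zero.2
    rw [hdd, prod_ne_zero_iff]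
    intro x hx
    have := (hTm x hx).2.2
    omega
  have hH1 : 1 ≤ H := by
    obtain ⟨x, hx⟩ := hX0
    have := hX x hx
    omega
  have hlogH : 0 ≤ log H := log_nonneg (by exact_mod_cast hH1)
  have hdH : d ≤ H ^ (2 * K ^ 2) := by
    calc d ≤ ∏ x ∈ T, H := by
          apply prod_le_prod' fun x hx => ?_
          have h1 := hTm x hx
          have h2 := hX _ h1.2.1
          omega
      _ = H ^ T.card := prod_const _
      _ ≤ H ^ (2 * K ^ 2) := Nat.pow_le_pow_right hH1 hT6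
  have hlogd : log d ≤ 2 * (K : ℝ) ^ 2 * log H := by
    have h1 : log (d : ℝ) ≤ log ((H : ℝ) ^ (2 * K ^ 2)) := by
      apply log_le_log (by exact_mod_cast hd1)
      exact_mod_cast hdH
    rw [log_pow] at h1
    exact_mod_cast h1
  have hw0 : (0 : ℝ) < w := by
    have : 0 < w := by omega
    exact_mod_cast this
  have hloc := local_le P w d hw hP hd1
  have hloc2 : ∏ p ∈ P.filter (fun p => p ∣ d), (1 - 1 / (p : ℝ))⁻¹ ≤
      exp (8 * (K : ℝ) ^ 2 * log H / w) := by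
    refine hloc.trans ?_
    apply exp_le_exp.2
    apply div_le_div_of_nonneg_right _ hw0.le
    linarith
  have hpos : 0 ≤ ∏ p ∈ P.filter (fun p => p ∣ d), (1 - 1 / (p : ℝ))⁻¹ := by
    refine prod_nonneg fun p hp => ?_
    have hp1 := (hP p (mem_filter.1 hp).1).1
    have hp2 : (2 : ℝ) ≤ p := by exact_mod_cast hp1.two_le
    have hx1 : 1 / (p : ℝ) ≤ 1 / 2 := one_div_le_one_div_of_le (by norm_num) hp2
    rw [inv_nonneg]
    linarith
  have h3 : (∏ p ∈ P.filter (fun p => p ∣ d), (1 - 1 / (p : ℝ))⁻¹) ^ (2 * K - 1) ≤ 2 := by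
    calc (∏ p ∈ P.filter (fun p => p ∣ d), (1 - 1 / (p : ℝ))⁻¹) ^ (2 * K - 1)
        ≤ (exp (8 * (K : ℝ) ^ 2 * log H / w)) ^ (2 * K - 1) := pow_le_pow_left₀ hpos hloc2 _
      _ = exp (((2 * K - 1 : ℕ) : ℝ) * (8 * (K : ℝ) ^ 2 * log H / w)) := by
          rw [← exp_nat_mul]
      _ ≤ exp (1 / 2) := by
          apply exp_le_exp.2
          refine le_trans ?_ hH
          have e1 : ((2 * K - 1 : ℕ) : ℝ) ≤ 2 * (K : ℝ) := by
            have : (2 * K - 1 : ℕ) ≤ 2 * K := Nat.sub_le _ _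
            exact_mod_cast this
          have e2 : 0 ≤ 8 * (K : ℝ) ^ 2 * log H / w := by positivity
          calc ((2 * K - 1 : ℕ) : ℝ) * (8 * (K : ℝ) ^ 2 * log H / w)
              ≤ 2 * (K : ℝ) * (8 * (K : ℝ) ^ 2 * log H / w) := mul_le_mul_of_nonneg_right e1 e2
            _ = 16 * (K : ℝ) ^ 3 * log H / w := by ring
      _ ≤ 2 := by
          have e1 : exp (1 / 2 : ℝ) * exp (1 / 2) = exp 1 := by
            rw [← exp_add]; norm_num
          have e2 : exp (1 : ℝ) < 2.7182818286 := exp_one_lt_d9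
          have e3 : 0 < exp (1 / 2 : ℝ) := exp_pos _
          nlinarith
  have hd2 : ∀ x ∈ X, ∀ y ∈ X, x < y → (y - x) ∣ d := by
    intro x hx y hy hxy
    have : (x, y) ∈ T := by
      rw [hT, mem_filter, mem_product]
      exact ⟨⟨hx, hy⟩, hxy⟩
    exact dvd_prod_of_mem (fun x : ℕ × ℕ => x.2 - x.1) this
  have hcomm : (range (∏ p ∈ P, p)).filter (fun a => ∀ x ∈ X, ∀ p ∈ P, ¬ p ∣ a + x) =
      (range (∏ p ∈ P, p)).filter (fun a => ∀ p ∈ P, ∀ x ∈ X, ¬ p ∣ a + x) := by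
    apply filter_congr
    intro a _
    exact ⟨fun h p hp x hx => h x hx p hp, fun h x hx p hp => h p hp x hx⟩
  rw [hcomm, er1_prod P (fun p hp => (hP p hp).1) (fun p a => ∀ x ∈ X, ¬ p ∣ a + x) (fun p a => by
    show (∀ x ∈ X, ¬ p ∣ a + p + x) = (∀ x ∈ X, ¬ p ∣ a + x)
    apply propext
    refine forall_congr' fun x => ?_
    rw [show a + p + x = a + x + p by ring, Nat.dvd_add_self_right])]
  calc ∏ p ∈ P, (((range p).filter (fun a => ∀ x ∈ X, ¬ p ∣ a + x)).card : ℝ)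
      ≤ ∏ p ∈ P, ((p : ℝ) * (1 - 1 / (p : ℝ)) ^ X.card *
          (if p ∣ d then ((1 - 1 / (p : ℝ))⁻¹) ^ (2 * K - 1) else 1)) := by
        refine prod_le_prod (fun p _ => Nat.cast_nonneg _) fun p hp => ?_
        exact corrK_local p (hP p hp).1 X hX0 (2 * K - 1) (by omega) d hd2
    _ = ((∏ p ∈ P, (p : ℝ)) * (∏ p ∈ P, (1 - 1 / (p : ℝ))) ^ X.card) *
          (∏ p ∈ P.filter (fun p => p ∣ d), (1 - 1 / (p : ℝ))⁻¹) ^ (2 * K - 1) := by
        rw [prod_mul_distrib, prod_mul_distrib, prod_pow]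
        congr 1
        rw [← prod_pow, prod_filter]
    _ ≤ ((∏ p ∈ P, (p : ℝ)) * (∏ p ∈ P, (1 - 1 / (p : ℝ))) ^ X.card) * 2 := by
        apply mul_le_mul_of_nonneg_left h3
        apply mul_nonneg hPp
        apply pow_nonneg
        refine prod_nonneg fun p hp => ?_
        have hp1 := (hP p hp).1
        have hp2 : (2 : ℝ) ≤ p := by exact_mod_cast hp1.two_le
        have hx1 : 1 / (p : ℝ) ≤ 1 / 2 := one_div_le_one_div_of_le (by norm_num) hp2
        linarith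
    _ = _ := by ring

end Pool.Agent.Lib.H77V
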