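import Pool.Agent.Lib.H77V.KD

/-!
# Chunk KA: the coefficients `crL`
-/

open Finset
open Pool.Agent.Lib.H56G
open Pool.Agent.Lib.H5C

namespace Pool.Agent.Lib.H77V

variable {ι J : Type} [Fintype ι] [DecidableEq ι] [Fintype J] [DecidableEq J]

/-- `th3_sum_cr`, induction on `js`. -/
theorem crL_sum (s : Sys ι J) (js : List J) (c : (ι → Option J) → ℝ) (t : ℕ)
    (ht : ∀ j ∈ js, ∀ i, ¬ s.pr i ∣ s.b j + s.M * t) :
    ∑ κ, c κ * s.U κ t = ∑ κ, crL js c κ * s.U κ t := by
  induction js with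
  | nil => rfl
  | cons j js ih =>
    have h1 : ∀ j' ∈ js, ∀ i, ¬ s.pr i ∣ s.b j' + s.M * t :=
      fun j' hj' => ht j' (List.mem_cons_of_mem _ hj')
    rw [ih h1, th3_sum_cr s (crL js c) j t (ht j List.mem_cons_self)]
    rfl

/-- `th3_cr_le`, induction on `js`. -/
theorem crL_r (s : Sys ι J) (js : List J) (c : (ι → Option J) → ℝ) (D1 : ℝ)
    (hc : ∀ κ, c κ ≠ 0 → s.r κ ≤ D1) (κ : ι → Option J) (h : crL js c κ ≠ 0) :
    s.r κ ≤ D1 := by
  induction js generalizing κ with
  | nil => exact hc κ h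
  | cons j js ih => exact th3_cr_le s (crL js c) D1 j (fun κ' h' => ih κ' h') κ h

/-- If `d` vanishes off `noJ j1` then so does `cr j2 d` (`j1 ≠ j2`); see the second half of the
proof of `th3_cmaj_noJ`. -/
theorem cr_noJ (d : (ι → Option J) → ℝ) (j1 j2 : J) (hj : j1 ≠ j2)
    (hd : ∀ κ, d κ ≠ 0 → κ ∈ noJ j1) (κ : ι → Option J) (h : cr j2 d κ ≠ 0) : κ ∈ noJ j1 := by
  unfold cr at h
  by_cases h2 : κ ∈ noJ j2
  · rw [if_pos h2] at h
    unfold cp at h
    obtain ⟨A, hA, hne⟩ := Finset.exists_ne_zero_of_sum_ne_zero h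
    rw [Finset.mem_powerset] at hA
    have h4 := hd _ hne
    rw [off_mem_noJ] at h4 ⊢
    intro i
    by_cases h3 : i ∈ A
    · rw [(off_mem_free κ i).1 (hA h3)]
      simp
    · have h5 := h4 i
      unfold ins at h5
      rwa [if_neg h3] at h5
  · rw [if_neg h2] at h
    exact absurd rfl h

/-- `crL js c` vanishes off `noJ j` for every `j ∈ js` (`cr_noJ`; the first form by the definition
of `cr`). -/
theorem crL_noJ (js : List J) (hnd : js.Nodup) (c : (ι → Option J) → ℝ) (κ : ι → Option J)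
    (h : crL js c κ ≠ 0) : ∀ j ∈ js, κ ∈ noJ j := by
  induction js generalizing κ with
  | nil =>
    intro j hj
    simp at hj
  | cons j0 js ih =>
    intro j hj
    have hnd' := List.nodup_cons.1 hnd
    rcases List.mem_cons.1 hj with hj' | hj'
    · subst hj'
      by_contra h1
      apply h
      change cr j (crL js c) κ = 0
      unfold cr
      rw [if_neg h1]
    · have hne : j ≠ j0 := by
        intro h1
        rw [h1] at hj'
        exact hnd'.1 hj'
      exact cr_noJ (crL js c) j j0 hne (fun κ' h' => ih hnd'.2 κ' h' j hj') κ h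

/-- If `d` vanishes off `noJ j` for every `j ∈ js` then `crL js d = d` (`th3_cp_eq`). -/
theorem crL_id (js : List J) (d : (ι → Option J) → ℝ)
    (hd : ∀ κ, d κ ≠ 0 → ∀ j ∈ js, κ ∈ noJ j) (κ : ι → Option J) : crL js d κ = d κ := by
  induction js generalizing κ with
  | nil => rfl
  | cons j js ih =>
    have h1 : crL js d = d :=
      funext fun κ' => ih (fun κ'' h j' hj' => hd κ'' h j' (List.mem_cons_of_mem _ hj')) κ'
    change cr j (crL js d) κ = d κ
    rw [h1]
    unfold cr
    by_cases h2 : κ ∈ noJ j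
    · rw [if_pos h2]
      exact th3_cp_eq d j (fun κ' h' => hd κ' h' j List.mem_cons_self) κ
    · rw [if_neg h2]
      by_contra h3
      exact h2 (hd κ (fun h4 => h3 h4.symm) j List.mem_cons_self)

/-- The majorant coefficients in a form `j ∉ js` of a `d` which vanishes off `noJ j'` for every
`j' ∈ js` vanish there as well (as `th3_cmaj_noJ`). -/
theorem cmajL_noJ (s : Sys ι J) (d : (ι → Option J) → ℝ) (D2 : ℝ) (js : List J) (j : J)
    (hj : j ∉ js) (hd : ∀ κ, d κ ≠ 0 → ∀ j' ∈ js, κ ∈ noJ j') (κ : ι → Option J)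
    (h : cmaj s d D2 j κ ≠ 0) : ∀ j' ∈ js, κ ∈ noJ j' := by
  intro j' hj'
  obtain ⟨κ', hκ', A, hA, rfl⟩ := maj3_exists_ins j κ
  rw [cmaj_ins s d D2 j κ' hκ' A hA] at h
  have h0 : cp j d κ' ≠ 0 := by
    intro h4
    rw [h4] at h
    simp at h
  have h1 : κ' ∈ noJ j' := by
    unfold cp at h0
    obtain ⟨B, hB, hne⟩ := Finset.exists_ne_zero_of_sum_ne_zero h0
    rw [Finset.mem_powerset] at hB
    have h2 := hd _ hne j' hj'
    rw [off_mem_noJ] at h2 ⊢
    intro i
    by_cases h3 : i ∈ B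
    · rw [(off_mem_free κ' i).1 (hB h3)]
      simp
    · have h5 := h2 i
      unfold ins at h5
      rwa [if_neg h3] at h5
  rw [off_mem_noJ] at h1 ⊢
  intro i
  unfold ins
  by_cases h3 : i ∈ A
  · rw [if_pos h3]
    intro h4
    apply hj
    rw [Option.some.inj h4]
    exact hj'
  · rw [if_neg h3]
    exact h1 i

/-- Scaling. -/
theorem crL_smul (js : List J) (c : (ι → Option J) → ℝ) (a : ℝ) (κ : ι → Option J) :
    crL js (fun κ => a * c κ) κ = a * crL js c κ := by
  induction js generalizing κ with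
  | nil => rfl
  | cons j js ih =>
    have h1 : crL js (fun κ => a * c κ) = fun κ => a * crL js c κ := funext fun κ' => ih κ'
    change cr j (crL js (fun κ => a * c κ)) κ = a * cr j (crL js c) κ
    rw [h1]
    unfold cr
    by_cases h2 : κ ∈ noJ j
    · rw [if_pos h2, if_pos h2]
      unfold cp
      rw [Finset.mul_sum]
    · rw [if_neg h2, if_neg h2, mul_zero]

end Pool.Agent.Lib.H77V
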