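import Pool.Agent.Lib.H77V.KA

/-!
# Chunk KB1: several forms without small prime factors (general coefficients)
-/

open Finset
open Pool.Agent.Lib.H56G
open Pool.Agent.Lib.H5C

namespace Pool.Agent.Lib.H77V

variable {ι J : Type} [Fintype ι] [DecidableEq ι] [Fintype J] [DecidableEq J]

/-- The sum of the squares of `cr j c`. -/
theorem kb1_sum_cr (s : Sys ι J) (j : J) (c : (ι → Option J) → ℝ) :
    ∑ κ, (cr j c κ) ^ 2 * s.ph κ = ∑ κ ∈ noJ j, (cp j c κ) ^ 2 * s.ph κ := by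
  rw [← Finset.sum_subset (Finset.subset_univ (noJ j))]
  · refine Finset.sum_congr rfl fun κ hκ => ?_
    unfold cr
    rw [if_pos hκ]
  · intro κ _ hκ
    unfold cr
    rw [if_neg hκ]
    ring

theorem kb1_cp_abs (j : J) (c : (ι → Option J) → ℝ) (h : ∀ κ, |cr j c κ| ≤ 1) :
    ∀ κ ∈ noJ j, |cp j c κ| ≤ 1 := by
  intro κ hκ
  have h1 := h κ
  unfold cr at h1
  rwa [if_pos hκ] at h1

/-- Induction on the list (all `c`, `D1`). List `[j]`: `maj` (and `∑_{noJ j} (cp j c)² ph =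
∑ (cr j c)² ph`). Step `j :: js`, `js ≠ []`: `c' = crL js c`, `d = cmaj s c' D2 j`. `d` vanishes off `noJ j'`
for all `j' ∈ js` (`crL_noJ`, `cmajL_noJ`), so `crL js d = d` (`crL_id`); `|d| ≤ 1` (`maj3_abs_le`, as
`|cp j c' κ| = |crL (j :: js) c κ| ≤ 1` for `κ ∈ noJ j`), level `D1 D2` (`maj3_r_le`, `crL_r`). For the `t` in
question `∑ c U = ∑ c' U = ∑ d U` (`crL_sum`, `sum_cmaj_eq`). Induction hypothesis for `js`, `d`, `D1 D2`, and
`∑ d² ph ≤ ∑ d² ps ≤ (K/V0) ∑_{noJ j} (cp j c')² ph` (`th3_ph_le_ps`, `norm_cmaj_le`). Compare `pair_maj`. -/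
theorem multi_maj (s : Sys ι J) (W : ℕ) (hW1 : 1 ≤ W) (hpr : ∀ i, W < s.pr i)
    (hJ : Fintype.card J ≤ W) (D2 V0 K : ℝ) (hD2 : 1 ≤ D2) (hV0 : 1 ≤ V0) (hK0 : 0 ≤ K) (Y : ℕ)
    (js : List J) (hnd : js.Nodup) (hne : js ≠ []) (c : (ι → Option J) → ℝ) (D1 : ℝ)
    (hD1 : 1 ≤ D1) (hc : ∀ κ, c κ ≠ 0 → s.r κ ≤ D1) (hcp : ∀ κ, |crL js c κ| ≤ 1)
    (hV : ∀ κ : ι → Option J, s.r κ ≤ D1 * D2 ^ (js.length - 1) → V0 ≤ s.VV D2 κ)
    (hK : ∀ κ : ι → Option J, s.r κ ≤ D1 * D2 ^ js.length → s.ps κ ≤ K * s.ph κ) :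
    ∑ t ∈ (Icc 1 Y).filter (fun t => ∀ j ∈ js, ∀ i, ¬ s.pr i ∣ s.b j + s.M * t),
        (∑ κ, c κ * s.U κ t) ^ 2
      ≤ Y * (K / V0) ^ js.length * ∑ κ, (crL js c κ) ^ 2 * s.ph κ +
        18 * (D1 * D2 ^ js.length) ^ 8 := by
  induction js generalizing c D1 with
  | nil => exact absurd rfl hne
  | cons j js ih =>
    obtain ⟨hj, hnd'⟩ := List.nodup_cons.1 hnd
    have hcpj : ∀ κ ∈ noJ j, |cp j (crL js c) κ| ≤ 1 := kb1_cp_abs j (crL js c) hcp
    have hVj : ∀ κ ∈ noJ j, s.r κ ≤ D1 → V0 ≤ s.VV D2 κ := fun κ _ h =>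
      hV κ (h.trans (le_mul_of_one_le_right (by linarith) (one_le_pow₀ hD2)))
    by_cases hjs : js = []
    · subst hjs
      have hV1 : ∀ κ : ι → Option J, s.r κ ≤ D1 * D2 → s.ps κ ≤ K * s.ph κ := by
        intro κ h
        refine hK κ (h.trans (le_of_eq ?_))
        simp
      have h1 := maj s W hW1 hpr hJ c D1 D2 V0 K hD1 hD2 hV0 hK0 j hc hcpj hVj hV1 Y
      have h2 : (Icc 1 Y).filter (fun t => ∀ j' ∈ [j], ∀ i, ¬ s.pr i ∣ s.b j' + s.M * t) =
          (Icc 1 Y).filter (fun t => ∀ i, ¬ s.pr i ∣ s.b j + s.M * t) := by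
        refine Finset.filter_congr fun t _ => ?_
        constructor
        · intro h
          exact h j (List.mem_singleton.2 rfl)
        · intro h j' hj'
          rw [List.mem_singleton.1 hj']
          exact h
      have h3 : ∑ κ, (crL [j] c κ) ^ 2 * s.ph κ = ∑ κ ∈ noJ j, (cp j c κ) ^ 2 * s.ph κ :=
        kb1_sum_cr s j c
      rw [h2, h3]
      simpa using h1
    · have hD12 : 1 ≤ D1 * D2 := by nlinarith
      set c' := crL js c with hc'
      have hc1 : ∀ κ, c' κ ≠ 0 → s.r κ ≤ D1 := fun κ h => crL_r s js c D1 hc κ h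
      set d := cmaj s c' D2 j with hd
      have hdJ : ∀ κ, d κ ≠ 0 → ∀ j' ∈ js, κ ∈ noJ j' := fun κ h =>
        cmajL_noJ s c' D2 js j hj (fun κ' h' => crL_noJ js hnd' c κ' h') κ h
      have hdid : ∀ κ, crL js d κ = d κ := fun κ => crL_id js d hdJ κ
      have hdr : ∀ κ, d κ ≠ 0 → s.r κ ≤ D1 * D2 := maj3_r_le s c' D1 D2 j hc1
      have hd1 : ∀ κ, |crL js d κ| ≤ 1 := by
        intro κ
        rw [hdid κ]
        exact maj3_abs_le s c' D1 D2 V0 j hV0 hc1 hcpj hVj κ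
      obtain ⟨m, hm⟩ : ∃ m, js.length = m + 1 :=
        Nat.exists_eq_succ_of_ne_zero fun h => hjs (List.length_eq_zero_iff.1 h)
      have hlen : (j :: js).length = m + 1 + 1 := by rw [List.length_cons, hm]
      have hVd : ∀ κ : ι → Option J, s.r κ ≤ D1 * D2 * D2 ^ (js.length - 1) → V0 ≤ s.VV D2 κ := by
        intro κ h
        refine hV κ (h.trans (le_of_eq ?_))
        rw [hlen, hm, Nat.add_sub_cancel, Nat.add_sub_cancel]
        ring
      have hKd : ∀ κ : ι → Option J, s.r κ ≤ D1 * D2 * D2 ^ js.length → s.ps κ ≤ K * s.ph κ := by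
        intro κ h
        refine hK κ (h.trans (le_of_eq ?_))
        rw [hlen, hm]
        ring
      have h1 := ih hnd' hjs d (D1 * D2) hD12 hdr hd1 hVd hKd
      have hKj : ∀ κ : ι → Option J, s.r κ ≤ D1 * D2 → s.ps κ ≤ K * s.ph κ := by
        intro κ h
        refine hKd κ (h.trans (le_mul_of_one_le_right (by linarith) (one_le_pow₀ hD2)))
      have h2 := norm_cmaj_le s c' D1 D2 V0 K j hV0 hK0 hc1 hVj hKj
      rw [← hd, ← kb1_sum_cr s j c'] at h2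
      have h3 : ∑ κ, (crL js d κ) ^ 2 * s.ph κ ≤
          K / V0 * ∑ κ, (cr j c' κ) ^ 2 * s.ph κ := by
        refine le_trans (Finset.sum_le_sum fun κ _ => ?_) h2
        rw [hdid κ]
        exact mul_le_mul_of_nonneg_left (th3_ph_le_ps s κ) (sq_nonneg _)
      have h4 : crL (j :: js) c = cr j c' := rfl
      have h5 : ∑ t ∈ (Icc 1 Y).filter (fun t => ∀ j' ∈ j :: js, ∀ i,
            ¬ s.pr i ∣ s.b j' + s.M * t), (∑ κ, c κ * s.U κ t) ^ 2 ≤
          ∑ t ∈ (Icc 1 Y).filter (fun t => ∀ j' ∈ js, ∀ i, ¬ s.pr i ∣ s.b j' + s.M * t),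
            (∑ κ, d κ * s.U κ t) ^ 2 := by
        have h6 : ∑ t ∈ (Icc 1 Y).filter (fun t => ∀ j' ∈ j :: js, ∀ i,
              ¬ s.pr i ∣ s.b j' + s.M * t), (∑ κ, c κ * s.U κ t) ^ 2 =
            ∑ t ∈ (Icc 1 Y).filter (fun t => ∀ j' ∈ j :: js, ∀ i,
              ¬ s.pr i ∣ s.b j' + s.M * t), (∑ κ, d κ * s.U κ t) ^ 2 := by
          refine Finset.sum_congr rfl fun t ht => ?_
          rw [Finset.mem_filter] at ht
          rw [crL_sum s js c t (fun j' hj' => ht.2 j' (List.mem_cons_of_mem _ hj')), ← hc', hd,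
            sum_cmaj_eq s c' D1 D2 V0 j hV0 hc1 hVj t (ht.2 j List.mem_cons_self)]
        rw [h6]
        refine Finset.sum_le_sum_of_subset_of_nonneg ?_ fun t _ _ => sq_nonneg _
        intro t ht
        rw [Finset.mem_filter] at ht ⊢
        exact ⟨ht.1, fun j' hj' => ht.2 j' (List.mem_cons_of_mem _ hj')⟩
      have hY : (0 : ℝ) ≤ Y := Nat.cast_nonneg Y
      have hKV : 0 ≤ K / V0 := div_nonneg hK0 (by linarith)
      have h7 : (Y : ℝ) * (K / V0) ^ js.length * ∑ κ, (crL js d κ) ^ 2 * s.ph κ ≤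
          Y * (K / V0) ^ js.length * (K / V0 * ∑ κ, (cr j c' κ) ^ 2 * s.ph κ) :=
        mul_le_mul_of_nonneg_left h3 (by positivity)
      rw [h4, List.length_cons]
      calc _ ≤ _ := h5.trans h1
        _ ≤ Y * (K / V0) ^ js.length * (K / V0 * ∑ κ, (cr j c' κ) ^ 2 * s.ph κ) +
            18 * (D1 * D2 * D2 ^ js.length) ^ 8 := by linarith
        _ = _ := by ring

end Pool.Agent.Lib.H77V
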