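import Pool.Agent.Lib.H77V.KB1

/-!
# Chunk KB2: the same with coefficients at most B
-/

open Finset
open Pool.Agent.Lib.H56G
open Pool.Agent.Lib.H5C

namespace Pool.Agent.Lib.H77V

variable {ι J : Type} [Fintype ι] [DecidableEq ι] [Fintype J] [DecidableEq J]

/-- The same with `|crL js c| ≤ B`: `multi_maj` for `c/B` (`crL_smul`). -/
theorem multi_maj_B (s : Sys ι J) (W : ℕ) (hW1 : 1 ≤ W) (hpr : ∀ i, W < s.pr i)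
    (hJ : Fintype.card J ≤ W) (D2 V0 K : ℝ) (hD2 : 1 ≤ D2) (hV0 : 1 ≤ V0) (hK0 : 0 ≤ K) (Y : ℕ)
    (js : List J) (hnd : js.Nodup) (hne : js ≠ []) (c : (ι → Option J) → ℝ) (D1 B : ℝ)
    (hD1 : 1 ≤ D1) (hB : 0 < B) (hc : ∀ κ, c κ ≠ 0 → s.r κ ≤ D1) (hcp : ∀ κ, |crL js c κ| ≤ B)
    (hV : ∀ κ : ι → Option J, s.r κ ≤ D1 * D2 ^ (js.length - 1) → V0 ≤ s.VV D2 κ)
    (hK : ∀ κ : ι → Option J, s.r κ ≤ D1 * D2 ^ js.length → s.ps κ ≤ K * s.ph κ) :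
    ∑ t ∈ (Icc 1 Y).filter (fun t => ∀ j ∈ js, ∀ i, ¬ s.pr i ∣ s.b j + s.M * t),
        (∑ κ, c κ * s.U κ t) ^ 2
      ≤ Y * (K / V0) ^ js.length * ∑ κ, (crL js c κ) ^ 2 * s.ph κ +
        B ^ 2 * (18 * (D1 * D2 ^ js.length) ^ 8) := by
  have hB0 : B ≠ 0 := hB.ne'
  have h1 := multi_maj s W hW1 hpr hJ D2 V0 K hD2 hV0 hK0 Y js hnd hne
    (fun κ => B⁻¹ * c κ) D1 hD1 (fun κ h => hc κ (right_ne_zero_of_mul h))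
    (fun κ => by
      rw [crL_smul, abs_mul, abs_of_pos (inv_pos.2 hB)]
      calc B⁻¹ * |crL js c κ| ≤ B⁻¹ * B :=
            mul_le_mul_of_nonneg_left (hcp κ) (inv_pos.2 hB).le
        _ = 1 := inv_mul_cancel₀ hB0) hV hK
  have h2 : ∀ t : ℕ, (∑ κ, c κ * s.U κ t) ^ 2 =
      B ^ 2 * (∑ κ, (B⁻¹ * c κ) * s.U κ t) ^ 2 := by
    intro t
    have h3 : ∑ κ, (B⁻¹ * c κ) * s.U κ t = B⁻¹ * ∑ κ, c κ * s.U κ t := by
      rw [Finset.mul_sum]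
      exact Finset.sum_congr rfl fun κ _ => by ring
    rw [h3, mul_pow, ← mul_assoc, ← mul_pow, mul_inv_cancel₀ hB0, one_pow, one_mul]
  have h4 : ∑ κ, (crL js (fun κ => B⁻¹ * c κ) κ) ^ 2 * s.ph κ =
      (B⁻¹) ^ 2 * ∑ κ, (crL js c κ) ^ 2 * s.ph κ := by
    rw [Finset.mul_sum]
    refine Finset.sum_congr rfl fun κ _ => ?_
    rw [crL_smul]
    ring
  rw [h4] at h1
  have h5 : B ^ 2 * (B⁻¹) ^ 2 = 1 := by rw [← mul_pow, mul_inv_cancel₀ hB0, one_pow]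
  calc ∑ t ∈ (Icc 1 Y).filter (fun t => ∀ j ∈ js, ∀ i, ¬ s.pr i ∣ s.b j + s.M * t),
        (∑ κ, c κ * s.U κ t) ^ 2
      = B ^ 2 * ∑ t ∈ (Icc 1 Y).filter (fun t => ∀ j ∈ js, ∀ i, ¬ s.pr i ∣ s.b j + s.M * t),
          (∑ κ, (B⁻¹ * c κ) * s.U κ t) ^ 2 := by
        rw [Finset.mul_sum]
        exact Finset.sum_congr rfl fun t _ => h2 t
    _ ≤ B ^ 2 * (Y * (K / V0) ^ js.length * ((B⁻¹) ^ 2 * ∑ κ, (crL js c κ) ^ 2 * s.ph κ) +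
        18 * (D1 * D2 ^ js.length) ^ 8) :=
        mul_le_mul_of_nonneg_left h1 (sq_nonneg B)
    _ = (B ^ 2 * (B⁻¹) ^ 2) * (Y * (K / V0) ^ js.length * ∑ κ, (crL js c κ) ^ 2 * s.ph κ) +
        B ^ 2 * (18 * (D1 * D2 ^ js.length) ^ 8) := by ring
    _ = Y * (K / V0) ^ js.length * ∑ κ, (crL js c κ) ^ 2 * s.ph κ +
        B ^ 2 * (18 * (D1 * D2 ^ js.length) ^ 8) := by rw [h5, one_mul]

end Pool.Agent.Lib.H77V
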