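import Pool.Agent.Lib.H77V.KA

/-!
# Chunk KC1: the coefficients of cc in terms of the brackets
-/

open Finset
open Pool.Agent.Lib.H56G
open Pool.Agent.Lib.H5C

namespace Pool.Agent.Lib.H77V

variable {ι J : Type} [Fintype ι] [DecidableEq ι] [Fintype J] [DecidableEq J]

open Classical in
/-- Induction on `js` (as `cp_cr`): for `κ ∈ noJ j`, `cp j (crL js cc) κ = ∑_{A ⊆ free κ} crL js cc (ins κ j A)`,
`cc (ins κ j A) = cc κ * gD κ A` (`th4_cc_ins`), and `ins κ j A ∈ noJ j'` iff `κ ∈ noJ j'` for `j' ∈ js`, `A ⊆ free κ`
(`th4_ins_noJ`, `th4_ins_not_noJ`; `j' ≠ j` as the list has no repetitions). -/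
theorem crL_cc (s : Sys ι J) (bb : Finset ι → ℝ) (D : ℝ) (js : List J) (hnd : js.Nodup)
    (κ : ι → Option J) :
    crL js (cc s bb D) κ = if ∀ j ∈ js, κ ∈ noJ j then cc s bb D κ * wL s bb D js κ else 0 := by
  induction js generalizing κ with
  | nil => simp [crL, wL]
  | cons j js ih =>
    have hj : j ∉ js := (List.nodup_cons.1 hnd).1
    have hnd' : js.Nodup := (List.nodup_cons.1 hnd).2
    show cr j (crL js (cc s bb D)) κ = _
    unfold cr
    by_cases hκ : κ ∈ noJ j
    · rw [if_pos hκ]
      unfold cp
      by_cases hall : ∀ j' ∈ js, κ ∈ noJ j'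
      · have hall' : ∀ j' ∈ j :: js, κ ∈ noJ j' := by
          intro j' hj'
          rcases List.mem_cons.1 hj' with h | h
          · rw [h]; exact hκ
          · exact hall j' h
        rw [if_pos hall']
        show _ = cc s bb D κ *
          ∑ A ∈ (free κ).powerset, gD s bb D κ A * wL s bb D js (ins κ j A)
        rw [Finset.mul_sum]
        refine Finset.sum_congr rfl fun A hA => ?_
        have hA' : A ⊆ free κ := Finset.mem_powerset.1 hA
        rw [ih hnd' (ins κ j A)]
        have h1 : ∀ j' ∈ js, ins κ j A ∈ noJ j' := by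
          intro j' hj'
          refine th4_ins_noJ κ j' j ?_ (hall j' hj') A
          intro h
          rw [h] at hj'
          exact hj hj'
        rw [if_pos h1, th4_cc_ins s bb D j κ hκ A hA']
        unfold gD
        ring
      · have hall' : ¬ ∀ j' ∈ j :: js, κ ∈ noJ j' :=
          fun h => hall fun j' hj' => h j' (List.mem_cons_of_mem _ hj')
        rw [if_neg hall']
        refine Finset.sum_eq_zero fun A hA => ?_
        have hA' : A ⊆ free κ := Finset.mem_powerset.1 hA
        rw [ih hnd' (ins κ j A), if_neg]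
        intro h
        apply hall
        intro j' hj'
        by_contra h2
        exact th4_ins_not_noJ κ j' j h2 A hA' (h j' hj')
    · rw [if_neg hκ, if_neg]
      intro h
      exact hκ (h j List.mem_cons_self)

end Pool.Agent.Lib.H77V
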