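import Pool.Agent.Lib.H5C.TH5b

/-!
# H77V, part (1): definitions

`K` forms without small prime factors: the restriction of `∑ c(κ) U_κ` to the `t` such that no sieve
prime divides one of the forms of a list, and the brackets of these coefficients for `c = cc`.
-/

open Finset
open Pool.Agent.Lib.H56G
open Pool.Agent.Lib.H5C

namespace Pool.Agent.Lib.H77V

variable {ι J : Type} [Fintype ι] [DecidableEq ι] [Fintype J] [DecidableEq J]

/-- Coefficients of the restriction to the `t` with no prime dividing one of the forms of the list
(`cr` of `TH3.lean`, repeated). -/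
noncomputable def crL : List J → ((ι → Option J) → ℝ) → (ι → Option J) → ℝ
  | [], c => c
  | j :: js, c => cr j (crL js c)

/-- The factor of the coefficient of `ins κ j A` in `cc` (`th4_cc_ins`). -/
noncomputable def gD (s : Sys ι J) (bb : Finset ι → ℝ) (D : ℝ) (κ : ι → Option J)
    (A : Finset ι) : ℝ :=
  if A = ∅ then 1 else if s.r κ * s.rho A ≤ D then - bb A else 0

/-- The brackets: `crL js cc κ = cc κ * wL js κ`. -/
noncomputable def wL (s : Sys ι J) (bb : Finset ι → ℝ) (D : ℝ) :
    List J → (ι → Option J) → ℝ
  | [], _ => 1
  | j :: js, κ => ∑ A ∈ (free κ).powerset, gD s bb D κ A * wL s bb D js (ins κ j A)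

end Pool.Agent.Lib.H77V
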