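import Pool.Agent.Lib.H77V.KD

/-!
# Chunk KN1: numbers for `K` forms (pure asymptotics, without the number of the forms)
-/

open Finset Real
open Pool.Agent.Lib.H5C

namespace Pool.Agent.Lib.H77V

/-- `WX X = ⌈(log X)^16⌉`, `NX δ X = ⌊X^(δ/8)⌋` (`H5C/PAR.lean`). (1) `log N ≤ δ log X/8 ≤ log X` and
`W ≥ (log X)^16`. (2) `(N N^K)^8 ≤ X^((K+1) δ) ≤ X^(1/50)` (as `(K+1) δ ≤ 2 K δ`) and `18 · 4^K ≤ X^(1/10)`.
(3) `(2 loglog X)^K ≤ (log X)^8` for large `X`. (4) `(log X)^K ≤ X^(1/4)` for large `X`. (5) `1 ≤ NX δ X`,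
`100 ≤ loglog X`. -/
theorem par_K1 (K : ℕ) (hK : 1 ≤ K) (δ : ℝ) (hδ : 0 < δ) (hδK : δ * K ≤ 1 / 100) :
    ∃ X₀ : ℕ, ∀ X : ℕ, X₀ ≤ X →
    2 * (K * log (NX δ X)) / WX X ≤ 1 / 2 ∧
    4 ^ K * (18 * ((NX δ X : ℝ) * (NX δ X : ℝ) ^ K) ^ 8) ≤ (X : ℝ) ^ (1 / 4 : ℝ) ∧
    2 ^ K * (log X)⁻¹ ^ 8 ≤ (log (log X))⁻¹ ^ K ∧
    (X : ℝ) ^ (1 / 4 : ℝ) * (log X) ^ K ≤ (X : ℝ) ^ (1 / 2 : ℝ) ∧
    1 ≤ NX δ X ∧ 100 ≤ log (log X) := by
  have tX : Filter.Tendsto (fun X : ℕ => (X : ℝ)) Filter.atTop Filter.atTop :=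
    tendsto_natCast_atTop_atTop
  have tL : Filter.Tendsto (fun X : ℕ => log (X : ℝ)) Filter.atTop Filter.atTop :=
    tendsto_log_atTop.comp tX
  have tL2 : Filter.Tendsto (fun X : ℕ => log (log (X : ℝ))) Filter.atTop Filter.atTop :=
    tendsto_log_atTop.comp tL
  have tR : Filter.Tendsto (fun X : ℕ => (X : ℝ) ^ (1 / 10 : ℝ)) Filter.atTop Filter.atTop :=
    (tendsto_rpow_atTop (by norm_num)).comp tX
  have e1 : ∀ᶠ X : ℕ in Filter.atTop, (18 : ℝ) * 4 ^ K ≤ (X : ℝ) ^ (1 / 10 : ℝ) :=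
    tR.eventually_ge_atTop _
  have e2 : ∀ᶠ X : ℕ in Filter.atTop, (100 : ℝ) ≤ log (log (X : ℝ)) := tL2.eventually_ge_atTop _
  have e3 : ∀ᶠ X : ℕ in Filter.atTop, (1 : ℝ) ≤ log (X : ℝ) := tL.eventually_ge_atTop _
  have e4 : ∀ᶠ X : ℕ in Filter.atTop, (1 : ℝ) ≤ (X : ℝ) := tX.eventually_ge_atTop _
  have e5 : ∀ᶠ X : ℕ in Filter.atTop, log (X : ℝ) ^ (4 * K) ≤ (X : ℝ) := by
    have h : ∀ᶠ x : ℝ in Filter.atTop, ‖log x ^ (4 * K)‖ ≤ 1 * ‖(id x : ℝ)‖ :=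
      isLittleO_pow_log_id_atTop.bound one_pos
    filter_upwards [tX.eventually h, e4] with X hX h4
    rw [one_mul] at hX
    refine (le_abs_self _).trans (hX.trans ?_)
    simp only [id, Real.norm_eq_abs]
    rw [abs_of_nonneg (by linarith)]
  have e6 : ∀ᶠ X : ℕ in Filter.atTop,
      2 ^ K * log (log (X : ℝ)) ^ K ≤ log (X : ℝ) := by
    have h : ∀ᶠ x : ℝ in Filter.atTop, ‖log x ^ K‖ ≤ (2 ^ K)⁻¹ * ‖(id x : ℝ)‖ :=
      isLittleO_pow_log_id_atTop.bound (by positivity)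
    filter_upwards [tL.eventually h, e3] with X hX h3
    have h5 : log (log (X : ℝ)) ^ K ≤ (2 ^ K)⁻¹ * log (X : ℝ) := by
      refine (le_abs_self _).trans (hX.trans ?_)
      simp only [id, Real.norm_eq_abs]
      rw [abs_of_nonneg (by linarith : (0 : ℝ) ≤ log (X : ℝ))]
    calc 2 ^ K * log (log (X : ℝ)) ^ K ≤ 2 ^ K * ((2 ^ K)⁻¹ * log (X : ℝ)) :=
          mul_le_mul_of_nonneg_left h5 (by positivity)
      _ = log (X : ℝ) := by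
          rw [← mul_assoc, mul_inv_cancel₀ (by positivity), one_mul]
  obtain ⟨X₀, hX₀⟩ := Filter.eventually_atTop.1 (((e1.and e2).and (e3.and e4)).and (e5.and e6))
  refine ⟨X₀, fun X hX => ?_⟩
  obtain ⟨⟨⟨h1, h2⟩, h3, h4⟩, h5, h6⟩ := hX₀ X hX
  have hX0 : (0 : ℝ) < X := by linarith
  have hL0 : 0 < log (X : ℝ) := by linarith
  have hl0 : 0 < log (log (X : ℝ)) := by linarith
  have hK1 : (1 : ℝ) ≤ K := by exact_mod_cast hK
  have hδ1 : δ ≤ 1 / 100 := by nlinarith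
  have hone : (1 : ℝ) ≤ (X : ℝ) ^ (δ / 8) := one_le_rpow h4 (by positivity)
  have hN1 : 1 ≤ NX δ X := by
    unfold NX
    exact Nat.le_floor (by exact_mod_cast hone)
  have hNu : (NX δ X : ℝ) ≤ (X : ℝ) ^ (δ / 8) := by
    unfold NX
    exact Nat.floor_le (by positivity)
  have hN1' : (1 : ℝ) ≤ NX δ X := by exact_mod_cast hN1
  have hN0 : (0 : ℝ) < NX δ X := by linarith
  have hlogN : log (NX δ X) ≤ δ / 8 * log X := by
    have := log_le_log hN0 hNu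
    rwa [log_rpow hX0] at this
  have hW : log (X : ℝ) ≤ WX X := by
    unfold WX
    exact (le_self_pow₀ h3 (by norm_num)).trans (Nat.le_ceil _)
  have hW0 : (0 : ℝ) < WX X := by linarith
  refine ⟨?_, ?_, ?_, ?_, hN1, h2⟩
  · rw [div_le_iff₀ hW0]
    have h7 : K * log (NX δ X) ≤ K * (δ / 8 * log X) :=
      mul_le_mul_of_nonneg_left hlogN (by linarith)
    have h8 : K * (δ / 8 * log X) = (δ * K) * (log X / 8) := by ring
    have h9 : (δ * K) * (log X / 8) ≤ 1 / 100 * (log X / 8) :=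
      mul_le_mul_of_nonneg_right hδK (by positivity)
    linarith
  · have h7 : (NX δ X : ℝ) * (NX δ X : ℝ) ^ K = (NX δ X : ℝ) ^ (K + 1) := by
      rw [pow_succ]; ring
    have h8 : ((NX δ X : ℝ) ^ (K + 1)) ^ 8 ≤ (X : ℝ) ^ (1 / 50 : ℝ) := by
      rw [← pow_mul]
      calc (NX δ X : ℝ) ^ ((K + 1) * 8) ≤ ((X : ℝ) ^ (δ / 8)) ^ ((K + 1) * 8) :=
            pow_le_pow_left₀ hN0.le hNu _
        _ = (X : ℝ) ^ (δ / 8 * (((K + 1) * 8 : ℕ) : ℝ)) := by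
            rw [← rpow_natCast, ← rpow_mul hX0.le]
        _ ≤ (X : ℝ) ^ (1 / 50 : ℝ) := by
            refine rpow_le_rpow_of_exponent_le h4 ?_
            push_cast
            nlinarith
    rw [h7]
    have h9 : (4 : ℝ) ^ K * (18 * ((NX δ X : ℝ) ^ (K + 1)) ^ 8) =
        (18 * 4 ^ K) * ((NX δ X : ℝ) ^ (K + 1)) ^ 8 := by ring
    rw [h9]
    calc (18 * 4 ^ K) * ((NX δ X : ℝ) ^ (K + 1)) ^ 8
        ≤ (X : ℝ) ^ (1 / 10 : ℝ) * (X : ℝ) ^ (1 / 50 : ℝ) :=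
          mul_le_mul h1 h8 (by positivity) (by positivity)
      _ = (X : ℝ) ^ (1 / 10 + 1 / 50 : ℝ) := by rw [rpow_add hX0]
      _ ≤ (X : ℝ) ^ (1 / 4 : ℝ) := rpow_le_rpow_of_exponent_le h4 (by norm_num)
  · rw [inv_pow, inv_pow, ← div_eq_mul_inv, div_le_iff₀ (by positivity), inv_mul_eq_div,
      le_div_iff₀ (by positivity)]
    exact h6.trans (le_self_pow₀ h3 (by norm_num))
  · have h7 : log (X : ℝ) ^ K ≤ (X : ℝ) ^ (1 / 4 : ℝ) := by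
      have h8 : log (X : ℝ) ^ K = (log (X : ℝ) ^ (4 * K)) ^ (1 / 4 : ℝ) := by
        rw [← rpow_natCast, ← rpow_natCast, ← rpow_mul hL0.le]
        congr 1
        push_cast
        ring
      rw [h8]
      exact rpow_le_rpow (by positivity) h5 (by norm_num)
    calc (X : ℝ) ^ (1 / 4 : ℝ) * log (X : ℝ) ^ K
        ≤ (X : ℝ) ^ (1 / 4 : ℝ) * (X : ℝ) ^ (1 / 4 : ℝ) :=
          mul_le_mul_of_nonneg_left h7 (by positivity)
      _ = (X : ℝ) ^ (1 / 2 : ℝ) := by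
          rw [← rpow_add hX0]; norm_num

end Pool.Agent.Lib.H77V
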