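import Pool.Agent.Lib.H77V.KD

/-!
# Chunk KT1: moment with a free exponent
-/

open Finset
open Pool.Agent.Lib.H56G
open Pool.Agent.Lib.H5C

namespace Pool.Agent.Lib.H77V

variable {ι J : Type} [Fintype ι] [DecidableEq ι] [Fintype J] [DecidableEq J]

/-- `exp (a u) - 1 ≤ u exp a` for `u` in the unit interval (convexity). -/
private theorem kt1_conv (a u : ℝ) (hu0 : 0 ≤ u) (hu1 : u ≤ 1) :
    Real.exp (a * u) - 1 ≤ Real.exp a * u := by
  have h := convexOn_exp.2 (Set.mem_univ a) (Set.mem_univ (0 : ℝ)) hu0 (sub_nonneg.mpr hu1)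
    (by ring : u + (1 - u) = 1)
  simp only [smul_eq_mul, mul_zero, add_zero, Real.exp_zero, mul_one] at h
  have h1 : Real.exp (a * u) = Real.exp (u * a) := by rw [mul_comm]
  rw [h1]
  nlinarith

/-- As `bw_moment` (`H56G/Wgt1.lean`), `σ = a/log z`: for `1 ≤ ρ = ρ(A) ≤ z`, `u = log ρ/log z ∈ [0,1]`,
`ρ^σ - 1 = exp (a u) - 1 ≤ u (exp a - 1) ≤ u exp a` (convexity), and `∑ bw² φ log ρ = 1/S`. -/
theorem bw_moment_a (s : Sys ι J) (z a : ℝ) (ha : 0 ≤ a) (hz : 1 < z) (hS : 0 < SS s z) :
    ∑ A ∈ univ.filter (fun A : Finset ι => A ≠ ∅),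
        vv s (bw s z) A * ((s.rho A) ^ (a / Real.log z) - 1) ≤
      Real.exp a / (SS s z * Real.log z) := by
  have hlz : 0 < Real.log z := Real.log_pos hz
  have key : ∀ A ∈ univ.filter (fun A : Finset ι => A ≠ ∅),
      vv s (bw s z) A * ((s.rho A) ^ (a / Real.log z) - 1)
        ≤ Real.exp a / (SS s z * Real.log z) * bw s z A := by
    intro A hA
    rw [Finset.mem_filter] at hA
    have hA := hA.2
    have hr := wgt1_one_lt_rho s A hA
    have hlr : 0 < Real.log (s.rho A) := Real.log_pos hr
    have hph : 0 < s.phi A := lt_of_lt_of_le zero_lt_one (one_le_phi s A)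
    have hvv : vv s (bw s z) A = (bw s z A) ^ 2 * s.phi A := by
      unfold vv gam
      rw [if_neg hA, neg_sq]
    by_cases hzA : s.rho A ≤ z
    · have hx0 : 0 ≤ Real.log (s.rho A) / Real.log z := div_nonneg hlr.le hlz.le
      have hx1 : Real.log (s.rho A) / Real.log z ≤ 1 := by
        rw [div_le_one hlz]
        exact Real.log_le_log (zero_lt_one.trans hr) hzA
      have hexp : (s.rho A) ^ (a / Real.log z) - 1 ≤
          Real.exp a * (Real.log (s.rho A) / Real.log z) := by
        have h2 : (s.rho A) ^ (a / Real.log z) =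
            Real.exp (a * (Real.log (s.rho A) / Real.log z)) := by
          rw [Real.rpow_def_of_pos (zero_lt_one.trans hr)]
          congr 1
          ring
        rw [h2]
        exact kt1_conv a _ hx0 hx1
      have hbw : bw s z A = 1 / (SS s z * (s.phi A * Real.log (s.rho A))) := by
        unfold bw
        rw [if_pos ⟨hA, hzA⟩]
      have hb0 := bw_nonneg s z A
      rw [hvv]
      calc (bw s z A) ^ 2 * s.phi A * ((s.rho A) ^ (a / Real.log z) - 1)
          ≤ (bw s z A) ^ 2 * s.phi A * (Real.exp a * (Real.log (s.rho A) / Real.log z)) := by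
            apply mul_le_mul_of_nonneg_left hexp
            positivity
        _ = bw s z A * (bw s z A * (s.phi A * Real.log (s.rho A))) *
            (Real.exp a / Real.log z) := by
            ring
        _ = Real.exp a / (SS s z * Real.log z) * bw s z A := by
            have h3 : bw s z A * (s.phi A * Real.log (s.rho A)) = 1 / SS s z := by
              rw [hbw]
              field_simp
            rw [h3]
            field_simp
    · have hbw : bw s z A = 0 := by
        unfold bw
        rw [if_neg (fun h => hzA h.2)]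
      rw [hvv, hbw]
      simp
  calc ∑ A ∈ univ.filter (fun A : Finset ι => A ≠ ∅),
        vv s (bw s z) A * ((s.rho A) ^ (a / Real.log z) - 1)
      ≤ ∑ A ∈ univ.filter (fun A : Finset ι => A ≠ ∅),
        Real.exp a / (SS s z * Real.log z) * bw s z A := Finset.sum_le_sum key
    _ = Real.exp a / (SS s z * Real.log z) := by
      rw [← Finset.mul_sum, bw_sum s z hS, mul_one]

end Pool.Agent.Lib.H77V
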